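import Pool.Agent.PWR.Rec

/-! Module Cnt: a lower bound for the number of full cycles and near cycles. -/

set_option autoImplicit false

namespace Pool.Agent.PWR

open Equiv Pool.Agent.PW
open scoped Classical

theorem Cnt_same {α β : Type} (e : α ≃ β) (x : Perm α) (i j : β) :
    (e.permCongr x).SameCycle i j ↔ x.SameCycle (e.symm i) (e.symm j) := by
  have h : ∀ k : ℤ, ((e.permCongr x) ^ k) i = e ((x ^ k) (e.symm i)) := by
    intro k
    have h1 : (e.permCongr x) ^ k = e.permCongr (x ^ k) := (map_zpow e.permCongrHom x k).symm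
    rw [h1]
    rfl
  constructor
  · rintro ⟨k, hk⟩
    refine ⟨k, ?_⟩
    rw [h] at hk
    rw [← hk, symm_apply_apply]
  · rintro ⟨k, hk⟩
    refine ⟨k, ?_⟩
    rw [h, hk, apply_symm_apply]

theorem Cnt_full {α β : Type} (e : α ≃ β) (x : Perm α) : Full (e.permCongr x) ↔ Full x := by
  constructor
  · intro h i j
    have := (Cnt_same e x (e i) (e j)).1 (h _ _)
    rwa [symm_apply_apply, symm_apply_apply] at this
  · intro h i j
    exact (Cnt_same e x i j).2 (h _ _)

theorem Cnt_tr {α β : Type} [Fintype α] [DecidableEq α] [Fintype β] [DecidableEq β] (e : α ≃ β) :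
    ∑ x : Perm α, fl x = ∑ y : Perm β, fl y := by
  rw [← e.permCongr.sum_comp]
  refine Finset.sum_congr rfl fun x _ => ?_
  unfold fl
  rw [Cnt_full]

theorem Cnt_fl (hOpt : St_Opt) : ∀ (n : ℕ) (α : Type) [Fintype α] [DecidableEq α],
    Fintype.card α = n + 1 → ∑ x : Perm α, fl x = (n.factorial : ℝ) := by
  intro n
  induction n with
  | zero =>
    intro α _ _ h
    have h1 : Subsingleton α := Fintype.card_le_one_iff_subsingleton.1 (by omega)
    have h2 : ∀ x : Perm α, fl x = 1 := by
      intro x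
      unfold fl
      rw [if_pos]
      intro i j
      rw [Subsingleton.elim i j]
    rw [Finset.sum_congr rfl fun x _ => h2 x, Finset.sum_const, Finset.card_univ,
      Fintype.card_perm, h]
    norm_num
  | succ n ih =>
    intro α _ _ h
    have h1 : Fintype.card α = Fintype.card (Option (Fin (n + 1))) := by
      rw [h, Fintype.card_option, Fintype.card_fin]
    rw [Cnt_tr (Fintype.equivOfCardEq h1), Rec_sum, Fintype.sum_option]
    have h2 : ∑ e : Perm (Fin (n + 1)), fl (swap none none * optionCongr e) = 0 := by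
      refine Finset.sum_eq_zero fun e _ => ?_
      rw [swap_self]
      exact Rec_fl_none hOpt e
    have h3 : ∀ t : Fin (n + 1), ∑ e : Perm (Fin (n + 1)), fl (swap none (some t) * optionCongr e) =
        (n.factorial : ℝ) := by
      intro t
      rw [Finset.sum_congr rfl fun e _ => Rec_fl_some hOpt t e]
      exact ih (Fin (n + 1)) (Fintype.card_fin _)
    rw [h2, Finset.sum_congr rfl fun t _ => h3 t, Finset.sum_const, Finset.card_univ,
      Fintype.card_fin, nsmul_eq_mul, zero_add, Nat.factorial_succ]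
    push_cast
    ring

theorem Cnt_pow {α : Type} [DecidableEq α] (s : α) (e : Perm {y : α // y ≠ s}) (k : ℤ)
    (i : {y : α // y ≠ s}) :
    ((Perm.ofSubtype e : Perm α) ^ k) i = ((e ^ k) i : α) := by
  rw [← map_zpow]
  exact Perm.ofSubtype_apply_coe _ _

theorem Cnt_near {α : Type} [DecidableEq α] (s : α) (e : Perm {y : α // y ≠ s}) :
    Near s (Perm.ofSubtype e) ↔ Full e := by
  constructor
  · rintro ⟨-, h⟩ i j
    obtain ⟨k, hk⟩ := h i j i.2 j.2
    refine ⟨k, Subtype.ext ?_⟩
    rw [← hk, Cnt_pow]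
  · intro h
    refine ⟨Perm.ofSubtype_apply_of_not_mem e (fun h => h rfl), ?_⟩
    intro i j hi hj
    obtain ⟨k, hk⟩ := h ⟨i, hi⟩ ⟨j, hj⟩
    refine ⟨k, ?_⟩
    have := Cnt_pow s e k ⟨i, hi⟩
    rw [hk] at this
    exact this

theorem Cnt_nr (hOpt : St_Opt) (n : ℕ) (α : Type) [Fintype α] [DecidableEq α]
    (h : Fintype.card α = n + 2) (s : α) : ∑ x : Perm α, nr s x = (n.factorial : ℝ) := by
  have h1 : Fintype.card {y : α // y ≠ s} = n + 1 := by
    have h2 := Fintype.card_subtype_compl (fun y : α => y = s)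
    rw [Fintype.card_subtype_eq, h] at h2
    exact h2
  rw [← Cnt_fl hOpt n {y : α // y ≠ s} h1]
  symm
  refine Fintype.sum_of_injective (fun e => (Perm.ofSubtype e : Perm α)) Perm.ofSubtype_injective
    _ _ ?_ ?_
  · intro x hx
    unfold nr
    rw [if_neg]
    intro hn
    apply hx
    have h3 : ∀ a, x a ≠ s ↔ a ≠ s := by
      intro a
      rw [not_iff_not]
      constructor
      · intro h4
        exact x.injective (h4.trans hn.1.symm)
      · rintro rfl
        exact hn.1
    refine ⟨Perm.subtypePerm x h3, Perm.ofSubtype_subtypePerm h3 ?_⟩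
    rintro a ha rfl
    exact ha hn.1
  · intro e
    unfold fl nr
    rw [Cnt_near]

theorem thm_Cnt (hOpt : St_Opt) : St_Cnt := by
  intro α _ _ hα
  obtain ⟨n, hn⟩ : ∃ n, Fintype.card α = n + 2 := ⟨Fintype.card α - 2, by omega⟩
  have h1 : ∑ x : Perm α, gg x = ((n + 1).factorial : ℝ) + (n + 2 : ℕ) * (n.factorial : ℝ) := by
    unfold gg
    rw [Finset.sum_add_distrib, Cnt_fl hOpt (n + 1) α hn]
    congr 1
    unfold nrs
    rw [Finset.sum_comm, Finset.sum_congr rfl fun s _ => Cnt_nr hOpt n α hn s, Finset.sum_const,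
      Finset.card_univ, hn, nsmul_eq_mul]
  rw [h1, hn, Nat.factorial_succ (n + 1), Nat.factorial_succ n]
  have h2 : (0 : ℝ) < n.factorial := by exact_mod_cast Nat.factorial_pos n
  have h3 : (0 : ℝ) < (n : ℝ) + 2 := by positivity
  push_cast
  have h4 : ((n : ℝ) + 1 + 1) * (((n : ℝ) + 1) * n.factorial) * (2 / ((n : ℝ) + 2)) =
      2 * (((n : ℝ) + 1) * n.factorial) := by
    field_simp
    ring
  rw [h4]
  nlinarith

end Pool.Agent.PWR
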