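import Pool.Agent.PWR.St

/-!
# [COR] The sum of the products of two weights
-/

set_option autoImplicit false

namespace Pool.Agent.PWR

open Equiv Pool.Agent.PW
open scoped Classical

section

variable {α : Type} [Fintype α] [DecidableEq α]

theorem Cor_split (z : Perm α) :
    (∑ x : Perm α, gg x * gg (x * z)) = ff z + fn z + nf z + nn z := by
  unfold ff fn nf nn gg
  rw [← Finset.sum_add_distrib, ← Finset.sum_add_distrib, ← Finset.sum_add_distrib]
  refine Finset.sum_congr rfl fun x _ => ?_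
  ring

theorem Cor_fl {x : Perm α} (h : fl x ≠ 0) : Full x := by
  by_contra hn
  exact h (if_neg hn)

theorem Cor_nrs {x : Perm α} (h : nrs x ≠ 0) : ∃ s, Near s x := by
  by_contra hn
  push Not at hn
  apply h
  unfold nrs
  exact Finset.sum_eq_zero fun s _ => if_neg (hn s)

theorem Cor_fix (z : Perm α) : fx z + z.support.card = Fintype.card α := by
  have h : (Finset.univ.filter fun i => z i = i) = z.supportᶜ := by
    ext i
    simp [Perm.mem_support]
  unfold fx
  rw [h, Finset.card_compl]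
  have h2 : z.support.card ≤ Fintype.card α := Finset.card_le_univ _
  rw [Nat.cast_sub h2]
  ring

theorem Cor_mul (x z : Perm α) : ((Perm.sign (x * z) : ℤˣ) : ℤ) =
    (Perm.sign x : ℤ) * (Perm.sign z : ℤ) := by
  rw [Perm.sign_mul, Units.val_mul]

theorem Cor_eps (d : ℕ) : (-1 : ℤ) ^ d * (-1 : ℤ) ^ d = 1 := by
  rw [← mul_pow]
  norm_num

theorem Cor_sign1 (hPar : St_Par) (hd : 2 ≤ Fintype.card α) (z : Perm α)
    (hz : (Perm.sign z : ℤ) = 1) : fn z = 0 ∧ nf z = 0 := by
  constructor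
  · refine Finset.sum_eq_zero fun x _ => ?_
    by_contra h
    have h1 := (hPar α x).1 (by omega) (Cor_fl (left_ne_zero_of_mul h))
    obtain ⟨s, hs⟩ := Cor_nrs (right_ne_zero_of_mul h)
    have h2 := (hPar α (x * z)).2 hd s hs
    rw [Cor_mul, h1, hz] at h2
    have := Cor_eps (Fintype.card α)
    nlinarith
  · refine Finset.sum_eq_zero fun x _ => ?_
    by_contra h
    have h1 := (hPar α (x * z)).1 (by omega) (Cor_fl (right_ne_zero_of_mul h))
    obtain ⟨s, hs⟩ := Cor_nrs (left_ne_zero_of_mul h)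
    have h2 := (hPar α x).2 hd s hs
    rw [Cor_mul, h2, hz] at h1
    have := Cor_eps (Fintype.card α)
    nlinarith

theorem Cor_sign2 (hPar : St_Par) (hd : 2 ≤ Fintype.card α) (z : Perm α)
    (hz : (Perm.sign z : ℤ) = -1) : ff z = 0 ∧ nn z = 0 := by
  constructor
  · refine Finset.sum_eq_zero fun x _ => ?_
    by_contra h
    have h1 := (hPar α x).1 (by omega) (Cor_fl (left_ne_zero_of_mul h))
    have h2 := (hPar α (x * z)).1 (by omega) (Cor_fl (right_ne_zero_of_mul h))
    rw [Cor_mul, h1, hz] at h2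
    have := Cor_eps (Fintype.card α)
    nlinarith
  · refine Finset.sum_eq_zero fun x _ => ?_
    by_contra h
    obtain ⟨s, hs⟩ := Cor_nrs (left_ne_zero_of_mul h)
    obtain ⟨t, ht⟩ := Cor_nrs (right_ne_zero_of_mul h)
    have h1 := (hPar α x).2 hd s hs
    have h2 := (hPar α (x * z)).2 hd t ht
    rw [Cor_mul, h1, hz] at h2
    have := Cor_eps (Fintype.card α)
    nlinarith

theorem Cor_gg (x : Perm α) : 0 ≤ gg x ∧ gg x ≤ 1 + Fintype.card α := by
  have h1 : 0 ≤ fl x ∧ fl x ≤ 1 := by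
    unfold fl
    split_ifs <;> norm_num
  have h2 : ∀ s : α, 0 ≤ nr s x ∧ nr s x ≤ 1 := by
    intro s
    unfold nr
    split_ifs <;> norm_num
  have h3 : 0 ≤ nrs x := Finset.sum_nonneg fun s _ => (h2 s).1
  have h4 : nrs x ≤ Fintype.card α := by
    unfold nrs
    calc ∑ s, nr s x ≤ ∑ _s : α, (1 : ℝ) := Finset.sum_le_sum fun s _ => (h2 s).2
      _ = Fintype.card α := by simp
  unfold gg
  constructor <;> linarith

end

/-- the estimate of the bracket -/
theorem Cor_sum (hPsi : St_Psi) (hUpp : St_Upp) (hFnn : St_Fnn) (hNnn : St_Nnn) (hPar : St_Par)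
    (α : Type) [Fintype α] [DecidableEq α] (hd : 3 ≤ Fintype.card α) (z : Perm α) :
    (∑ x : Perm α, gg x * gg (x * z)) ≤ ((Fintype.card α - 2).factorial : ℝ) *
      (psi (z.support.card - 8) * (2 * Fintype.card α + 5 + fx z)) := by
  obtain ⟨p1, p2, p3, -⟩ := hPsi
  have : Nonempty α := Fintype.card_pos_iff.1 (by omega)
  rw [Cor_split]
  obtain ⟨j, hj⟩ : ∃ j, Fintype.card α = j + 3 := ⟨Fintype.card α - 3, by omega⟩
  have hfx := Cor_fix z
  have hfx0 : 0 ≤ fx z := by unfold fx; positivity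
  set m := z.support.card with hm
  have q1 := hUpp α z
  have q2 := (hFnn α z (by omega))
  have q3 := hNnn α z hd
  rw [← hm] at q1 q2 q3
  have e1 : Fintype.card α - 1 = j + 2 := by omega
  have e2 : Fintype.card α - 2 = j + 1 := by omega
  have e3 : Fintype.card α - 3 = j := by omega
  have ed : (Fintype.card α : ℝ) = j + 3 := by rw [hj]; push_cast; ring
  rw [e1] at q1
  rw [e2] at q2
  rw [e2, e3] at q3
  rw [e2]
  have f1 : ((j + 2).factorial : ℝ) = (j + 2) * ((j + 1).factorial : ℝ) := by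
    rw [Nat.factorial_succ]
    push_cast
    ring
  have f2 : ((j + 1).factorial : ℝ) = (j + 1) * (j.factorial : ℝ) := by
    rw [Nat.factorial_succ]
    push_cast
    ring
  have g0 : 0 < ((j + 1).factorial : ℝ) := by positivity
  have g1 : 0 < (j.factorial : ℝ) := by positivity
  have hP := p2 (m - 8)
  have hP4 : psi (m - 4) ≤ psi (m - 8) := p1 (by omega)
  have hP0 : psi m ≤ psi (m - 8) := p1 (by omega)
  have hj0 : (0 : ℝ) ≤ j := Nat.cast_nonneg j
  rcases Int.isUnit_iff.1 (Units.isUnit (Perm.sign z)) with hz | hz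
  · obtain ⟨r1, r2⟩ := Cor_sign1 hPar (by omega) z hz
    rw [r1, r2]
    have h3 : ff z ≤ (j + 2) * ((j + 1).factorial : ℝ) * psi (m - 8) := by
      rw [f1] at q1
      exact q1.trans (mul_le_mul_of_nonneg_left hP0 (by positivity))
    have h4 : (Fintype.card α : ℝ) ^ 2 * (j.factorial : ℝ) ≤
        (j + 9) * ((j + 1).factorial : ℝ) := by
      rw [f2, ed]
      have : ((j : ℝ) + 3) ^ 2 ≤ (j + 9) * (j + 1) := by nlinarith
      nlinarith
    have h5 : nn z ≤ (fx z * ((j + 1).factorial : ℝ) + (j + 9) * ((j + 1).factorial : ℝ)) *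
        psi (m - 8) := by
      refine q3.trans (mul_le_mul_of_nonneg_right ?_ hP.le)
      have : (Fintype.card α : ℝ) - m = fx z := by linarith
      rw [this]
      linarith
    rw [ed]
    nlinarith
  · obtain ⟨r1, r2⟩ := Cor_sign2 hPar (by omega) z hz
    rw [r1, r2]
    have h3 : (Fintype.card α : ℝ) * ((j + 1).factorial : ℝ) * psi (m - 4) ≤
        (Fintype.card α : ℝ) * ((j + 1).factorial : ℝ) * psi (m - 8) :=
      mul_le_mul_of_nonneg_left hP4 (by positivity)
    have h4 : 0 ≤ ((j + 1).factorial : ℝ) * (psi (m - 8) * (5 + fx z)) := by positivity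
    have h5 := q2.1
    have h6 := q2.2
    nlinarith

/-- the real estimate for large degree -/
theorem Cor_real (d f p : ℝ) (hd : 40 ≤ d) (hf0 : 0 ≤ f) (hf : f ≤ d / 2)
    (hp : p ≤ 2 / (d - f - 8) + 50 / (d - f - 8) ^ 2) :
    p * (2 * d + 5 + f) ≤ 4 * (d - 1) / d * (1 + 2500 * (1 + f ^ 2) / d) := by
  have hd0 : 0 < d := by linarith
  set q := d - f - 8 with hq
  have hq4 : d / 4 ≤ q := by linarith
  have hq0 : 0 < q := by linarith
  obtain ⟨a, ha⟩ : ∃ a, a = 1 / d := ⟨_, rfl⟩
  have had : a * d = 1 := by rw [ha]; field_simp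
  have ha0 : 0 < a := by rw [ha]; positivity
  have ha40 : a ≤ 1 / 40 := by
    rw [ha]
    exact one_div_le_one_div_of_le (by norm_num) hd
  have hqi : 1 / q ≤ 4 * a := by
    rw [ha, div_le_iff₀ hq0]
    have : 4 * (1 / d) * q = 4 * q / d := by ring
    rw [this, le_div_iff₀ hd0]
    linarith
  have hqi0 : 0 < 1 / q := by positivity
  have e1 : 2 / q = 2 * a * (1 + (f + 8) * (1 / q)) := by
    have : 1 + (f + 8) * (1 / q) = d * (1 / q) := by
      field_simp
      rw [hq]
      ring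
    rw [this]
    calc 2 / q = 2 * (a * d) * (1 / q) := by rw [had]; ring
      _ = _ := by ring
  have e2 : 50 / q ^ 2 = 50 * (1 / q) ^ 2 := by
    field_simp
  have h1 : 2 / q ≤ 2 * a * (1 + (f + 8) * (4 * a)) := by
    rw [e1]
    gcongr
  have h2 : 50 / q ^ 2 ≤ 50 * (4 * a) ^ 2 := by
    rw [e2]
    gcongr
  have h3 : p ≤ 2 * a * (1 + (4 * f + 432) * a) := by
    refine hp.trans ((add_le_add h1 h2).trans (le_of_eq ?_))
    ring
  have hfa : f * a ≤ 1 / 2 := by
    have := mul_le_mul_of_nonneg_right hf ha0.le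
    nlinarith
  have h4 : p * (2 * d + 5 + f) ≤ 2 * a * (1 + (4 * f + 432) * a) * (2 * d + 5 + f) :=
    mul_le_mul_of_nonneg_right h3 (by linarith)
  have h5 : 2 * a * (1 + (4 * f + 432) * a) * (2 * d + 5 + f) =
      (1 + (4 * f + 432) * a) * (4 + 2 * a * (5 + f)) := by
    have : 2 * a * (2 * d + 5 + f) = 4 + 2 * a * (5 + f) := by
      have : 2 * a * (2 * d + 5 + f) = 4 * (a * d) + 2 * a * (5 + f) := by ring
      rw [this, had]
      ring
    rw [← this]
    ring
  have e3 : 4 * (d - 1) / d * (1 + 2500 * (1 + f ^ 2) / d) =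
      4 * (1 - a) * (1 + 2500 * (1 + f ^ 2) * a) := by
    rw [ha]
    field_simp
  rw [e3]
  refine h4.trans (h5.le.trans ?_)
  have h6 : 2 * a * (5 + f) ≤ 5 / 4 := by
    have : 2 * a * (5 + f) = 10 * a + 2 * (f * a) := by ring
    rw [this]
    linarith
  obtain ⟨u, hu⟩ : ∃ u, u = (4 * f + 432) * a := ⟨_, rfl⟩
  obtain ⟨v, hv⟩ : ∃ v, v = 2 * a * (5 + f) := ⟨_, rfl⟩
  have hu0 : 0 ≤ u := by rw [hu]; positivity
  rw [← hv] at h6
  have h7 : (1 + u) * (4 + v) ≤ 4 + v + u * (21 / 4) := by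
    have h8 : u * v ≤ u * (5 / 4) := mul_le_mul_of_nonneg_left h6 hu0
    linarith
  rw [← hu, ← hv]
  refine h7.trans ?_
  have h9 : f ≤ (1 + f ^ 2) / 2 := by nlinarith [sq_nonneg (f - 1)]
  have hG : 0 ≤ f ^ 2 := sq_nonneg f
  have h10 : v + u * (21 / 4) ≤ a * (9000 * (1 + f ^ 2) - 4) := by
    have h12 : 23 * f + 2278 ≤ 9000 * (1 + f ^ 2) - 4 := by linarith
    have h13 := mul_le_mul_of_nonneg_left h12 ha0.le
    have h14 : v + u * (21 / 4) = a * (23 * f + 2278) := by
      rw [hu, hv]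
      ring
    rw [h14]
    exact h13
  have h13 : (1 + f ^ 2) * a * a ≤ (1 + f ^ 2) * a * (1 / 40) :=
    mul_le_mul_of_nonneg_left ha40 (by positivity)
  have h15 : 0 ≤ (1 + f ^ 2) * a := by positivity
  have h16 : 4 * (1 - a) * (1 + 2500 * (1 + f ^ 2) * a) =
      4 + 10000 * ((1 + f ^ 2) * a) - 4 * a - 10000 * ((1 + f ^ 2) * a * a) := by ring
  have h17 : a * (9000 * (1 + f ^ 2) - 4) = 9000 * ((1 + f ^ 2) * a) - 4 * a := by ring
  rw [h16]
  rw [h17] at h10
  linarith

theorem thm_Cor (hPsi : St_Psi) (hUpp : St_Upp) (hFnn : St_Fnn) (hNnn : St_Nnn)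
    (hPar : St_Par) : St_Cor := by
  refine ⟨2500, by norm_num, ?_⟩
  intro α _ _ hd z
  have hfx := Cor_fix z
  have hfx0 : 0 ≤ fx z := by unfold fx; positivity
  have hd0 : (2 : ℝ) ≤ Fintype.card α := by exact_mod_cast hd
  rcases Nat.lt_or_ge (Fintype.card α) 3 with h2 | h3
  · have hd2 : Fintype.card α = 2 := by omega
    have h4 : (∑ x : Perm α, gg x * gg (x * z)) ≤ ∑ _x : Perm α, (9 : ℝ) := by
      refine Finset.sum_le_sum fun x _ => ?_
      have a1 := Cor_gg x
      have a2 := Cor_gg (x * z)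
      rw [hd2] at a1 a2
      norm_num at a1 a2
      nlinarith
    have h5 : ∑ _x : Perm α, (9 : ℝ) = 18 := by
      rw [Finset.sum_const, Finset.card_univ, Fintype.card_perm, hd2]
      norm_num
    rw [h5] at h4
    refine h4.trans ?_
    rw [hd2]
    have h6 : ((2 : ℕ).factorial : ℝ) = 2 := by norm_num
    rw [h6]
    have h7 : 0 ≤ fx z ^ 2 := sq_nonneg _
    push_cast
    nlinarith
  · have h4 := Cor_sum hPsi hUpp hFnn hNnn hPar α h3 z
    refine h4.trans ?_
    obtain ⟨p1, p2, p3, p4⟩ := hPsi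
    obtain ⟨k, hk⟩ : ∃ k, Fintype.card α = k + 2 := ⟨Fintype.card α - 2, by omega⟩
    have e2 : Fintype.card α - 2 = k := by omega
    have ef : ((Fintype.card α).factorial : ℝ) =
        (Fintype.card α : ℝ) * ((Fintype.card α : ℝ) - 1) * (k.factorial : ℝ) := by
      rw [hk, Nat.factorial_succ, Nat.factorial_succ]
      push_cast
      ring
    rw [e2, ef]
    have hdp : (0 : ℝ) < Fintype.card α := by linarith
    have e3 : (Fintype.card α : ℝ) * ((Fintype.card α : ℝ) - 1) * (k.factorial : ℝ) *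
        (4 / (Fintype.card α : ℝ) ^ 2) * (1 + 2500 * (1 + fx z ^ 2) / Fintype.card α) =
        (k.factorial : ℝ) * (4 * ((Fintype.card α : ℝ) - 1) / Fintype.card α *
          (1 + 2500 * (1 + fx z ^ 2) / Fintype.card α)) := by
      field_simp
    rw [e3]
    refine mul_le_mul_of_nonneg_left ?_ (by positivity)
    set d : ℝ := (Fintype.card α : ℝ) with hdd
    set f := fx z with hf
    have hm : (z.support.card : ℝ) = d - f := by linarith
    have hfd : f ≤ d := by
      have : (0 : ℝ) ≤ z.support.card := Nat.cast_nonneg _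
      linarith
    have hd3 : (3 : ℝ) ≤ d := by
      rw [hdd]
      exact_mod_cast h3
    have hpp : 0 < psi (z.support.card - 8) := p2 _
    have hp1 : psi (z.support.card - 8) ≤ 1 := p3 _
    have hlow : 2 * (2500 * (1 + f ^ 2) / d) ≤
        4 * (d - 1) / d * (1 + 2500 * (1 + f ^ 2) / d) := by
      have h5 : 2 ≤ 4 * (d - 1) / d := by
        rw [le_div_iff₀ hdp]
        linarith
      have h6 : 0 ≤ 2500 * (1 + f ^ 2) / d := by positivity
      nlinarith
    have hup : psi (z.support.card - 8) * (2 * d + 5 + f) ≤ 3 * d + 5 := by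
      have h7 : 0 ≤ 2 * d + 5 + f := by linarith
      nlinarith
    by_cases hcase : d < 40 ∨ d / 2 < f
    · refine hup.trans (le_trans ?_ hlow)
      rw [← mul_div_assoc, le_div_iff₀ hdp]
      rcases hcase with h | h
      · have : 0 ≤ f ^ 2 := sq_nonneg f
        nlinarith
      · have h8 : (d / 2) ^ 2 ≤ f ^ 2 := by
          apply pow_le_pow_left₀ (by linarith) h.le
        nlinarith
    · push Not at hcase
      obtain ⟨h40, hf2⟩ := hcase
      apply Cor_real d f _ h40 hfx0 hf2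
      have hm20 : 20 ≤ z.support.card := by
        have : (20 : ℝ) ≤ z.support.card := by linarith
        exact_mod_cast this
      have h9 := p4 (z.support.card - 8) (by omega)
      have h10 : ((z.support.card - 8 : ℕ) : ℝ) = d - f - 8 := by
        rw [Nat.cast_sub (by omega), hm]
        norm_num
      rw [h10] at h9
      exact h9

end Pool.Agent.PWR
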