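import Pool.Agent.PWR.St

/-! Module Crd. -/

set_option autoImplicit false

namespace Pool.Agent.PWR

open Equiv Pool.Agent.PW
open scoped Classical

variable {g n : ℕ}

theorem Crd_mem {X : Type} {ρ : F g n →* Perm X} {s : X} {x : F g n} :
    x ∈ Stab ρ s ↔ ρ x s = s := Iff.rfl

theorem Crd_inv {X : Type} (ρ : F g n →* Perm X) (x : F g n) (t : X) : ρ x (ρ x⁻¹ t) = t := by
  rw [← Perm.mul_apply, ← map_mul, mul_inv_cancel, map_one, Perm.one_apply]

theorem Crd_sp_conj {x y : F g n} (hx : SimplePower x) (h : IsConj x y) : SimplePower y := by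
  obtain ⟨φ, hφ, h0, m, hc⟩ := hx
  exact ⟨φ, hφ, h0, m, hc.trans h⟩

theorem Crd_sp_scc {x : F g n} (hx : Scc x) : SimplePower x := by
  obtain ⟨φ, hφ, h0, hc⟩ := hx
  refine ⟨φ, hφ, h0, 1, ?_⟩
  rwa [pow_one]

theorem Crd_sp_pow {x : F g n} (hx : Scc x) (m : ℕ) : SimplePower (x ^ m) := by
  obtain ⟨φ, hφ, h0, hc⟩ := hx
  exact ⟨φ, hφ, h0, m, hc.pow m⟩

/-- Integral powers of conjugates of simple curves which lie in the subgroup. -/
theorem Crd_zpow {X : Type} {ρ : F g n →* Perm X} {s : X} {q : F g n} (hq : Scc q) (w : F g n)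
    (i : ℤ) (h : w * q ^ i * w⁻¹ ∈ Stab ρ s) :
    w * q ^ i * w⁻¹ ∈ Subgroup.closure {x | x ∈ Stab ρ s ∧ SimplePower x} := by
  obtain ⟨m, rfl | rfl⟩ := i.eq_nat_or_neg
  · rw [zpow_natCast] at h ⊢
    exact Subgroup.subset_closure ⟨h, Crd_sp_conj (Crd_sp_pow hq m) (isConj_iff.mpr ⟨w, rfl⟩)⟩
  · have e : w * q ^ (-(m : ℤ)) * w⁻¹ = (w * q ^ m * w⁻¹)⁻¹ := by
      rw [zpow_neg, zpow_natCast]
      group
    rw [e] at h ⊢
    have h' := (Stab ρ s).inv_mem h
    rw [inv_inv] at h'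
    exact Subgroup.inv_mem _
      (Subgroup.subset_closure ⟨h', Crd_sp_conj (Crd_sp_pow hq m) (isConj_iff.mpr ⟨w, rfl⟩)⟩)

theorem thm_Crd (hScc : St_Scc) : St_Crd := by
  intro g n h X hX ρ hfull s x hx
  obtain ⟨h1, ⟨h2, -⟩, h3, -, h5, -⟩ := hScc g n h
  set q : F g n := ga ⟨0, h⟩ with hq
  set p : F g n := gb ⟨0, h⟩ with hp
  set H := Subgroup.closure {x | x ∈ Stab ρ s ∧ SimplePower x} with hH
  have hzp : ∀ i : ℤ, ρ (q ^ i) s = s → q ^ i ∈ H := by
    intro i hi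
    have := Crd_zpow (ρ := ρ) (s := s) h2 1 i (by
      rw [one_mul, inv_one, mul_one]
      exact hi)
    rwa [one_mul, inv_one, mul_one] at this
  have hex : ∀ t : X, ∃ i : ℤ, ρ (q ^ i) s = t := by
    intro t
    obtain ⟨i, hi⟩ := hfull s t
    refine ⟨i, ?_⟩
    rw [map_zpow]
    exact hi
  have claim : ∀ x : F g n, ∀ i j : ℤ, ρ x (ρ (q ^ i) s) = ρ (q ^ j) s →
      q ^ (-j) * x * q ^ i ∈ H := by
    intro x
    have hx : x ∈ Subgroup.closure ({q, p} ∪ YY g n h) := by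
      rw [h5]
      exact Subgroup.mem_top x
    have hmul : ∀ x y : F g n, (∀ i j : ℤ, ρ x (ρ (q ^ i) s) = ρ (q ^ j) s →
        q ^ (-j) * x * q ^ i ∈ H) → (∀ i j : ℤ, ρ y (ρ (q ^ i) s) = ρ (q ^ j) s →
        q ^ (-j) * y * q ^ i ∈ H) → (∀ i j : ℤ, ρ (x * y) (ρ (q ^ i) s) = ρ (q ^ j) s →
        q ^ (-j) * (x * y) * q ^ i ∈ H) := by
      intro x y hx hy i j hij
      obtain ⟨l, hl⟩ := hex (ρ y (ρ (q ^ i) s))
      have a1 := hy i l hl.symm
      have a2 := hx l j (by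
        rw [hl, ← hij, map_mul, Perm.mul_apply])
      have := H.mul_mem a2 a1
      have e : q ^ (-j) * x * q ^ l * (q ^ (-l) * y * q ^ i) = q ^ (-j) * (x * y) * q ^ i := by
        group
      rwa [e] at this
    have hinv : ∀ x : F g n, (∀ i j : ℤ, ρ x (ρ (q ^ i) s) = ρ (q ^ j) s →
        q ^ (-j) * x * q ^ i ∈ H) → (∀ i j : ℤ, ρ x⁻¹ (ρ (q ^ i) s) = ρ (q ^ j) s →
        q ^ (-j) * x⁻¹ * q ^ i ∈ H) := by
      intro x hx i j hij
      have a1 := hx j i (by
        rw [← hij, Crd_inv])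
      have := H.inv_mem a1
      have e : (q ^ (-i) * x * q ^ j)⁻¹ = q ^ (-j) * x⁻¹ * q ^ i := by
        group
      rwa [e] at this
    have hpc : ∀ i j : ℤ, ρ p (ρ (q ^ i) s) = ρ (q ^ j) s → q ^ (-j) * p * q ^ i ∈ H := by
      intro i j hij
      refine Subgroup.subset_closure ⟨?_, ?_⟩
      · rw [Crd_mem, map_mul, map_mul, Perm.mul_apply, Perm.mul_apply, hij, ← Perm.mul_apply,
          ← map_mul, zpow_neg, inv_mul_cancel, map_one, Perm.one_apply]
      · refine Crd_sp_conj (Crd_sp_scc (h1 (i - j))) (isConj_iff.mpr ⟨q ^ (-j), ?_⟩)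
        group
    refine Subgroup.closure_induction (p := fun x _ => ∀ i j : ℤ,
      ρ x (ρ (q ^ i) s) = ρ (q ^ j) s → q ^ (-j) * x * q ^ i ∈ H) ?_ ?_ ?_ ?_ hx
    · intro y hy
      rcases hy with (rfl | hy) | hy
      · intro i j hij
        have e : q ^ (-j) * q * q ^ i = q ^ (-j + 1 + i) := by
          rw [zpow_add, zpow_add, zpow_one]
        rw [e]
        apply hzp
        rw [← e, map_mul, map_mul, Perm.mul_apply, Perm.mul_apply, hij, ← Perm.mul_apply,
          ← map_mul, zpow_neg, inv_mul_cancel, map_one, Perm.one_apply]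
      · have : y = p := hy
        rw [this]
        exact hpc
      · have hyp : ∀ i j : ℤ, ρ (y * p) (ρ (q ^ i) s) = ρ (q ^ j) s →
            q ^ (-j) * (y * p) * q ^ i ∈ H := by
          intro i j hij
          refine Subgroup.subset_closure ⟨?_, ?_⟩
          · rw [Crd_mem, map_mul, map_mul, Perm.mul_apply, Perm.mul_apply, hij, ← Perm.mul_apply,
              ← map_mul, zpow_neg, inv_mul_cancel, map_one, Perm.one_apply]
          · refine Crd_sp_conj (Crd_sp_scc (h3 y hy (i - j))) (isConj_iff.mpr ⟨q ^ (-j), ?_⟩)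
            group
        have := hmul (y * p) p⁻¹ hyp (hinv p hpc)
        rwa [mul_inv_cancel_right] at this
    · intro i j hij
      rw [map_one, Perm.one_apply] at hij
      have e : q ^ (-j) * 1 * q ^ i = q ^ (-j + i) := by
        rw [mul_one, zpow_add]
      rw [e]
      apply hzp
      rw [zpow_add, map_mul, Perm.mul_apply, hij, ← Perm.mul_apply,
        ← map_mul, zpow_neg, inv_mul_cancel, map_one, Perm.one_apply]
    · intro x y _ _ hx hy
      exact hmul x y hx hy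
    · intro x _ hx
      exact hinv x hx
  have := claim x 0 0 (by
    rw [zpow_zero, map_one, Perm.one_apply]
    exact hx)
  rwa [neg_zero, zpow_zero, one_mul, mul_one] at this

end Pool.Agent.PWR
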