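import Pool.Agent.PWR.Crd

/-! Module Cri. -/

set_option autoImplicit false

namespace Pool.Agent.PWR

open Equiv Pool.Agent.PW
open scoped Classical

variable {g n : ℕ}

/-- The stabilizers are generated by powers of simple curves. -/
def CriGen {X : Type} (ρ : F g n →* Perm X) : Prop :=
  ∀ s : X, Stab ρ s ≤ Subgroup.closure {x | x ∈ Stab ρ s ∧ SimplePower x}

theorem Cri_conj {X : Type} {ρ : F g n →* Perm X} (s : X) (w : F g n)
    (h : Stab ρ s ≤ Subgroup.closure {x | x ∈ Stab ρ s ∧ SimplePower x}) :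
    Stab ρ (ρ w s) ≤ Subgroup.closure {x | x ∈ Stab ρ (ρ w s) ∧ SimplePower x} := by
  intro x hx
  have hmem : ∀ y, y ∈ Stab ρ s → w * y * w⁻¹ ∈ Stab ρ (ρ w s) := by
    intro y hy
    have hy' : ρ y s = s := hy
    rw [Crd_mem, ← Perm.mul_apply, ← map_mul, inv_mul_cancel_right, map_mul, Perm.mul_apply, hy']
  have hx' : w⁻¹ * x * w ∈ Stab ρ s := by
    have hx2 : ρ x (ρ w s) = ρ w s := hx
    rw [Crd_mem, map_mul, map_mul, Perm.mul_apply, Perm.mul_apply, hx2, ← Perm.mul_apply,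
      ← map_mul, inv_mul_cancel, map_one, Perm.one_apply]
  have key : ∀ y ∈ Subgroup.closure {x | x ∈ Stab ρ s ∧ SimplePower x},
      w * y * w⁻¹ ∈ Subgroup.closure {x | x ∈ Stab ρ (ρ w s) ∧ SimplePower x} := by
    intro y hy
    induction hy using Subgroup.closure_induction with
    | mem y hy => exact Subgroup.subset_closure ⟨hmem y hy.1,
        Crd_sp_conj hy.2 (isConj_iff.mpr ⟨w, rfl⟩)⟩
    | one =>
      rw [mul_one, mul_inv_cancel]
      exact Subgroup.one_mem _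
    | mul y z _ _ hy hz =>
      have := Subgroup.mul_mem _ hy hz
      have e : w * y * w⁻¹ * (w * z * w⁻¹) = w * (y * z) * w⁻¹ := by group
      rwa [e] at this
    | inv y _ hy =>
      have := Subgroup.inv_mem _ hy
      have e : (w * y * w⁻¹)⁻¹ = w * y⁻¹ * w⁻¹ := by group
      rwa [e] at this
  have := key _ (h hx')
  have e : w * (w⁻¹ * x * w) * w⁻¹ = x := by group
  rwa [e] at this

theorem Cri_sp_map {x : F g n} (hx : SimplePower x) {ψ : MulAut (F g n)} (hψ : ψ ∈ MCG g n) :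
    SimplePower (ψ x) := by
  obtain ⟨φ, hφ, h0, m, hc⟩ := hx
  refine ⟨ψ * φ, (MCG g n).mul_mem hψ hφ, h0, m, ?_⟩
  have := MonoidHom.map_isConj ψ.toMonoidHom hc
  rw [map_pow] at this
  exact this

theorem Cri_comp {X : Type} {ρ : F g n →* Perm X} {ψ : MulAut (F g n)} (hψ : ψ ∈ MCG g n)
    (h : CriGen (ρ.comp ψ.toMonoidHom)) : CriGen ρ := by
  intro s x hx
  have hx' : ψ⁻¹ x ∈ Stab (ρ.comp ψ.toMonoidHom) s := by
    have hx2 : ρ x s = s := hx
    have e : ψ (ψ⁻¹ x) = x := by simp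
    rw [Crd_mem]
    show ρ (ψ (ψ⁻¹ x)) s = s
    rw [e, hx2]
  have key : ∀ y ∈ Subgroup.closure {x | x ∈ Stab (ρ.comp ψ.toMonoidHom) s ∧ SimplePower x},
      ψ y ∈ Subgroup.closure {x | x ∈ Stab ρ s ∧ SimplePower x} := by
    intro y hy
    induction hy using Subgroup.closure_induction with
    | mem y hy => exact Subgroup.subset_closure ⟨hy.1, Cri_sp_map hy.2 hψ⟩
    | one =>
      rw [map_one]
      exact Subgroup.one_mem _
    | mul y z _ _ hy hz =>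
      rw [map_mul]
      exact Subgroup.mul_mem _ hy hz
    | inv y _ hy =>
      rw [map_inv]
      exact Subgroup.inv_mem _ hy
  have := key _ (h s hx')
  have e : ψ (ψ⁻¹ x) = x := by simp
  rwa [e] at this

theorem Cri_all {X : Type} {ρ : F g n →* Perm X} (htr : ∀ s t : X, ∃ x, ρ x s = t) (s : X)
    (h : Stab ρ s ≤ Subgroup.closure {x | x ∈ Stab ρ s ∧ SimplePower x}) : CriGen ρ := by
  intro t
  obtain ⟨w, rfl⟩ := htr s t
  exact Cri_conj s w h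

theorem thm_Cri (hScc : St_Scc) (hCrd : St_Crd) (hCrn : St_Crn) : St_Cri := by
  intro g n h X hX ρ htr hφ
  suffices hgen : CriGen ρ by
    intro s
    refine le_antisymm ?_ (hgen s)
    rw [Subgroup.closure_le]
    intro x hx
    exact hx.1
  obtain ⟨-, -, -, -, h5, h6⟩ := hScc g n h
  obtain ⟨φ, hφ, hcase⟩ := hφ
  apply Cri_comp hφ
  have htr' : ∀ s t : X, ∃ x, (ρ.comp φ.toMonoidHom) x s = t := by
    intro s t
    obtain ⟨x, hx⟩ := htr s t
    refine ⟨φ⁻¹ x, ?_⟩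
    have e : φ (φ⁻¹ x) = x := by simp
    show ρ (φ (φ⁻¹ x)) s = t
    rw [e, hx]
  have hcase' : Full ((ρ.comp φ.toMonoidHom) (ga ⟨0, h⟩)) ∨
      ∃ s₀, Near s₀ ((ρ.comp φ.toMonoidHom) (ga ⟨0, h⟩)) := hcase
  generalize ρ.comp φ.toMonoidHom = ρ' at htr' hcase' ⊢
  rcases hcase' with hf | ⟨s₀, hs₀⟩
  · exact fun s => hCrd g n h X ρ' hf s
  by_cases hb : ρ' (gb ⟨0, h⟩) s₀ = s₀
  swap
  · exact Cri_all htr' _ (hCrn g n h X ρ' s₀ hs₀ hb)
  by_cases hy : ∃ y ∈ YY g n h, ρ' y s₀ ≠ s₀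
  · obtain ⟨y, hy, hys⟩ := hy
    obtain ⟨ψ, hψ, ha', hb'⟩ := h6 y hy
    apply Cri_comp hψ
    have htr2 : ∀ s t : X, ∃ x, (ρ'.comp ψ.toMonoidHom) x s = t := by
      intro s t
      obtain ⟨x, hx⟩ := htr' s t
      refine ⟨ψ⁻¹ x, ?_⟩
      have e : ψ (ψ⁻¹ x) = x := by simp
      show ρ' (ψ (ψ⁻¹ x)) s = t
      rw [e, hx]
    refine Cri_all htr2 _ (hCrn g n h X (ρ'.comp ψ.toMonoidHom) s₀ ?_ ?_)
    · show Near s₀ (ρ' (ψ (ga ⟨0, h⟩)))
      rw [ha']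
      exact hs₀
    · show ρ' (ψ (gb ⟨0, h⟩)) s₀ ≠ s₀
      rw [hb']
      intro h7
      have a0 : ρ' (ga ⟨0, h⟩) s₀ = s₀ := hs₀.1
      have fixinv : ∀ x : F g n, ρ' x s₀ = s₀ → ρ' x⁻¹ s₀ = s₀ := by
        intro x hx
        have := Crd_inv ρ' x⁻¹ s₀
        rw [inv_inv, hx] at this
        exact this
      have fixmul : ∀ x y : F g n, ρ' x s₀ = s₀ → ρ' y s₀ = s₀ → ρ' (x * y) s₀ = s₀ := by
        intro x y hx hy
        rw [map_mul, Perm.mul_apply, hy, hx]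
      have hd0 : ρ' (cm (ga ⟨0, h⟩) (gb ⟨0, h⟩)) s₀ = s₀ := by
        unfold cm
        exact fixmul _ _ (fixmul _ _ (fixmul _ _ a0 hb) (fixinv _ a0)) (fixinv _ hb)
      apply hys
      have e : y = cm (ga ⟨0, h⟩) (gb ⟨0, h⟩) * (gb ⟨0, h⟩ * ((ga ⟨0, h⟩) * ((gb ⟨0, h⟩)⁻¹ *
          ((gb ⟨0, h⟩ * (ga ⟨0, h⟩)⁻¹ * (gb ⟨0, h⟩)⁻¹ *
          ((cm (ga ⟨0, h⟩) (gb ⟨0, h⟩))⁻¹ * y) * gb ⟨0, h⟩) * (gb ⟨0, h⟩)⁻¹)))) := by
        group
      rw [e]
      exact fixmul _ _ hd0 (fixmul _ _ hb (fixmul _ _ a0 (fixmul _ _ (fixinv _ hb)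
        (fixmul _ _ h7 (fixinv _ hb)))))
  · have hall : ∀ x : F g n, ρ' x s₀ = s₀ := by
      intro x
      have hx : x ∈ Subgroup.closure ({ga ⟨0, h⟩, gb ⟨0, h⟩} ∪ YY g n h) := by
        rw [h5]
        exact Subgroup.mem_top x
      have hle : Subgroup.closure ({ga ⟨0, h⟩, gb ⟨0, h⟩} ∪ YY g n h) ≤ Stab ρ' s₀ := by
        rw [Subgroup.closure_le]
        intro y hy'
        rcases hy' with (rfl | hy') | hy'
        · exact hs₀.1
        · have : y = gb ⟨0, h⟩ := hy'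
          rw [this]
          exact hb
        · by_contra hne
          exact hy ⟨y, hy', hne⟩
      exact hle hx
    have hX1 : ∀ t : X, t = s₀ := by
      intro t
      obtain ⟨x, hx⟩ := htr' s₀ t
      rw [← hx, hall]
    refine fun s => hCrd g n h X ρ' (fun i j => ?_) s
    rw [hX1 i, hX1 j]

end Pool.Agent.PWR
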