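import Pool.Agent.PWR.Crd

/-! Module Crn. -/

set_option autoImplicit false

namespace Pool.Agent.PWR

open Equiv Pool.Agent.PW
open scoped Classical

variable {g n : ℕ}

theorem Crn_zfix {X : Type} {ρ : F g n →* Perm X} {q : F g n} {s : X} (h : ρ q s = s) (i : ℤ) :
    ρ (q ^ i) s = s := by
  rw [map_zpow]
  exact Equiv.Perm.zpow_apply_eq_self_of_apply_eq_self h i

theorem thm_Crn (hScc : St_Scc) : St_Crn := by
  intro g n h X hX ρ s₀ hnear hps x hx
  obtain ⟨h1, ⟨h2, -⟩, h3, h4, h5, -⟩ := hScc g n h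
  set q : F g n := ga ⟨0, h⟩ with hq
  set p : F g n := gb ⟨0, h⟩ with hp
  obtain ⟨hq0, hcyc⟩ := hnear
  set s := ρ p s₀ with hs
  set H := Subgroup.closure {x | x ∈ Stab ρ s ∧ SimplePower x} with hH
  have hpi : ρ p⁻¹ s = s₀ := by
    rw [hs, ← Perm.mul_apply, ← map_mul, inv_mul_cancel, map_one, Perm.one_apply]
  have hex : ∀ t, t ≠ s₀ → ∃ i : ℤ, ρ (q ^ i) s = t := by
    intro t ht
    obtain ⟨i, hi⟩ := hcyc s t hps ht
    refine ⟨i, ?_⟩
    rw [map_zpow]
    exact hi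
  let R : X → F g n → Prop := fun t w =>
    (t = s₀ ∧ w = p⁻¹) ∨ (t ≠ s₀ ∧ ∃ i : ℤ, w = q ^ i ∧ ρ (q ^ i) s = t)
  have hR : ∀ t, ∃ w, R t w := by
    intro t
    by_cases ht : t = s₀
    · exact ⟨p⁻¹, Or.inl ⟨ht, rfl⟩⟩
    · obtain ⟨i, hi⟩ := hex t ht
      exact ⟨q ^ i, Or.inr ⟨ht, i, rfl, hi⟩⟩
  have hRs : ∀ t w, R t w → ρ w s = t := by
    rintro t w (⟨rfl, rfl⟩ | ⟨_, i, rfl, hi⟩)
    · exact hpi
    · exact hi
  have hK : ∀ x t w w', R t w → R (ρ x t) w' → w'⁻¹ * x * w ∈ Stab ρ s := by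
    intro x t w w' h1 h2
    rw [Crd_mem, map_mul, map_mul, Perm.mul_apply, Perm.mul_apply, hRs t w h1, ← hRs _ _ h2,
      ← Perm.mul_apply, ← map_mul, inv_mul_cancel, map_one, Perm.one_apply]
  have hpqK : ∀ i : ℤ, p * q ^ i * p⁻¹ ∈ Stab ρ s := by
    intro i
    rw [Crd_mem, map_mul, map_mul, Perm.mul_apply, Perm.mul_apply, hpi, Crn_zfix hq0]
  have hpqH : ∀ i : ℤ, p * q ^ i * p⁻¹ ∈ H := fun i => Crd_zpow h2 p i (hpqK i)
  have hzp : ∀ i : ℤ, q ^ i ∈ Stab ρ s → q ^ i ∈ H := by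
    intro i hi
    have := Crd_zpow (ρ := ρ) (s := s) h2 1 i (by
      rw [one_mul, inv_one, mul_one]
      exact hi)
    rwa [one_mul, inv_one, mul_one] at this
  let P : F g n → Prop := fun x => ∀ t w w', R t w → R (ρ x t) w' → w'⁻¹ * x * w ∈ H
  have hmul : ∀ x y, P x → P y → P (x * y) := by
    intro x y hx hy t w w' h1 h2
    obtain ⟨u, hu⟩ := hR (ρ y t)
    have a1 := hy t w u h1 hu
    have a2 := hx (ρ y t) u w' hu (by
      rwa [map_mul, Perm.mul_apply] at h2)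
    have := H.mul_mem a2 a1
    have e : w'⁻¹ * x * u * (u⁻¹ * y * w) = w'⁻¹ * (x * y) * w := by
      group
    rwa [e] at this
  have hinv : ∀ x, P x → P x⁻¹ := by
    intro x hx t w w' h1 h2
    have a1 := hx (ρ x⁻¹ t) w' w h2 (by
      rwa [Crd_inv])
    have := H.inv_mem a1
    have e : (w⁻¹ * x * w')⁻¹ = w'⁻¹ * x⁻¹ * w := by
      group
    rwa [e] at this
  have hC0p : ∀ i : ℤ, ρ p (ρ (q ^ i) s) = s₀ → p * p * q ^ i ∈ Stab ρ s ∧ p * p * q ^ i ∈ H := by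
    intro i hi
    have hKK : p * p * q ^ i ∈ Stab ρ s := by
      rw [Crd_mem, map_mul, map_mul, Perm.mul_apply, Perm.mul_apply, hi]
    refine ⟨hKK, ?_⟩
    have h5 : (p * q ^ i) ^ 2 ∈ H := by
      refine Subgroup.subset_closure ⟨?_, Crd_sp_pow (h1 i) 2⟩
      have := (Stab ρ s).mul_mem (hpqK i) hKK
      have e : p * q ^ i * p⁻¹ * (p * p * q ^ i) = (p * q ^ i) ^ 2 := by
        rw [pow_two]
        group
      rwa [e] at this
    have := H.mul_mem (H.inv_mem (hpqH i)) h5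
    have e : (p * q ^ i * p⁻¹)⁻¹ * (p * q ^ i) ^ 2 = p * p * q ^ i := by
      rw [pow_two]
      group
    rwa [e] at this
  have hPp : P p := by
    rintro t w w' (⟨rfl, rfl⟩ | ⟨ht, i, rfl, hi⟩) hw'
    · rcases hw' with ⟨h6, _⟩ | ⟨_, j, rfl, hj⟩
      · exact absurd h6 hps
      · have e : (q ^ j)⁻¹ * p * p⁻¹ = (q ^ j)⁻¹ := by
          group
        rw [e]
        exact H.inv_mem (hzp j hj)
    · have hk := hK p t (q ^ i) w' (Or.inr ⟨ht, i, rfl, hi⟩) hw'
      rcases hw' with ⟨h6, rfl⟩ | ⟨_, j, rfl, hj⟩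
      · rw [inv_inv]
        refine (hC0p i ?_).2
        rw [hi, h6]
      · refine Subgroup.subset_closure ⟨hk, ?_⟩
        refine Crd_sp_conj (Crd_sp_scc (h1 (i - j))) (isConj_iff.mpr ⟨(q ^ j)⁻¹, ?_⟩)
        rw [zpow_sub]
        group
  have hPyp : ∀ y ∈ YY g n h, P (y * p) := by
    intro y hy
    rintro t w w' (⟨rfl, rfl⟩ | ⟨ht, i, rfl, hi⟩) hw'
    · have hk := hK (y * p) t p⁻¹ w' (Or.inl ⟨rfl, rfl⟩) hw'
      rcases hw' with ⟨h6, rfl⟩ | ⟨h6, j, rfl, hj⟩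
      · refine Subgroup.subset_closure ⟨hk, ?_⟩
        have h7 := h3 y hy 0
        rw [zpow_zero, mul_one] at h7
        refine Crd_sp_conj (Crd_sp_scc h7) (isConj_iff.mpr ⟨p, ?_⟩)
        group
      · have hpne : ρ p⁻¹ t ≠ t := by
          intro h8
          apply hps
          have := Crd_inv ρ p t
          rw [h8] at this
          exact this
        obtain ⟨c, hc⟩ := hex _ hpne
        have hc' := hC0p c (by
          rw [hc, Crd_inv])
        have e1 : (p * p * q ^ c) * ((q ^ j)⁻¹ * (y * p) * p⁻¹) * (p * q ^ (c - j + 1) * p⁻¹) =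
            p * (p * q ^ (c - j) * y * p * q ^ (c - j + 1)) * p⁻¹ := by
          rw [zpow_sub]
          group
        have hE : p * (p * q ^ (c - j) * y * p * q ^ (c - j + 1)) * p⁻¹ ∈ H := by
          refine Subgroup.subset_closure ⟨?_, ?_⟩
          · rw [← e1]
            exact (Stab ρ s).mul_mem ((Stab ρ s).mul_mem hc'.1 hk) (hpqK _)
          · exact Crd_sp_conj (Crd_sp_scc (h4 y hy (c - j))) (isConj_iff.mpr ⟨p, rfl⟩)
        rw [← e1] at hE
        have := H.mul_mem (H.mul_mem (H.inv_mem hc'.2) hE) (H.inv_mem (hpqH (c - j + 1)))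
        have e2 : (p * p * q ^ c)⁻¹ * ((p * p * q ^ c) * ((q ^ j)⁻¹ * (y * p) * p⁻¹) *
            (p * q ^ (c - j + 1) * p⁻¹)) * (p * q ^ (c - j + 1) * p⁻¹)⁻¹ =
            (q ^ j)⁻¹ * (y * p) * p⁻¹ := by
          group
        rwa [e2] at this
    · have hk := hK (y * p) t (q ^ i) w' (Or.inr ⟨ht, i, rfl, hi⟩) hw'
      rcases hw' with ⟨h6, rfl⟩ | ⟨_, j, rfl, hj⟩
      · have e1 : (p * q ^ (i - 1) * p⁻¹) * ((p⁻¹)⁻¹ * (y * p) * q ^ i) =
            p * q ^ (i - 1) * y * p * q ^ (i - 1 + 1) := by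
          rw [sub_add_cancel]
          group
        have hE : p * q ^ (i - 1) * y * p * q ^ (i - 1 + 1) ∈ H := by
          refine Subgroup.subset_closure ⟨?_, Crd_sp_scc (h4 y hy (i - 1))⟩
          rw [← e1]
          exact (Stab ρ s).mul_mem (hpqK _) hk
        rw [← e1] at hE
        have := H.mul_mem (H.inv_mem (hpqH (i - 1))) hE
        rwa [inv_mul_cancel_left] at this
      · refine Subgroup.subset_closure ⟨hk, ?_⟩
        refine Crd_sp_conj (Crd_sp_scc (h3 y hy (i - j))) (isConj_iff.mpr ⟨(q ^ j)⁻¹, ?_⟩)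
        rw [zpow_sub]
        group
  have hPq : P q := by
    rintro t w w' (⟨rfl, rfl⟩ | ⟨ht, i, rfl, hi⟩) hw'
    · rcases hw' with ⟨h6, rfl⟩ | ⟨h6, _⟩
      · have := hpqH 1
        rw [zpow_one] at this
        rwa [inv_inv]
      · exact absurd hq0 h6
    · have hk := hK q t (q ^ i) w' (Or.inr ⟨ht, i, rfl, hi⟩) hw'
      rcases hw' with ⟨h6, rfl⟩ | ⟨_, j, rfl, hj⟩
      · exact absurd ((ρ q).injective (h6.trans hq0.symm)) ht
      · have e : (q ^ j)⁻¹ * q * q ^ i = q ^ (-j + 1 + i) := by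
          rw [zpow_add, zpow_add, zpow_one, zpow_neg]
        rw [e] at hk ⊢
        exact hzp _ hk
  have hP1 : P 1 := by
    rintro t w w' (⟨rfl, rfl⟩ | ⟨ht, i, rfl, hi⟩) hw'
    · rw [map_one, Perm.one_apply] at hw'
      rcases hw' with ⟨h6, rfl⟩ | ⟨h6, _⟩
      · have e : (p⁻¹)⁻¹ * 1 * p⁻¹ = 1 := by
          group
        rw [e]
        exact H.one_mem
      · exact absurd rfl h6
    · have hk := hK 1 t (q ^ i) w' (Or.inr ⟨ht, i, rfl, hi⟩) hw'
      rw [map_one, Perm.one_apply] at hw'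
      rcases hw' with ⟨h6, rfl⟩ | ⟨_, j, rfl, hj⟩
      · exact absurd h6 ht
      · have e : (q ^ j)⁻¹ * 1 * q ^ i = q ^ (-j + i) := by
          rw [zpow_add, zpow_neg, mul_one]
        rw [e] at hk ⊢
        exact hzp _ hk
  have hall : ∀ x, P x := by
    intro x
    have hx : x ∈ Subgroup.closure ({q, p} ∪ YY g n h) := by
      rw [h5]
      exact Subgroup.mem_top x
    refine Subgroup.closure_induction (p := fun x _ => P x) ?_ hP1 (fun x y _ _ => hmul x y)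
      (fun x _ => hinv x) hx
    intro y hy
    rcases hy with (rfl | hy) | hy
    · exact hPq
    · have : y = p := hy
      rw [this]
      exact hPp
    · have := hmul (y * p) p⁻¹ (hPyp y hy) (hinv p hPp)
      rwa [mul_inv_cancel_right] at this
  have hR0 : R s (q ^ (0 : ℤ)) := by
    refine Or.inr ⟨hps, 0, rfl, ?_⟩
    rw [zpow_zero, map_one, Perm.one_apply]
  have := hall x s (q ^ (0 : ℤ)) (q ^ (0 : ℤ)) hR0 (by
    have h7 : ρ x s = s := hx
    rw [h7]
    exact hR0)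
  rwa [zpow_zero, inv_one, one_mul, mul_one] at this

end Pool.Agent.PWR
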