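import Pool.Agent.PWR.St

/-! Module Cur. -/

set_option autoImplicit false

namespace Pool.Agent.PWR

open Equiv Pool.Agent.PW
open scoped Classical

theorem thm_Cur (hScc : St_Scc) : St_Cur := by
  intro g n h k l
  obtain ⟨-, ⟨-, h2⟩, h3, -⟩ := hScc g n (by omega)
  have hy : cm (ga ⟨0, by omega⟩) (gb ⟨0, by omega⟩) * mid g n 0 1 * ga ⟨1, h⟩ * gb ⟨1, h⟩ ^ l *
      (mid g n 0 1)⁻¹ ∈ YY g n (by omega) := Or.inl ⟨⟨1, h⟩, l, le_rfl, rfl⟩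
  obtain ⟨φ, hφ, _, hc⟩ := h3 _ hy k
  obtain ⟨ψ, hψ, hc2⟩ := h2 φ hφ
  refine ⟨ψ, hψ, hc2.trans ?_⟩
  have hm : mid g n 0 1 = 1 := seg_zero 1
  rw [hm, mul_one, inv_one, mul_one] at hc
  exact hc

end Pool.Agent.PWR
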