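import Mathlib
import Pool.Agent.PW.Orbit

/-!
Campaign PWR (problem MP_26af1b_gt, Putman-Wieland for random covers).  Definitions.
-/

set_option autoImplicit false

namespace Pool.Agent.PWR

open Equiv Pool.Agent.PW
open scoped Classical

/-! ### Permutations -/

/-- `x` moves all the points in one cycle. -/
def Full {α : Type} (x : Perm α) : Prop := ∀ i j, x.SameCycle i j

/-- `x` fixes `s` and moves the other points in one cycle. -/
def Near {α : Type} (s : α) (x : Perm α) : Prop :=
  x s = s ∧ ∀ i j, i ≠ s → j ≠ s → x.SameCycle i j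

/-- The indicator of `Full`. -/
noncomputable def fl {α : Type} (x : Perm α) : ℝ := if Full x then 1 else 0

/-- The indicator of `Near s`. -/
noncomputable def nr {α : Type} (s : α) (x : Perm α) : ℝ := if Near s x then 1 else 0

section

variable {α : Type} [Fintype α] [DecidableEq α]

/-- The number of `s` with `Near s x`. -/
noncomputable def nrs (x : Perm α) : ℝ := ∑ s, nr s x

/-- The number of `x` such that `x` and `x z` are full cycles. -/
noncomputable def ff (z : Perm α) : ℝ := ∑ x : Perm α, fl x * fl (x * z)

noncomputable def fn (z : Perm α) : ℝ := ∑ x : Perm α, fl x * nrs (x * z)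

noncomputable def nf (z : Perm α) : ℝ := ∑ x : Perm α, nrs x * fl (x * z)

noncomputable def nn (z : Perm α) : ℝ := ∑ x : Perm α, nrs x * nrs (x * z)

/-- The weight of a permutation. -/
noncomputable def gg (x : Perm α) : ℝ := fl x + nrs x

/-- The number of fixed points. -/
noncomputable def fx (x : Perm α) : ℝ := ((Finset.univ.filter fun i => x i = i).card : ℝ)

/-- The matrix of the permutation `z`: the column `j` is the unit vector of `z j`. -/
def PM (z : Perm α) : Matrix α α ℝ := Matrix.of fun i j => if z j = i then 1 else 0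

/-- The matrix `(1 - s) + s P_z`. -/
noncomputable def AM (z : Perm α) (s : ℝ) : Matrix α α ℝ := (1 - s) • (1 : Matrix α α ℝ) + s • PM z

/-- Its determinant. -/
noncomputable def DD (z : Perm α) (s : ℝ) : ℝ := (AM z s).det

/-- The powers of `u`. -/
noncomputable def zp (u : Perm α) : Finset (Perm α) :=
  Finset.univ.filter fun h => h ∈ Subgroup.zpowers u

/-- The average of the number of fixed points of the powers of `u`. -/
noncomputable def avf (u : Perm α) : ℝ := (∑ h ∈ zp u, fx h) / ((zp u).card : ℝ)

end

/-- The bound for the integral of the determinant; `m` is the number of moved points. -/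
noncomputable def psi (m : ℕ) : ℝ := if m = 0 then 1 else min 1 (2 / m + 50 / (m : ℝ) ^ 2)

/-- The permutation of the curve with the parameters `h`, `h'`. -/
def curve {α : Type} (a0 b0 a1 h h' : Perm α) : Perm α :=
  (a0 * b0 * a0⁻¹ * b0⁻¹) * a1 * h' * b0 * h

/-! ### Covers -/

variable {g n : ℕ}

/-- The element is freely homotopic to a nonseparating simple closed curve. -/
def Scc (x : F g n) : Prop := ∃ φ ∈ MCG g n, ∃ h : 0 < g, IsConj (φ (gb ⟨0, h⟩)) x

/-- Generators of the complement of the first handle: `y b_0` is simple. -/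
def YY (g n : ℕ) (h : 0 < g) : Set (F g n) :=
  {y | (∃ (j : Fin g) (k : ℤ), 1 ≤ (j : ℕ) ∧
      y = cm (ga ⟨0, h⟩) (gb ⟨0, h⟩) * mid g n 0 j * ga j * gb j ^ k * (mid g n 0 j)⁻¹) ∨
    (∃ j : Fin n, y = cm (ga ⟨0, h⟩) (gb ⟨0, h⟩) * midc g n 0 j * gc j * (midc g n 0 j)⁻¹)}

/-- The subgroup of the cover with the monodromy `ρ` and the sheet `s`. -/
def Stab {X : Type} (ρ : F g n →* Perm X) (s : X) : Subgroup (F g n) :=
  (MulAction.stabilizer (Perm X) s).comap ρ

/-- The element is freely homotopic to a power of a nonseparating simple closed curve. -/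
def SimplePower (x : F g n) : Prop :=
  ∃ φ ∈ MCG g n, ∃ (h : 0 < g) (m : ℕ), IsConj (φ (gb ⟨0, h⟩) ^ m) x

/-- The conclusion: the cover is connected, its fundamental group is generated by powers of
nonseparating simple closed curves, and it has the property of Putman and Wieland. -/
structure Fine {X : Type} (ρ : F g n →* Perm X) : Prop where
  trans : ∀ s t : X, ∃ x, ρ x s = t
  gen : ∀ s : X, Subgroup.closure {x | x ∈ Stab ρ s ∧ SimplePower x} = Stab ρ s
  pw : ∀ (s : X) (f : Stab ρ s → ℚ), IsClass (Stab ρ s) f → f ≠ 0 → (orbit (Stab ρ s) f).Infinite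

end Pool.Agent.PWR
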