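import Pool.Agent.PWR.St
import Pool.Agent.RRC.DF

/-!
Campaign PWR, module Dti: a determinant identity, integrated.
-/

set_option autoImplicit false

namespace Pool.Agent.PWR

open Equiv Matrix

section

variable {α : Type} [Fintype α] [DecidableEq α]

omit [Fintype α] in
lemma Dti_apply (z : Perm α) (s : ℝ) (i j : α) : AM z s i j =
    (1 - s) * (if i = j then 1 else 0) + s * (if z j = i then 1 else 0) := by
  simp only [AM, PM, Matrix.add_apply, Matrix.smul_apply, Matrix.one_apply, Matrix.of_apply,
    smul_eq_mul]

/-- the set of the zeros of `DD w` -/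
lemma Dti_fin (w : Perm α) : {s : ℝ | DD w s = 0}.Finite := by
  set M : Matrix α α (Polynomial ℝ) := Matrix.of fun i j =>
    (1 - Polynomial.X) * Polynomial.C (if i = j then 1 else 0) +
      Polynomial.X * Polynomial.C (if w j = i then 1 else 0) with hM
  have h1 : ∀ s, Polynomial.eval s M.det = DD w s := by
    intro s
    have h2 := (Polynomial.evalRingHom s).map_det M
    rw [Polynomial.coe_evalRingHom] at h2
    rw [h2]
    unfold DD
    congr 1
    ext i j
    rw [Dti_apply, RingHom.mapMatrix_apply, Matrix.map_apply, hM, Matrix.of_apply,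
      Polynomial.coe_evalRingHom]
    simp only [Polynomial.eval_add, Polynomial.eval_mul, Polynomial.eval_sub,
      Polynomial.eval_one, Polynomial.eval_X, Polynomial.eval_C]
  have h3 : M.det ≠ 0 := by
    intro h
    have h4 := h1 0
    rw [h, Polynomial.eval_zero] at h4
    have h5 : AM w 0 = 1 := by
      unfold AM
      simp
    unfold DD at h4
    rw [h5, Matrix.det_one] at h4
    exact zero_ne_one h4
  refine (M.det.roots.toFinset.finite_toSet).subset fun s hs => ?_
  rw [Finset.mem_coe, Multiset.mem_toFinset, Polynomial.mem_roots h3, Polynomial.IsRoot.def, h1]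
  exact hs

lemma Dti_update (w : Perm α) (q t : α) (s : ℝ) (h : IsUnit (AM w s).det) :
    DD (w * swap q t) s = DD w s * (1 + s * (((AM w s)⁻¹ q (w t) - (AM w s)⁻¹ q (w q)) -
      ((AM w s)⁻¹ t (w t) - (AM w s)⁻¹ t (w q)))) := by
  set C := (AM w s)⁻¹ with hC
  set u : α → ℝ := fun i => s * ((if w t = i then 1 else 0) - (if w q = i then 1 else 0)) with hu
  set v : α → ℝ := fun j => (if j = q then 1 else 0) - (if j = t then 1 else 0) with hv
  have h1 : AM (w * swap q t) s = AM w s + replicateCol Unit u * replicateRow Unit v := by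
    ext i j
    rw [Matrix.add_apply, Dti_apply, Dti_apply, Matrix.mul_apply, Fintype.sum_unique]
    show _ = _ + u i * v j
    rw [hu, hv, Perm.mul_apply]
    by_cases hjq : j = q
    · subst hjq
      rw [swap_apply_left]
      by_cases hjt : j = t
      · subst hjt
        simp
      · simp only [if_true, if_neg hjt]
        ring
    · by_cases hjt : j = t
      · subst hjt
        rw [swap_apply_right]
        simp only [if_true, if_neg hjq]
        ring
      · rw [swap_apply_of_ne_of_ne hjq hjt]
        simp only [if_neg hjq, if_neg hjt]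
        ring
  unfold DD
  rw [h1, det_add_replicateCol_mul_replicateRow h, ← hC]
  congr 1
  rw [Matrix.det_unique, Matrix.add_apply, Matrix.one_apply_eq]
  congr 1
  rw [Matrix.mul_apply]
  have h2 : ∀ k, (replicateRow Unit v * C) default k = C q k - C t k := by
    intro k
    rw [Matrix.mul_apply]
    show ∑ i, v i * C i k = _
    simp only [hv, sub_mul, ite_mul, one_mul, zero_mul, Finset.sum_sub_distrib,
      Finset.sum_ite_eq', Finset.mem_univ, if_true]
  simp only [h2]
  show ∑ k, (C q k - C t k) * u k = _
  have h3 : ∀ k, (C q k - C t k) * u k = (if w t = k then s * (C q k - C t k) else 0) -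
      (if w q = k then s * (C q k - C t k) else 0) := by
    intro k
    rw [hu]
    show (C q k - C t k) * (s * ((if w t = k then 1 else 0) - (if w q = k then 1 else 0))) = _
    split_ifs <;> ring
  simp only [h3, Finset.sum_sub_distrib, Finset.sum_ite_eq, Finset.mem_univ, if_true]
  ring

lemma Dti_Z (w : Perm α) (q : α) (s : ℝ) (h : IsUnit (AM w s).det) :
    DD (optionCongr w * swap none (some q)) s =
      DD w s * ((1 - s) - s * (AM w s)⁻¹ q (w q)) := by
  set Z := AM (optionCongr w * swap none (some q)) s with hZ
  have hinv : Invertible (AM w s) := Matrix.invertibleOfIsUnitDet _ h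
  set B : Matrix α PUnit.{1} ℝ := Matrix.of fun i _ => s * (if w q = i then 1 else 0) with hB
  set R : Matrix PUnit.{1} α ℝ := Matrix.of fun _ j => if q = j then 1 else 0 with hR
  set E : Matrix PUnit.{1} PUnit.{1} ℝ := Matrix.of fun _ _ => 1 - s with hE
  have h1 : (Z.updateCol (some q) fun k => Z k (some q) + Z k none).det = Z.det :=
    Matrix.det_updateCol_add_self Z (by simp)
  have h2 : (Z.updateCol (some q) fun k => Z k (some q) + Z k none).submatrix
      (optionEquivSumPUnit α).symm (optionEquivSumPUnit α).symm =
      fromBlocks (AM w s) B R E := by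
    ext i j
    rcases i with i | i <;> rcases j with j | j
    · rw [Matrix.submatrix_apply, fromBlocks_apply₁₁, Dti_apply]
      show (Z.updateCol (some q) fun k => Z k (some q) + Z k none) (some i) (some j) = _
      by_cases hj : j = q
      · subst hj
        rw [Matrix.updateCol_self, hZ, Dti_apply, Dti_apply]
        simp
      · rw [Matrix.updateCol_ne (by simpa using hj), hZ, Dti_apply, Perm.mul_apply,
          swap_apply_of_ne_of_ne (by simp) (by simpa using hj)]
        simp
    · rw [Matrix.submatrix_apply, fromBlocks_apply₁₂]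
      show (Z.updateCol (some q) fun k => Z k (some q) + Z k none) (some i) none = _
      rw [Matrix.updateCol_ne (by simp), hZ, Dti_apply, Perm.mul_apply, swap_apply_left]
      simp [hB]
    · rw [Matrix.submatrix_apply, fromBlocks_apply₂₁]
      show (Z.updateCol (some q) fun k => Z k (some q) + Z k none) none (some j) = _
      by_cases hj : j = q
      · subst hj
        rw [Matrix.updateCol_self, hZ, Dti_apply, Dti_apply]
        simp [hR]
      · rw [Matrix.updateCol_ne (by simpa using hj), hZ, Dti_apply, Perm.mul_apply,
          swap_apply_of_ne_of_ne (by simp) (by simpa using hj)]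
        have hj' : ¬ q = j := fun h => hj h.symm
        simp [hR, hj']
    · rw [Matrix.submatrix_apply, fromBlocks_apply₂₂]
      show (Z.updateCol (some q) fun k => Z k (some q) + Z k none) none none = _
      rw [Matrix.updateCol_ne (by simp), hZ, Dti_apply, Perm.mul_apply, swap_apply_left]
      simp [hE]
  have h3 : Z.det = (fromBlocks (AM w s) B R E).det := by
    rw [← h1, ← h2, Matrix.det_submatrix_equiv_self]
  show Z.det = (AM w s).det * _
  rw [h3, det_fromBlocks₁₁]
  congr 1
  rw [Matrix.det_unique, Matrix.sub_apply, invOf_eq_nonsing_inv]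
  congr 1
  rw [Matrix.mul_apply]
  have h4 : ∀ k, (R * (AM w s)⁻¹) default k = (AM w s)⁻¹ q k := by
    intro k
    rw [Matrix.mul_apply]
    simp [hR]
  simp only [h4, hB, Matrix.of_apply]
  have h5 : ∀ k, (AM w s)⁻¹ q k * (s * (if w q = k then 1 else 0)) =
      if w q = k then s * (AM w s)⁻¹ q k else 0 := by
    intro k
    split_ifs <;> ring
  simp only [h5, Finset.sum_ite_eq, Finset.mem_univ, if_true]

/-- the derivative of `DD w` -/
noncomputable def Dti_der (w : Perm α) (s : ℝ) : ℝ :=
  Matrix.trace ((AM w s).adjugate * (PM w - 1))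

lemma Dti_hasDeriv (w : Perm α) (s : ℝ) : HasDerivAt (DD w) (Dti_der w s) s := by
  refine Pool.Agent.RRC.DF.jacobi (A := fun s => AM w s) fun i j => ?_
  have h1 : (fun q : ℝ => AM w q i j) = fun q : ℝ =>
      (1 - q) * (1 : Matrix α α ℝ) i j + q * PM w i j := by
    funext q
    simp [AM]
  show HasDerivAt (fun q : ℝ => AM w q i j) ((PM w - 1) i j) s
  rw [h1, Matrix.sub_apply]
  have h2 := (((hasDerivAt_const s (1 : ℝ)).sub (hasDerivAt_id s)).mul_const
    ((1 : Matrix α α ℝ) i j)).add ((hasDerivAt_id s).mul_const (PM w i j))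
  refine h2.congr_deriv ?_
  ring

lemma Dti_core (w : Perm α) (q : α) (s : ℝ) (hD : DD w s ≠ 0) :
    ∑ t ∈ Finset.univ.erase q, DD (w * swap q t) s =
      Fintype.card α * DD (optionCongr w * swap none (some q)) s -
        ((1 - 2 * s) * DD w s + s * (1 - s) * Dti_der w s) := by
  have h : IsUnit (AM w s).det := isUnit_iff_ne_zero.2 hD
  set C := (AM w s)⁻¹ with hC
  have hCA : C * AM w s = 1 := Matrix.nonsing_inv_mul _ h
  have hAC : AM w s * C = 1 := Matrix.mul_nonsing_inv _ h
  -- row and column sums
  have hA1 : ∀ i, ∑ j, AM w s i j = 1 := by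
    intro i
    simp only [Dti_apply, Finset.sum_add_distrib, ← Finset.mul_sum, Finset.sum_ite_eq,
      Finset.mem_univ, if_true]
    have h1 : ∑ j, (if w j = i then (1 : ℝ) else 0) = 1 := by
      rw [Finset.sum_eq_single (w.symm i)]
      · simp
      · intro j _ hj
        rw [if_neg]
        intro h2
        apply hj
        rw [← h2, Equiv.symm_apply_apply]
      · intro h2
        exact absurd (Finset.mem_univ _) h2
    rw [h1]
    ring
  have hA2 : ∀ j, ∑ i, AM w s i j = 1 := by
    intro j
    simp only [Dti_apply, Finset.sum_add_distrib, ← Finset.mul_sum, Finset.sum_ite_eq,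
      Finset.sum_ite_eq', Finset.mem_univ, if_true]
    ring
  have hC1 : ∀ i, ∑ j, C i j = 1 := by
    intro i
    have h1 : ∑ j, (C * AM w s) i j = ∑ k, C i k := by
      simp only [Matrix.mul_apply]
      rw [Finset.sum_comm]
      refine Finset.sum_congr rfl fun k _ => ?_
      rw [← Finset.mul_sum, hA1, mul_one]
    rw [← h1, hCA]
    simp [Matrix.one_apply]
  have hC2 : ∀ j, ∑ i, C i j = 1 := by
    intro j
    have h1 : ∑ i, (AM w s * C) i j = ∑ k, C k j := by
      simp only [Matrix.mul_apply]
      rw [Finset.sum_comm]
      refine Finset.sum_congr rfl fun k _ => ?_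
      rw [← Finset.sum_mul, hA2, one_mul]
    rw [← h1, hAC]
    simp [Matrix.one_apply]
  set v := ∑ t, C t (w t) with hv
  set τ := ∑ t, C t t with hτ
  -- the trace of `C A`
  have hV : (1 - s) * τ + s * v = Fintype.card α := by
    have h1 : ∑ t, (C * AM w s) t t = Fintype.card α := by
      rw [hCA]
      simp
    rw [← h1, hτ, hv, Finset.mul_sum, Finset.mul_sum, ← Finset.sum_add_distrib]
    refine Finset.sum_congr rfl fun t _ => ?_
    rw [Matrix.mul_apply]
    have h2 : ∀ k, C t k * AM w s k t = (if k = t then (1 - s) * C t k else 0) +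
        (if w t = k then s * C t k else 0) := by
      intro k
      rw [Dti_apply]
      split_ifs <;> ring
    simp only [h2, Finset.sum_add_distrib, Finset.sum_ite_eq, Finset.sum_ite_eq',
      Finset.mem_univ, if_true]
  -- the derivative
  have hder : Dti_der w s = DD w s * (v - τ) := by
    have h1 : (AM w s).adjugate = (AM w s).det • C := by
      rw [hC, Matrix.inv_def, smul_smul, Ring.mul_inverse_cancel _ h, one_smul]
    unfold Dti_der
    rw [h1, Matrix.smul_mul, Matrix.trace_smul, smul_eq_mul, Matrix.mul_sub, Matrix.trace_sub,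
      Matrix.mul_one]
    show (AM w s).det * _ = (AM w s).det * _
    congr 2
    unfold Matrix.trace
    refine Finset.sum_congr rfl fun t _ => ?_
    rw [Matrix.diag_apply, Matrix.mul_apply]
    simp only [PM, Matrix.of_apply, mul_ite, mul_one, mul_zero, Finset.sum_ite_eq,
      Finset.mem_univ, if_true]
  -- the sum over all `t`
  have hsum : ∑ t, DD (w * swap q t) s = DD w s * (Fintype.card α +
      s * (2 - Fintype.card α * C q (w q) - v)) := by
    simp only [Dti_update w q _ s h]
    rw [← Finset.mul_sum]
    congr 1
    rw [Finset.sum_add_distrib, ← Finset.mul_sum]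
    simp only [Finset.sum_sub_distrib, Finset.sum_const, Finset.card_univ, nsmul_eq_mul,
      mul_one]
    have h1 : ∑ t, C q (w t) = 1 := by
      rw [Equiv.sum_comp w (fun k => C q k)]
      exact hC1 q
    rw [← hC, h1, hC2, ← hv]
    ring
  have hq : DD (w * swap q q) s = DD w s := by
    rw [swap_self]
    rfl
  have hsplit := Finset.add_sum_erase Finset.univ (fun t => DD (w * swap q t) s)
    (Finset.mem_univ q)
  simp only [hq] at hsplit
  rw [hsum] at hsplit
  rw [Dti_Z w q s h, hder, ← hC]
  have h9 : ∑ t ∈ Finset.univ.erase q, DD (w * swap q t) s = DD w s * (Fintype.card α +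
      s * (2 - Fintype.card α * C q (w q) - v)) - DD w s := by linarith
  rw [h9]
  linear_combination (-(DD w s) * s) * hV

lemma Dti_cont (w : Perm α) : Continuous (DD w) :=
  continuous_iff_continuousAt.2 fun s => (Dti_hasDeriv w s).continuousAt

lemma Dti_der_cont (w : Perm α) : Continuous (Dti_der w) := by
  have h1 : Continuous fun s : ℝ => AM w s := by
    unfold AM
    fun_prop
  unfold Dti_der
  exact ((Continuous.matrix_adjugate h1).matrix_mul continuous_const).matrix_trace

end

theorem thm_Dti : St_Dti := by
  intro α _ _ w q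
  have hid : ∀ s : ℝ, ∑ t ∈ Finset.univ.erase q, DD (w * swap q t) s =
      Fintype.card α * DD (optionCongr w * swap none (some q)) s -
        ((1 - 2 * s) * DD w s + s * (1 - s) * Dti_der w s) := by
    have h1 : Dense ({s : ℝ | DD w s = 0}ᶜ) := (Dti_fin w).countable.dense_compl ℝ
    have h2 : Continuous fun s : ℝ => ∑ t ∈ Finset.univ.erase q, DD (w * swap q t) s :=
      continuous_finsetSum _ fun t _ => Dti_cont _
    have h3 : Continuous fun s : ℝ =>
        Fintype.card α * DD (optionCongr w * swap none (some q)) s -
        ((1 - 2 * s) * DD w s + s * (1 - s) * Dti_der w s) := by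
      have e1 := Dti_cont (optionCongr w * swap none (some q))
      have e2 := Dti_cont w
      have e3 := Dti_der_cont w
      fun_prop
    exact congrFun (Continuous.ext_on h1 h2 h3 fun s hs => Dti_core w q s hs)
  have hF : ∀ s ∈ Set.uIcc (0 : ℝ) 1, HasDerivAt (fun s => s * (1 - s) * DD w s)
      ((1 - 2 * s) * DD w s + s * (1 - s) * Dti_der w s) s := by
    intro s _
    have h1 := ((hasDerivAt_id s).mul ((hasDerivAt_const s (1 : ℝ)).sub
      (hasDerivAt_id s))).mul (Dti_hasDeriv w s)
    refine h1.congr_deriv ?_
    simp only [Pi.mul_apply, Pi.sub_apply, id]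
    ring
  have hFc : Continuous fun s : ℝ => (1 - 2 * s) * DD w s + s * (1 - s) * Dti_der w s := by
    have e2 := Dti_cont w
    have e3 := Dti_der_cont w
    fun_prop
  have hint := intervalIntegral.integral_eq_sub_of_hasDerivAt hF (hFc.intervalIntegrable _ _)
  simp only [hid]
  rw [intervalIntegral.integral_sub, hint, intervalIntegral.integral_const_mul]
  · ring
  · exact ((Dti_cont _).const_mul _).intervalIntegrable _ _
  · exact hFc.intervalIntegrable _ _

end Pool.Agent.PWR
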