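import Pool.Agent.PWR.St

/-! Module Dto. -/

set_option autoImplicit false

namespace Pool.Agent.PWR

open Equiv Pool.Agent.PW
open scoped Classical

theorem Dto_block {α : Type} [Fintype α] [DecidableEq α] (M : Matrix (Option α) (Option α) ℝ) :
    M.det = (Matrix.fromBlocks (Matrix.of fun i j : α => M (some i) (some j))
      (Matrix.of fun (i : α) (_ : PUnit.{1}) => M (some i) none)
      (Matrix.of fun (_ : PUnit.{1}) (j : α) => M none (some j))
      (Matrix.of fun (_ : PUnit.{1}) (_ : PUnit.{1}) => M none none)).det := by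
  rw [← Matrix.det_submatrix_equiv_self (Equiv.optionEquivSumPUnit.{0} α).symm M]
  congr 1
  ext i j
  rcases i with i | i <;> rcases j with j | j <;> rfl

theorem Dto_one {α : Type} [Fintype α] [DecidableEq α] (w : Perm α) (s : ℝ) :
    DD (optionCongr w) s = DD w s := by
  unfold DD
  rw [Dto_block]
  have e1 : (Matrix.of fun i j : α => AM (optionCongr w) s (some i) (some j)) = AM w s := by
    ext i j
    simp [AM, PM, Matrix.one_apply]
  have e2 : (Matrix.of fun (_ : PUnit.{1}) (j : α) => AM (optionCongr w) s none (some j)) = 0 := by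
    ext i j
    simp [AM, PM, Matrix.one_apply]
  have e3 : (Matrix.of fun (_ : PUnit.{1}) (_ : PUnit.{1}) => AM (optionCongr w) s none none) = 1 := by
    ext i j
    simp [AM, PM, Matrix.one_apply]
  rw [e1, e2, e3, Matrix.det_fromBlocks_zero₂₁, Matrix.det_one, mul_one]

theorem thm_Dto : St_Dto := by
  intro α _ _ w s
  exact Dto_one w s

end Pool.Agent.PWR
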