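import Pool.Agent.PWR.St

/-! Module Fin. -/

set_option autoImplicit false

namespace Pool.Agent.PWR

open Equiv Pool.Agent.PW
open scoped Classical

variable {g n : ℕ}

theorem Fin_ai {α : Type} (c : Perm α) (x : α) : c (c⁻¹ x) = x := by
  rw [← Perm.mul_apply, mul_inv_cancel, Perm.one_apply]

theorem Fin_ia {α : Type} (c : Perm α) (x : α) : c⁻¹ (c x) = x := by
  rw [← Perm.mul_apply, inv_mul_cancel, Perm.one_apply]

theorem Fin_full_conj {α : Type} {x y : Perm α} (h : IsConj x y) (hx : Full x) : Full y := by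
  obtain ⟨c, rfl⟩ := isConj_iff.mp h
  intro i j
  have := (hx (c⁻¹ i) (c⁻¹ j)).conj (g := c)
  rwa [Fin_ai, Fin_ai] at this

theorem Fin_near_conj {α : Type} {x y : Perm α} (h : IsConj x y) {s : α} (hx : Near s x) :
    ∃ t, Near t y := by
  obtain ⟨c, rfl⟩ := isConj_iff.mp h
  refine ⟨c s, ?_, fun i j hi hj => ?_⟩
  · rw [Perm.mul_apply, Perm.mul_apply, Fin_ia, hx.1]
  · have := (hx.2 (c⁻¹ i) (c⁻¹ j) (fun h => hi (by rw [← h, Fin_ai]))
      (fun h => hj (by rw [← h, Fin_ai]))).conj (g := c)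
    rwa [Fin_ai, Fin_ai] at this

theorem Fin_gg {α : Type} [Fintype α] [DecidableEq α] {x : Perm α} (h : gg x ≠ 0) :
    Full x ∨ ∃ s, Near s x := by
  by_contra hcon
  rw [not_or, not_exists] at hcon
  apply h
  unfold gg fl nrs nr
  rw [if_neg hcon.1, zero_add]
  exact Finset.sum_eq_zero fun s _ => if_neg (hcon.2 s)

theorem Fin_finiteIndex {X : Type} [Finite X] (ρ : F g n →* Perm X) (s : X) :
    (Stab ρ s).FiniteIndex := by
  have h1 : ρ.ker.FiniteIndex := Subgroup.finiteIndex_ker ρ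
  refine Subgroup.finiteIndex_of_le (H := ρ.ker) ?_
  intro x hx
  show ρ x s = s
  rw [MonoidHom.mem_ker] at hx
  rw [hx, Perm.one_apply]

theorem Fin_fine (hCri : St_Cri) (hKil : St_Kil) (hCur : St_Cur) (h : 1 < g) {X : Type} [Fintype X]
    [DecidableEq X] (ρ : F g n →* Perm X) (hR : ρ (bdry g n) = 1)
    (htr : ∀ i j : X, ∃ x ∈ Subgroup.closure {ρ (ga ⟨0, by omega⟩), ρ (gb ⟨0, by omega⟩)}, x i = j)
    (hcv : ∃ k ∈ Subgroup.zpowers (ρ (ga ⟨0, by omega⟩)), ∃ k' ∈ Subgroup.zpowers (ρ (gb ⟨1, h⟩)),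
      gg (curve (ρ (ga ⟨0, by omega⟩)) (ρ (gb ⟨0, by omega⟩)) (ρ (ga ⟨1, h⟩)) k k') ≠ 0) :
    Fine ρ := by
  have htr' : ∀ s t : X, ∃ x, ρ x s = t := by
    intro s t
    obtain ⟨x, hx, hxs⟩ := htr s t
    have hle : Subgroup.closure {ρ (ga ⟨0, by omega⟩), ρ (gb ⟨0, by omega⟩)} ≤ ρ.range := by
      rw [Subgroup.closure_le]
      rintro y (rfl | hy)
      · exact ⟨_, rfl⟩
      · have : y = ρ (gb ⟨0, by omega⟩) := hy
        rw [this]
        exact ⟨_, rfl⟩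
    obtain ⟨w, rfl⟩ := hle hx
    exact ⟨w, hxs⟩
  have hgen : ∀ s : X, Subgroup.closure {x | x ∈ Stab ρ s ∧ SimplePower x} = Stab ρ s := by
    apply hCri g n (by omega) X ρ htr'
    obtain ⟨k, hk, k', hk', hne⟩ := hcv
    obtain ⟨a, rfl⟩ := Subgroup.mem_zpowers_iff.mp hk
    obtain ⟨b, rfl⟩ := Subgroup.mem_zpowers_iff.mp hk'
    obtain ⟨φ, hφ, hc⟩ := hCur g n h a b
    have hc' := MonoidHom.map_isConj ρ hc
    have e : ρ (cm (ga ⟨0, by omega⟩) (gb ⟨0, by omega⟩) * ga ⟨1, h⟩ * gb ⟨1, h⟩ ^ b *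
        gb ⟨0, by omega⟩ * ga ⟨0, by omega⟩ ^ a) =
        curve (ρ (ga ⟨0, by omega⟩)) (ρ (gb ⟨0, by omega⟩)) (ρ (ga ⟨1, h⟩))
          (ρ (ga ⟨0, by omega⟩) ^ a) (ρ (gb ⟨1, h⟩) ^ b) := by
      simp only [curve, cm, map_mul, map_inv, map_zpow]
    rw [e] at hc'
    refine ⟨φ, hφ, ?_⟩
    rcases Fin_gg hne with hf | ⟨s, hs⟩
    · exact Or.inl (Fin_full_conj hc'.symm hf)
    · exact Or.inr (Fin_near_conj hc'.symm hs)
  refine ⟨htr', hgen, fun s f hf h0 => ?_⟩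
  have hfi := Fin_finiteIndex ρ s
  refine hKil g n (Stab ρ s) ?_ (le_of_eq (hgen s).symm) f hf h0
  intro w
  show ρ (w * bdry g n * w⁻¹) s = s
  rw [map_mul, map_mul, hR, mul_one, ← map_mul, mul_inv_cancel, map_one, Perm.one_apply]

instance Fin_gen_finite : Finite (Gen g n) := by
  refine Finite.of_injective (β := (Fin g ⊕ Fin g) ⊕ Fin n)
    (fun x => match x with
      | Gen.a i => Sum.inl (Sum.inl i)
      | Gen.b i => Sum.inl (Sum.inr i)
      | Gen.c j => Sum.inr j) ?_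
  intro x y hxy
  cases x <;> cases y <;> simp_all

instance Fin_hom_finite (d : ℕ) : Finite (F g n →* Perm (Fin d)) :=
  Finite.of_equiv _ (FreeGroup.lift (α := Gen g n) (β := Perm (Fin d)))

theorem Fin_log (d : ℕ) (hd : 2 ≤ d) : 1 ≤ 3 * Real.log d ^ 2 := by
  have h1 : Real.log 2 ≤ Real.log d := Real.log_le_log (by norm_num) (by exact_mod_cast hd)
  have h2 := Real.log_two_gt_d9
  nlinarith

theorem Fin_proj {β : Type} [Fintype β] (Q : β × β → Prop) :
    ((Finset.univ : Finset (β × β × β × β)).filter fun v => Q (v.1, v.2.1)).card ≤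
      ((Finset.univ : Finset (β × β)).filter Q).card * (Fintype.card β) ^ 2 := by
  have h1 : (((Finset.univ : Finset (β × β)).filter Q) ×ˢ
      (Finset.univ : Finset (β × β))).card =
      ((Finset.univ : Finset (β × β)).filter Q).card * (Fintype.card β) ^ 2 := by
    rw [Finset.card_product, Finset.card_univ, Fintype.card_prod, pow_two]
  rw [← h1]
  refine Finset.card_le_card_of_injOn (fun v => ((v.1, v.2.1), (v.2.2.1, v.2.2.2))) ?_ ?_
  · intro v hv
    simp only [Finset.coe_filter, Finset.mem_univ, true_and, Set.mem_ofPred_eq] at hv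
    simp [hv]
  · rintro ⟨a, b, c, e⟩ _ ⟨a', b', c', e'⟩ _ hxy
    simp only [Prod.mk.injEq] at hxy
    obtain ⟨⟨rfl, rfl⟩, rfl, rfl⟩ := hxy
    rfl

theorem thm_Fin (hSec : St_Sec) (hTra : St_Tra) (hCri : St_Cri) (hKil : St_Kil) (hCur : St_Cur)
    (hHom : St_Hom) : St_Fin := by
  obtain ⟨C1, hC1, hS⟩ := hSec
  obtain ⟨C2, hC2, hT⟩ := hTra
  refine ⟨C1 + C2 * 3, fun g n d hg hn hd => ?_⟩
  have hS' := hS (Fin d) (by rwa [Fintype.card_fin])
  have hT' := hT (Fin d) (by rwa [Fintype.card_fin])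
  rw [Fintype.card_fin] at hS' hT'
  have h0 : 0 < g := by omega
  have h1 : 1 < g := by omega
  set A : Set (F g n →* Perm (Fin d)) := {ρ | ρ (bdry g n) = 1 ∧
    (∀ h ∈ Subgroup.zpowers (ρ (ga ⟨0, h0⟩)), ∀ h' ∈ Subgroup.zpowers (ρ (gb ⟨1, h1⟩)),
      gg (curve (ρ (ga ⟨0, h0⟩)) (ρ (gb ⟨0, h0⟩)) (ρ (ga ⟨1, h1⟩)) h h') = 0)} with hA
  set B : Set (F g n →* Perm (Fin d)) := {ρ | ρ (bdry g n) = 1 ∧
    ¬ ∀ i j : Fin d, ∃ x ∈ Subgroup.closure {ρ (ga ⟨0, h0⟩), ρ (gb ⟨0, h0⟩)}, x i = j} with hB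
  set N := Nat.card {ρ : F g n →* Perm (Fin d) // ρ (bdry g n) = 1} with hN
  have hle : Nat.card {ρ : F g n →* Perm (Fin d) // ρ (bdry g n) = 1 ∧ ¬ Fine ρ} ≤
      Nat.card A + Nat.card B := by
    have e1 : Nat.card {ρ : F g n →* Perm (Fin d) // ρ (bdry g n) = 1 ∧ ¬ Fine ρ} =
        ({ρ : F g n →* Perm (Fin d) | ρ (bdry g n) = 1 ∧ ¬ Fine ρ}).ncard := Nat.card_coe_set_eq _
    rw [e1, Nat.card_coe_set_eq, Nat.card_coe_set_eq]
    refine (Set.ncard_le_ncard ?_ (Set.toFinite _)).trans (Set.ncard_union_le A B)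
    rintro ρ ⟨hR, hnf⟩
    by_contra hcon
    rw [Set.mem_union, not_or] at hcon
    apply hnf
    refine Fin_fine hCri hKil hCur h1 ρ hR ?_ ?_
    · by_contra h2
      exact hcon.2 ⟨hR, h2⟩
    · by_contra h2
      apply hcon.1
      refine ⟨hR, fun h hh h' hh' => ?_⟩
      by_contra h3
      exact h2 ⟨h, hh, h', hh', h3⟩
  have hfac : (0 : ℝ) < (d.factorial : ℝ) := by exact_mod_cast d.factorial_pos
  have hcardP : Fintype.card (Perm (Fin d)) = d.factorial := by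
    rw [Fintype.card_perm, Fintype.card_fin]
  have hAle : (Nat.card A : ℝ) ≤ C1 * Real.log d ^ 2 / d * N := by
    have e := hHom g n h1 hn d (fun v => ∀ h ∈ Subgroup.zpowers v.1,
      ∀ h' ∈ Subgroup.zpowers v.2.2.2, gg (curve v.1 v.2.1 v.2.2.1 h h') = 0)
    have e' : (Nat.card A : ℝ) * (d.factorial : ℝ) ^ 4 =
        (((Finset.univ : Finset (Perm (Fin d) × Perm (Fin d) × Perm (Fin d) × Perm (Fin d))).filter
          fun v => ∀ h ∈ Subgroup.zpowers v.1, ∀ h' ∈ Subgroup.zpowers v.2.2.2,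
            gg (curve v.1 v.2.1 v.2.2.1 h h') = 0).card : ℝ) * N := by
      exact_mod_cast e
    have h2 : (Nat.card A : ℝ) * (d.factorial : ℝ) ^ 4 ≤
        C1 * Real.log d ^ 2 / d * N * (d.factorial : ℝ) ^ 4 := by
      rw [e']
      calc _ ≤ (C1 * Real.log d ^ 2 / d * (d.factorial : ℝ) ^ 4) * N :=
            mul_le_mul_of_nonneg_right hS' (Nat.cast_nonneg _)
        _ = _ := by ring
    exact le_of_mul_le_mul_right h2 (by positivity)
  have hBle : (Nat.card B : ℝ) ≤ C2 / d * N := by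
    obtain ⟨Q, hQ⟩ : ∃ Q : Perm (Fin d) × Perm (Fin d) → Prop, ∀ v, Q v ↔
      ¬ ∀ i j : Fin d, ∃ x ∈ Subgroup.closure {v.1, v.2}, x i = j := ⟨_, fun v => Iff.rfl⟩
    have hT2 : (((Finset.univ : Finset (Perm (Fin d) × Perm (Fin d))).filter Q).card : ℝ) ≤
        C2 / d * (d.factorial : ℝ) ^ 2 := by
      rw [Finset.filter_congr fun v _ => hQ v]
      convert hT'
    have hB2 : B = {ρ : F g n →* Perm (Fin d) | ρ (bdry g n) = 1 ∧
        Q (ρ (ga ⟨0, h0⟩), ρ (gb ⟨0, h0⟩))} := by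
      ext ρ
      rw [hB, Set.mem_ofPred_eq, Set.mem_ofPred_eq, hQ]
    have e : Nat.card B * d.factorial ^ 4 =
        ((Finset.univ : Finset (Perm (Fin d) × Perm (Fin d) × Perm (Fin d) × Perm (Fin d))).filter
          fun v => Q (v.1, v.2.1)).card * N := by
      rw [hB2]
      exact hHom g n h1 hn d (fun v => Q (v.1, v.2.1))
    have e' : (Nat.card B : ℝ) * (d.factorial : ℝ) ^ 4 =
        (((Finset.univ : Finset (Perm (Fin d) × Perm (Fin d) × Perm (Fin d) × Perm (Fin d))).filter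
          fun v => Q (v.1, v.2.1)).card : ℝ) * N := by
      exact_mod_cast e
    have h3 := Fin_proj (β := Perm (Fin d)) Q
    rw [hcardP] at h3
    have h3' : (((Finset.univ : Finset (Perm (Fin d) × Perm (Fin d) × Perm (Fin d) ×
        Perm (Fin d))).filter fun v => Q (v.1, v.2.1)).card : ℝ) ≤
        (((Finset.univ : Finset (Perm (Fin d) × Perm (Fin d))).filter Q).card : ℝ) *
          (d.factorial : ℝ) ^ 2 := by
      exact_mod_cast h3
    have h2 : (Nat.card B : ℝ) * (d.factorial : ℝ) ^ 4 ≤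
        C2 / d * N * (d.factorial : ℝ) ^ 4 := by
      rw [e']
      calc _ ≤ ((C2 / d * (d.factorial : ℝ) ^ 2) * (d.factorial : ℝ) ^ 2) * N :=
            mul_le_mul_of_nonneg_right
              (h3'.trans (mul_le_mul_of_nonneg_right hT2 (by positivity))) (Nat.cast_nonneg _)
        _ = _ := by ring
    exact le_of_mul_le_mul_right h2 (by positivity)
  have hlog := Fin_log d hd
  have hdpos : (0 : ℝ) < d := by
    have : 0 < d := by omega
    exact_mod_cast this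
  have hle' : (Nat.card {ρ : F g n →* Perm (Fin d) // ρ (bdry g n) = 1 ∧ ¬ Fine ρ} : ℝ) ≤
      Nat.card A + Nat.card B := by
    exact_mod_cast hle
  have h5 : C2 / d * N ≤ C2 * 3 * Real.log d ^ 2 / d * N := by
    apply mul_le_mul_of_nonneg_right _ (Nat.cast_nonneg _)
    apply div_le_div_of_nonneg_right _ hdpos.le
    nlinarith
  calc _ ≤ (Nat.card A : ℝ) + Nat.card B := hle'
    _ ≤ C1 * Real.log d ^ 2 / d * N + C2 / d * N := add_le_add hAle hBle
    _ ≤ C1 * Real.log d ^ 2 / d * N + C2 * 3 * Real.log d ^ 2 / d * N := by linarith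
    _ = _ := by ring

end Pool.Agent.PWR
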