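import Pool.Agent.PWR.NnnAux

/-! Module Fnn. -/

set_option autoImplicit false

namespace Pool.Agent.PWR

open Equiv Pool.Agent.PW
open scoped Classical

theorem Fnn_fl (hOpt : St_Opt) {β : Type} [DecidableEq β] [Nonempty β] (e w : Perm β) (q : β) :
    fl (optionCongr e * (optionCongr w * swap none (some q))) = fl (e * w) := by
  rw [← Rec_fl_conj (swap none (some q))]
  have e1 : swap none (some q) * (optionCongr e * (optionCongr w * swap none (some q))) *
      (swap none (some q))⁻¹ = swap none (some q) * optionCongr (e * w) := by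
    rw [Rec_mul]
    group
  rw [e1, Rec_fl_some hOpt]

theorem Fnn_opt (hOpt : St_Opt) (hUpp : St_Upp) (hPsi : St_Psi) {β : Type} [Fintype β]
    [DecidableEq β] [Nonempty β] (Z : Perm (Option β)) :
    (∑ x : Perm (Option β), fl x * nr none (x * Z)) ≤
      ((Fintype.card β - 1).factorial : ℝ) * psi (Z.support.card - 4) := by
  have h1 : (∑ x : Perm (Option β), fl x * nr none (x * Z)) =
      ∑ y : Perm (Option β), nr none y * fl (y * Z⁻¹) := by
    rw [← Equiv.sum_comp (Equiv.mulRight Z) (fun y => nr none y * fl (y * Z⁻¹))]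
    refine Finset.sum_congr rfl fun x _ => ?_
    change fl x * nr none (x * Z) = nr none (x * Z) * fl (x * Z * Z⁻¹)
    rw [mul_inv_cancel_right, mul_comm]
  have hZ : Z.support.card = (Z⁻¹).support.card := by rw [Perm.support_inv]
  rw [h1, Nnn_sum_near, hZ]
  obtain ⟨w, hw | ⟨q, hw⟩⟩ := Nnn_dec' Z⁻¹
  · have h0 : (∑ e : Perm β, fl e * fl (optionCongr e * Z⁻¹)) = 0 := by
      refine Finset.sum_eq_zero fun e _ => ?_
      have e2 : (optionCongr e * Z⁻¹ : Perm (Option β)) = optionCongr (e * w) := by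
        rw [hw, Rec_mul]
      rw [e2, Rec_fl_none hOpt, mul_zero]
    rw [h0]
    exact mul_nonneg (Nat.cast_nonneg _) (hPsi.2.1 _).le
  · have h0 : (∑ e : Perm β, fl e * fl (optionCongr e * Z⁻¹)) = ff w := by
      refine Finset.sum_congr rfl fun e _ => ?_
      rw [hw, Fnn_fl hOpt]
    rw [h0]
    refine Nnn_ff_le hUpp hPsi w ?_
    have h2 := Nnn_supp_mul (optionCongr w) (swap none (some q))
    have h3 := Nnn_supp_swap none (some q)
    rw [Nnn_supp_opt, ← hw] at h2
    omega

theorem Fnn_one (hOpt : St_Opt) (hUpp : St_Upp) (hPsi : St_Psi) {α : Type} [Fintype α]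
    [DecidableEq α] (z : Perm α) (t : α) (h2 : 2 ≤ Fintype.card α) :
    (∑ x : Perm α, fl x * nr t (x * z)) ≤
      ((Fintype.card α - 2).factorial : ℝ) * psi (z.support.card - 4) := by
  set e : α ≃ Option {b // b ≠ t} := (optionSubtypeNe t).symm with he
  have het : e t = none := optionSubtypeNe_symm_self t
  have hcard : Fintype.card α = Fintype.card {b // b ≠ t} + 1 := by
    rw [Fintype.card_congr e, Fintype.card_option]
  have hne : Nonempty {b // b ≠ t} := by
    obtain ⟨j, hj⟩ := Fintype.exists_ne_of_one_lt_card (by omega) t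
    exact ⟨⟨j, hj⟩⟩
  have h3 := Fnn_opt hOpt hUpp hPsi (e.permCongr z)
  rw [Nnn_tr_supp, ← (e.permCongr).sum_comp] at h3
  have h4 : (∑ x : Perm α, fl (e.permCongr x) * nr none (e.permCongr x * e.permCongr z)) =
      ∑ x : Perm α, fl x * nr t (x * z) := by
    refine Finset.sum_congr rfl fun x _ => ?_
    rw [← permCongr_mul, Nnn_tr_fl, ← het, Nnn_tr_nr]
  rw [h4] at h3
  have h6 : Fintype.card α - 2 = Fintype.card {b // b ≠ t} - 1 := by omega
  rw [h6]
  exact h3

theorem Fnn_fn (hOpt : St_Opt) (hUpp : St_Upp) (hPsi : St_Psi) {α : Type} [Fintype α]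
    [DecidableEq α] (z : Perm α) (h2 : 2 ≤ Fintype.card α) :
    fn z ≤ Fintype.card α * ((Fintype.card α - 2).factorial : ℝ) * psi (z.support.card - 4) := by
  have h1 : fn z = ∑ t : α, ∑ x : Perm α, fl x * nr t (x * z) := by
    unfold fn nrs
    rw [Finset.sum_comm]
    exact Finset.sum_congr rfl fun x _ => by rw [Finset.mul_sum]
  rw [h1]
  calc _ ≤ ∑ _t : α, ((Fintype.card α - 2).factorial : ℝ) * psi (z.support.card - 4) :=
        Finset.sum_le_sum fun t _ => Fnn_one hOpt hUpp hPsi z t h2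
    _ = _ := by rw [Finset.sum_const, Finset.card_univ, nsmul_eq_mul, mul_assoc]

theorem thm_Fnn (hOpt : St_Opt) (hUpp : St_Upp) (hPsi : St_Psi) : St_Fnn := by
  intro α _ _ z h2
  refine ⟨Fnn_fn hOpt hUpp hPsi z h2, ?_⟩
  have h1 : nf z = fn z⁻¹ := by
    unfold nf fn
    rw [← Equiv.sum_comp (Equiv.mulRight z) (fun x => fl x * nrs (x * z⁻¹))]
    refine Finset.sum_congr rfl fun x _ => ?_
    change nrs x * fl (x * z) = fl (x * z) * nrs (x * z * z⁻¹)
    rw [mul_inv_cancel_right, mul_comm]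
  have h3 := Fnn_fn hOpt hUpp hPsi z⁻¹ h2
  rw [Perm.support_inv] at h3
  rw [h1]
  exact h3

end Pool.Agent.PWR
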