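import Pool.Agent.PWR.St

/-! Module Frm. -/

set_option autoImplicit false

namespace Pool.Agent.PWR

open Equiv Pool.Agent.PW
open scoped Classical

theorem Frm_full_congr {α β : Type} (f : α ≃ β) (x : Perm α) :
    Full (f.permCongr x) ↔ Full x := by
  have hz : ∀ (k : ℤ) (a : α), ((f.permCongr x) ^ k) (f a) = f ((x ^ k) a) := by
    intro k a
    have : (f.permCongr x) ^ k = f.permCongr (x ^ k) := by
      have := map_zpow (f.permCongrHom) x k
      exact this.symm
    rw [this, Equiv.permCongr_apply, Equiv.symm_apply_apply]
  constructor
  · intro h i j
    obtain ⟨k, hk⟩ := h (f i) (f j)
    refine ⟨k, ?_⟩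
    rw [hz] at hk
    exact f.injective hk
  · intro h i j
    obtain ⟨k, hk⟩ := h (f.symm i) (f.symm j)
    refine ⟨k, ?_⟩
    have := hz k (f.symm i)
    rw [Equiv.apply_symm_apply, hk, Equiv.apply_symm_apply] at this
    exact this

theorem Frm_fl_congr {α β : Type} (f : α ≃ β) (x : Perm α) : fl (f.permCongr x) = fl x := by
  unfold fl
  rw [Frm_full_congr]

theorem Frm_ff_congr {α β : Type} [Fintype α] [DecidableEq α] [Fintype β] [DecidableEq β]
    (f : α ≃ β) (z : Perm α) : ff (f.permCongr z) = ff z := by
  unfold ff
  rw [← (f.permCongr).sum_comp]
  refine Finset.sum_congr rfl fun x _ => ?_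
  have e : f.permCongr x * f.permCongr z = f.permCongr (x * z) := (map_mul f.permCongrHom x z).symm
  rw [e, Frm_fl_congr, Frm_fl_congr]

theorem Frm_DD_congr {α β : Type} [Fintype α] [DecidableEq α] [Fintype β] [DecidableEq β]
    (f : α ≃ β) (z : Perm α) (s : ℝ) : DD (f.permCongr z) s = DD z s := by
  unfold DD
  rw [← Matrix.det_submatrix_equiv_self f (AM (f.permCongr z) s)]
  congr 1
  ext i j
  simp [AM, PM, Matrix.one_apply]

theorem Frm_cont {α : Type} [Fintype α] [DecidableEq α] (z : Perm α) : Continuous (DD z) := by
  have : DD z = fun s => (AM z s).det := rfl
  rw [this]
  apply Continuous.matrix_det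
  unfold AM
  exact ((continuous_const.sub continuous_id).smul continuous_const).add
    (continuous_id.smul continuous_const)

theorem thm_Frm (hRec : St_Rec) (hDto : St_Dto) (hDti : St_Dti) : St_Frm := by
  have main : ∀ (N : ℕ) (α : Type) [Fintype α] [DecidableEq α] [Nonempty α], Fintype.card α = N →
      ∀ z : Perm α, ff z = ((Fintype.card α - 1).factorial : ℝ) * ∫ s in (0 : ℝ)..1, DD z s := by
    intro N
    induction N with
    | zero =>
      intro α _ _ _ h
      exact absurd h Fintype.card_ne_zero
    | succ N ih =>
      intro α _ _ _ hN z
      by_cases h0 : N = 0
      · subst h0
        have hsub : Subsingleton α := Fintype.card_le_one_iff_subsingleton.mp hN.le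
        have hfull : ∀ x : Perm α, Full x := by
          intro x i j
          rw [Subsingleton.elim i j]
        have hfl : ∀ x : Perm α, fl x = 1 := fun x => if_pos (hfull x)
        have hz : z = 1 := Subsingleton.elim _ _
        have h1 : ff z = 1 := by
          unfold ff
          rw [Finset.sum_congr rfl fun x _ => by rw [hfl, hfl, mul_one], Finset.sum_const,
            Finset.card_univ, Fintype.card_perm, hN]
          simp
        have h2 : ∀ s, DD z s = 1 := by
          intro s
          unfold DD
          have : AM z s = 1 := by
            rw [hz]
            ext i j
            have hij : i = j := Subsingleton.elim _ _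
            subst hij
            simp [AM, PM]
          rw [this, Matrix.det_one]
        rw [h1, hN]
        simp [h2]
      · -- transport to `Option β`
        obtain ⟨β, hβ1, hβ2, ⟨f⟩⟩ : ∃ (β : Type) (_ : Fintype β) (_ : DecidableEq β),
            Nonempty (α ≃ Option β) := by
          refine ⟨Fin N, inferInstance, inferInstance, ⟨?_⟩⟩
          apply Fintype.equivOfCardEq
          rw [hN, Fintype.card_option, Fintype.card_fin]
        have hcard : Fintype.card β = N := by
          have := Fintype.card_congr f
          rw [hN, Fintype.card_option] at this
          omega
        have : Nonempty β := Fintype.card_pos_iff.mp (by omega)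
        have ihβ := ih β hcard
        have key : ∀ Z : Perm (Option β), ff Z = (N.factorial : ℝ) * ∫ s in (0 : ℝ)..1, DD Z s := by
          intro Z
          have hfac : (N.factorial : ℝ) = N * ((N - 1).factorial : ℝ) := by
            rw [← Nat.cast_mul, Nat.mul_factorial_pred h0]
          cases hq : Z.symm none with
          | none =>
            have hZ : Z none = none := by
              have := Z.apply_symm_apply none
              rwa [hq] at this
            have hw : Z = optionCongr (removeNone Z) := by
              have h4 := (Perm.decomposeOption (α := β)).symm_apply_apply Z
              rw [← h4]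
              have h5 : Perm.decomposeOption Z = (Z none, removeNone Z) := rfl
              rw [h5, hZ]
              show swap none none * optionCongr (removeNone Z) = _
              rw [swap_self]
              rfl
            rw [hw, (hRec β _).2.2.1, ihβ, hcard, hfac]
            simp only [hDto β]
            ring
          | some q =>
            have hZ : Z (some q) = none := by
              have := Z.apply_symm_apply none
              rwa [hq] at this
            set Z' := Z * swap none (some q) with hZ'
            have hZn : Z' none = none := by
              rw [hZ', Perm.mul_apply, swap_apply_left, hZ]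
            have hw : Z' = optionCongr (removeNone Z') := by
              have h4 := (Perm.decomposeOption (α := β)).symm_apply_apply Z'
              rw [← h4]
              have h5 : Perm.decomposeOption Z' = (Z' none, removeNone Z') := rfl
              rw [h5, hZn]
              show swap none none * optionCongr (removeNone Z') = _
              rw [swap_self]
              rfl
            have hZw : Z = optionCongr (removeNone Z') * swap none (some q) := by
              rw [← hw, hZ', mul_assoc, swap_mul_self, mul_one]
            rw [hZw, (hRec β _).2.2.2 q]
            have h6 := hDti β (removeNone Z') q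
            rw [Finset.sum_congr rfl fun t _ => ihβ _, ← Finset.mul_sum, hcard,
              ← intervalIntegral.integral_finsetSum fun t _ =>
                (Frm_cont _).intervalIntegrable _ _, h6, hcard, hfac]
            ring
        have h7 := key (f.permCongr z)
        rw [Frm_ff_congr] at h7
        rw [h7, hN, Nat.add_sub_cancel]
        congr 1
        apply intervalIntegral.integral_congr
        intro s _
        exact Frm_DD_congr f z s
  intro α _ _ _ z
  exact main _ α rfl z

end Pool.Agent.PWR
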