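import Pool.Agent.PWR.St
import Pool.Agent.Helper60.Hadamard

/-! Module Had. -/

set_option autoImplicit false

namespace Pool.Agent.PWR

open Equiv Pool.Agent.PW
open scoped Classical

theorem Had_cols {ι : Type} [Fintype ι] [DecidableEq ι] (U : Matrix ι ι ℝ) :
    U.det ^ 2 ≤ ∏ a, ∑ c, (U c a) ^ 2 := by
  have h1 : (U.conjTranspose * U).PosSemidef := Matrix.posSemidef_conjTranspose_mul_self U
  have h2 := Pool.Agent.Helper60.Had.det_le_prod_diag h1
  rw [Matrix.det_mul, Matrix.det_conjTranspose] at h2
  have h3 : ∀ a, (U.conjTranspose * U) a a = ∑ c, (U c a) ^ 2 := by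
    intro a
    rw [Matrix.mul_apply]
    refine Finset.sum_congr rfl fun c _ => ?_
    simp [Matrix.conjTranspose_apply, sq]
  simp only [h3] at h2
  calc U.det ^ 2 = star U.det * U.det := by simp [sq]
    _ ≤ _ := h2

theorem thm_Had : St_Had := by
  intro α _ _ z s
  unfold DD
  refine (Had_cols _).trans (le_of_eq ?_)
  have h1 : ∀ j, (∑ i, (AM z s i j) ^ 2) = if j ∈ z.support then (1 - s) ^ 2 + s ^ 2 else 1 := by
    intro j
    have e : ∀ i, AM z s i j = (1 - s) * (if i = j then 1 else 0) + s * (if z j = i then 1 else 0) := by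
      intro i
      simp only [AM, PM, Matrix.add_apply, Matrix.smul_apply, Matrix.one_apply, Matrix.of_apply,
        smul_eq_mul]
    by_cases hj : z j = j
    · rw [if_neg (by rwa [Perm.mem_support, not_not]), Finset.sum_eq_single j]
      · rw [e, if_pos rfl, if_pos hj]
        ring
      · intro i _ hi
        rw [e, if_neg hi, if_neg (by rw [hj]; exact hi.symm)]
        ring
      · intro h
        exact absurd (Finset.mem_univ _) h
    · rw [if_pos (by rwa [Perm.mem_support]), ← Finset.add_sum_erase _ _ (Finset.mem_univ j),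
        ← Finset.add_sum_erase _ _ (Finset.mem_erase.mpr ⟨hj, Finset.mem_univ (z j)⟩),
        Finset.sum_eq_zero]
      · rw [e, e, if_pos rfl, if_neg hj, if_pos rfl]
        ring
      · intro i hi
        have h2 := Finset.ne_of_mem_erase hi
        have h3 := Finset.ne_of_mem_erase (Finset.mem_of_mem_erase hi)
        rw [e, if_neg h3, if_neg h2.symm]
        ring
  rw [Finset.prod_congr rfl fun j _ => h1 j, Finset.prod_ite_mem, Finset.univ_inter,
    Finset.prod_const]

end Pool.Agent.PWR
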