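import Pool.Agent.PWR.St

/-! Module Hom. -/

set_option autoImplicit false

namespace Pool.Agent.PWR

open Equiv Pool.Agent.PW
open scoped Classical

variable {g n : ℕ}

theorem Hom_gen_finite (g n : ℕ) : Finite (Gen g n) := by
  refine Finite.of_injective (β := (Fin g ⊕ Fin g) ⊕ Fin n)
    (fun x => match x with
      | Gen.a i => Sum.inl (Sum.inl i)
      | Gen.b i => Sum.inl (Sum.inr i)
      | Gen.c j => Sum.inr j) ?_
  intro x y hxy
  cases x <;> cases y <;> simp_all

theorem Hom_finite (g n : ℕ) (G : Type) [Group G] [Finite G] : Finite (F g n →* G) := by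
  have := Hom_gen_finite g n
  exact Finite.of_equiv _ (FreeGroup.lift (α := Gen g n) (β := G))

theorem Hom_count {H V : Type} [Fintype H] [Fintype V] (π : H → V) (A : H → Prop) (M : ℕ)
    [∀ v, DecidablePred fun ρ => A ρ ∧ π ρ = v]
    (hM : ∀ v, ((Finset.univ : Finset H).filter fun ρ => A ρ ∧ π ρ = v).card = M) (P : V → Prop)
    [DecidablePred P] [DecidablePred fun ρ => A ρ ∧ P (π ρ)] :
    ((Finset.univ : Finset H).filter fun ρ => A ρ ∧ P (π ρ)).card =
      ((Finset.univ : Finset V).filter P).card * M := by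
  rw [Finset.card_eq_sum_card_fiberwise (f := π) (t := (Finset.univ : Finset V).filter P)]
  · rw [Finset.sum_congr rfl (g := fun _ => M), Finset.sum_const, smul_eq_mul]
    intro v hv
    rw [← hM v]
    congr 1
    ext ρ
    simp only [Finset.mem_filter, Finset.mem_univ, true_and] at hv ⊢
    constructor
    · rintro ⟨⟨h1, _⟩, h3⟩
      exact ⟨h1, h3⟩
    · rintro ⟨h1, h3⟩
      exact ⟨⟨h1, by rw [h3]; exact hv⟩, h3⟩
  · intro ρ hρ
    simp only [Finset.coe_filter, Finset.mem_univ, true_and, Set.mem_ofPred_eq] at hρ ⊢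
    exact hρ.2

/-- The generator which is determined. -/
def HomLast (g n : ℕ) (hn : 1 ≤ n) : Gen g n := Gen.c ⟨n - 1, by omega⟩

/-- The other factors of the boundary. -/
def HomR (g n : ℕ) : F g n := seg g n 0 g * cseg g n 0 (n - 1)

theorem Hom_bdry (hn : 1 ≤ n) : bdry g n = HomR g n * FreeGroup.of (HomLast g n hn) := by
  have h1 : cseg g n 0 n = cseg g n 0 ((n - 1) + 1) := by
    congr 1
    omega
  rw [bdry_eq, h1, cseg_add, Nat.zero_add, cseg_one]
  have h2 : pc g n (n - 1) = FreeGroup.of (HomLast g n hn) := by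
    unfold pc HomLast
    rw [dif_pos (by omega)]
    rfl
  rw [h2, HomR, mul_assoc]

theorem Hom_R {G : Type} [Group G] (hn : 1 ≤ n) (φ ψ : F g n →* G)
    (h : ∀ x, x ≠ HomLast g n hn → φ (FreeGroup.of x) = ψ (FreeGroup.of x)) :
    φ (HomR g n) = ψ (HomR g n) := by
  unfold HomR
  rw [map_mul, map_mul]
  congr 1
  · apply seg_congr
    intro i _ _
    exact ⟨h _ (by simp [HomLast]), h _ (by simp [HomLast])⟩
  · apply cseg_congr
    intro i _ hi
    apply h
    simp only [HomLast, ne_eq, Gen.c.injEq, Fin.ext_iff]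
    omega

theorem Hom_fiber {G : Type} [Group G] [Finite G] (h : 1 < g) (hn : 1 ≤ n) [Fintype (F g n →* G)]
    (v v' : G × G × G × G) :
    ((Finset.univ : Finset (F g n →* G)).filter fun ρ => ρ (bdry g n) = 1 ∧
      (ρ (ga ⟨0, by omega⟩), ρ (gb ⟨0, by omega⟩), ρ (ga ⟨1, h⟩), ρ (gb ⟨1, h⟩)) = v).card ≤
    ((Finset.univ : Finset (F g n →* G)).filter fun ρ => ρ (bdry g n) = 1 ∧
      (ρ (ga ⟨0, by omega⟩), ρ (gb ⟨0, by omega⟩), ρ (ga ⟨1, h⟩), ρ (gb ⟨1, h⟩)) = v').card := by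
  let f0 : (F g n →* G) → Gen g n → G := fun ρ x =>
    if x = Gen.a ⟨0, by omega⟩ then v'.1 else if x = Gen.b ⟨0, by omega⟩ then v'.2.1 else
    if x = Gen.a ⟨1, h⟩ then v'.2.2.1 else if x = Gen.b ⟨1, h⟩ then v'.2.2.2 else
    ρ (FreeGroup.of x)
  let T : (F g n →* G) → (F g n →* G) := fun ρ => FreeGroup.lift fun x =>
    if x = HomLast g n hn then (FreeGroup.lift (f0 ρ) (HomR g n))⁻¹ else f0 ρ x
  have hTof : ∀ ρ x, T ρ (FreeGroup.of x) =
      if x = HomLast g n hn then (FreeGroup.lift (f0 ρ) (HomR g n))⁻¹ else f0 ρ x := by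
    intro ρ x
    exact FreeGroup.lift_apply_of
  have hTR : ∀ ρ, T ρ (HomR g n) = FreeGroup.lift (f0 ρ) (HomR g n) := by
    intro ρ
    apply Hom_R hn
    intro x hx
    rw [hTof, if_neg hx, FreeGroup.lift_apply_of]
  have hTb : ∀ ρ, T ρ (bdry g n) = 1 := by
    intro ρ
    rw [Hom_bdry hn, map_mul, hTR, hTof, if_pos rfl, mul_inv_cancel]
  refine Finset.card_le_card_of_injOn T ?_ ?_
  · intro ρ hρ
    simp only [Finset.coe_filter, Finset.mem_univ, true_and, Set.mem_ofPred_eq] at hρ ⊢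
    refine ⟨hTb ρ, ?_⟩
    have e1 : T ρ (ga ⟨0, by omega⟩) = v'.1 := by
      rw [ga, hTof, if_neg (by simp [HomLast])]
      simp [f0]
    have e2 : T ρ (gb ⟨0, by omega⟩) = v'.2.1 := by
      rw [gb, hTof, if_neg (by simp [HomLast])]
      simp [f0]
    have e3 : T ρ (ga ⟨1, h⟩) = v'.2.2.1 := by
      rw [ga, hTof, if_neg (by simp [HomLast])]
      simp [f0]
    have e4 : T ρ (gb ⟨1, h⟩) = v'.2.2.2 := by
      rw [gb, hTof, if_neg (by simp [HomLast])]
      simp [f0]
    rw [e1, e2, e3, e4]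
  · intro ρ hρ ρ' hρ' hT
    simp only [Finset.coe_filter, Finset.mem_univ, true_and, Set.mem_ofPred_eq] at hρ hρ'
    have hne : ∀ x, x ≠ HomLast g n hn → ρ (FreeGroup.of x) = ρ' (FreeGroup.of x) := by
      intro x hx
      have h1 := DFunLike.congr_fun hT (FreeGroup.of x)
      rw [hTof, hTof, if_neg hx, if_neg hx] at h1
      have h2 := hρ.2.trans hρ'.2.symm
      simp only [Prod.mk.injEq] at h2
      by_cases x1 : x = Gen.a ⟨0, by omega⟩
      · rw [x1]; exact h2.1
      by_cases x2 : x = Gen.b ⟨0, by omega⟩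
      · rw [x2]; exact h2.2.1
      by_cases x3 : x = Gen.a ⟨1, h⟩
      · rw [x3]; exact h2.2.2.1
      by_cases x4 : x = Gen.b ⟨1, h⟩
      · rw [x4]; exact h2.2.2.2
      simp only [f0, if_neg x1, if_neg x2, if_neg x3, if_neg x4] at h1
      exact h1
    have hR := Hom_R hn ρ ρ' hne
    have hb := hρ.1
    have hb' := hρ'.1
    rw [Hom_bdry hn, map_mul] at hb hb'
    apply FreeGroup.ext_hom
    intro x
    by_cases hx : x = HomLast g n hn
    · rw [hx, eq_inv_of_mul_eq_one_right hb, eq_inv_of_mul_eq_one_right hb', hR]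
    · exact hne x hx

theorem Hom_main {G : Type} [Group G] [Fintype G] (h : 1 < g) (hn : 1 ≤ n)
    (P : G × G × G × G → Prop) :
    Nat.card {ρ : F g n →* G // ρ (bdry g n) = 1 ∧
      P (ρ (ga ⟨0, by omega⟩), ρ (gb ⟨0, by omega⟩), ρ (ga ⟨1, h⟩), ρ (gb ⟨1, h⟩))} *
        (Fintype.card G) ^ 4 =
    ((Finset.univ : Finset (G × G × G × G)).filter P).card *
      Nat.card {ρ : F g n →* G // ρ (bdry g n) = 1} := by
  have hfin := Hom_finite g n G
  have : Fintype (F g n →* G) := Fintype.ofFinite _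
  let π : (F g n →* G) → G × G × G × G :=
    fun ρ => (ρ (ga ⟨0, by omega⟩), ρ (gb ⟨0, by omega⟩), ρ (ga ⟨1, h⟩), ρ (gb ⟨1, h⟩))
  obtain ⟨M, hMv⟩ : ∃ M, ∀ v, ((Finset.univ : Finset (F g n →* G)).filter fun ρ =>
      ρ (bdry g n) = 1 ∧ π ρ = v).card = M :=
    ⟨_, fun v => le_antisymm (Hom_fiber h hn v 1) (Hom_fiber h hn 1 v)⟩
  have h1 := Hom_count π (fun ρ => ρ (bdry g n) = 1) M hMv P
  have h2 := Hom_count π (fun ρ => ρ (bdry g n) = 1) M hMv (fun _ => True)
  have e1 : Nat.card {ρ : F g n →* G // ρ (bdry g n) = 1 ∧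
      P (ρ (ga ⟨0, by omega⟩), ρ (gb ⟨0, by omega⟩), ρ (ga ⟨1, h⟩), ρ (gb ⟨1, h⟩))} =
      ((Finset.univ : Finset (F g n →* G)).filter fun ρ =>
        ρ (bdry g n) = 1 ∧ P (π ρ)).card := by
    rw [Nat.card_eq_fintype_card, Fintype.card_subtype]
  have e2 : Nat.card {ρ : F g n →* G // ρ (bdry g n) = 1} =
      ((Finset.univ : Finset (F g n →* G)).filter fun ρ =>
        ρ (bdry g n) = 1 ∧ True).card := by
    rw [Nat.card_eq_fintype_card, Fintype.card_subtype]
    simp
  have e3 : ((Finset.univ : Finset (G × G × G × G)).filter fun _ => True).card =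
      (Fintype.card G) ^ 4 := by
    rw [Finset.filter_true, Finset.card_univ, Fintype.card_prod, Fintype.card_prod,
      Fintype.card_prod]
    ring
  rw [e1, e2, h1, h2, e3]
  ring

theorem thm_Hom : St_Hom := by
  intro g n h hn d P
  have := Hom_main (G := Perm (Fin d)) h hn P
  rw [Fintype.card_perm, Fintype.card_fin] at this
  exact this

end Pool.Agent.PWR
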