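import Pool.Agent.PWR.St

/-! Module Int. -/

set_option autoImplicit false

namespace Pool.Agent.PWR

open MeasureTheory intervalIntegral

private noncomputable def IntF (m : ℝ) (s : ℝ) : ℝ := Real.exp (-(m * (s * (1 - s))))

private lemma Int_cont (m : ℝ) : Continuous (IntF m) := by
  unfold IntF
  fun_prop

private lemma Int_quarter (m : ℝ) (hm : 0 < m) :
    ∫ s in (0 : ℝ)..(1 / 4), IntF m s ≤ 1 / m + 8 / m ^ 2 := by
  set H : ℝ → ℝ := fun s => -(Real.exp (-(m * (s * (1 - s)))) * (1 + 4 * s + 8 / m) / m) with hH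
  set H' : ℝ → ℝ := fun s => Real.exp (-(m * (s * (1 - s)))) *
    ((1 - 2 * s) * (1 + 4 * s + 8 / m) - 4 / m) with hH'
  have hd : ∀ s, HasDerivAt H (H' s) s := by
    intro s
    have h1 : HasDerivAt (fun s : ℝ => -(m * (s * (1 - s)))) (-(m * (1 * (1 - s) + s * (0 - 1)))) s :=
      (((hasDerivAt_id' s).mul ((hasDerivAt_const s (1 : ℝ)).sub (hasDerivAt_id' s))).const_mul m).neg
    have h2 := h1.exp
    have h3 : HasDerivAt (fun s : ℝ => 1 + 4 * s + 8 / m) (4 * 1) s := by
      have := (((hasDerivAt_id' s).const_mul (4 : ℝ)).const_add 1).add_const (8 / m)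
      exact this
    have h4 := ((h2.mul h3).div_const m).neg
    refine h4.congr_deriv ?_
    simp only [hH']
    field_simp
    ring
  have hc' : Continuous H' := by
    simp only [hH']
    fun_prop
  have h1 : ∫ s in (0 : ℝ)..(1 / 4), H' s = H (1 / 4) - H 0 :=
    integral_eq_sub_of_hasDerivAt (fun s _ => hd s) (hc'.intervalIntegrable _ _)
  have h2 : ∫ s in (0 : ℝ)..(1 / 4), IntF m s ≤ ∫ s in (0 : ℝ)..(1 / 4), H' s := by
    refine integral_mono_on (by norm_num) ((Int_cont m).intervalIntegrable _ _)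
      (hc'.intervalIntegrable _ _) fun s hs => ?_
    unfold IntF
    simp only [hH']
    have h3 : 1 ≤ (1 - 2 * s) * (1 + 4 * s + 8 / m) - 4 / m := by
      have h4 : (1 - 2 * s) * (1 + 4 * s + 8 / m) - 4 / m =
          1 + 2 * s * (1 - 4 * s) + (4 - 16 * s) / m := by
        field_simp
        ring
      rw [h4]
      have h5 : 0 ≤ 2 * s * (1 - 4 * s) := by
        have := hs.1
        have := hs.2
        exact mul_nonneg (by linarith) (by linarith)
      have h6 : 0 ≤ (4 - 16 * s) / m := div_nonneg (by linarith [hs.2]) hm.le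
      linarith
    have h7 := Real.exp_pos (-(m * (s * (1 - s))))
    nlinarith
  have h3 : H (1 / 4) ≤ 0 := by
    simp only [hH]
    have : 0 ≤ Real.exp (-(m * (1 / 4 * (1 - 1 / 4)))) * (1 + 4 * (1 / 4) + 8 / m) / m := by positivity
    linarith
  have h4 : H 0 = -(1 / m + 8 / m ^ 2) := by
    simp only [hH]
    rw [zero_mul, mul_zero, neg_zero, Real.exp_zero]
    field_simp
    ring
  linarith

private lemma Int_exp (x : ℝ) (hx : 0 < x) : Real.exp (-x) ≤ 2 / x ^ 2 := by
  have h1 : x ^ 2 / 2 ≤ Real.exp x := by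
    have := Real.quadratic_le_exp_of_nonneg hx.le
    linarith
  rw [Real.exp_neg, inv_eq_one_div, div_le_div_iff₀ (Real.exp_pos x) (by positivity)]
  linarith

private lemma Int_all (m : ℝ) (hm : 0 < m) :
    ∫ s in (0 : ℝ)..1, IntF m s ≤ 2 / m + 50 / m ^ 2 := by
  have hI : ∀ a b, IntervalIntegrable (IntF m) volume a b := fun a b =>
    (Int_cont m).intervalIntegrable a b
  have h1 := Int_quarter m hm
  have h2 : ∫ s in (3 / 4 : ℝ)..1, IntF m s = ∫ s in (0 : ℝ)..(1 / 4), IntF m s := by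
    have h3 := integral_comp_sub_left (a := (0 : ℝ)) (b := 1 / 4) (IntF m) (1 : ℝ)
    have h4 : (1 : ℝ) - 1 / 4 = 3 / 4 := by norm_num
    rw [h4, sub_zero] at h3
    rw [← h3]
    refine integral_congr fun s _ => ?_
    unfold IntF
    congr 1
    ring
  have h3 : ∫ s in (1 / 4 : ℝ)..(3 / 4), IntF m s ≤ 29 / m ^ 2 := by
    have h4 : ∫ s in (1 / 4 : ℝ)..(3 / 4), IntF m s ≤ ∫ _s in (1 / 4 : ℝ)..(3 / 4), 57 / m ^ 2 := by
      refine integral_mono_on (by norm_num) (hI _ _) intervalIntegrable_const fun s hs => ?_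
      unfold IntF
      have h5 : 3 / 16 ≤ s * (1 - s) := by nlinarith [hs.1, hs.2]
      have h6 : Real.exp (-(m * (s * (1 - s)))) ≤ Real.exp (-(m * (3 / 16))) := by
        apply Real.exp_le_exp.2
        nlinarith
      refine h6.trans ((Int_exp (m * (3 / 16)) (by positivity)).trans ?_)
      rw [div_le_div_iff₀ (by positivity) (by positivity)]
      nlinarith [sq_nonneg m]
    refine h4.trans ?_
    rw [intervalIntegral.integral_const, smul_eq_mul]
    rw [← mul_div_assoc]
    refine div_le_div_of_nonneg_right ?_ (by positivity)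
    norm_num
  have h4 : ∫ s in (0 : ℝ)..1, IntF m s = (∫ s in (0 : ℝ)..(1 / 4), IntF m s) +
      (∫ s in (1 / 4 : ℝ)..(3 / 4), IntF m s) + ∫ s in (3 / 4 : ℝ)..1, IntF m s := by
    rw [integral_add_adjacent_intervals (hI _ _) (hI _ _),
      integral_add_adjacent_intervals (hI _ _) (hI _ _)]
  rw [h4, h2]
  have e1 : 2 / m + 50 / m ^ 2 = (1 / m + 8 / m ^ 2) + 29 / m ^ 2 + (1 / m + 8 / m ^ 2) + 5 / m ^ 2 := by
    ring
  have e2 : 0 ≤ 5 / m ^ 2 := by positivity
  linarith

theorem thm_Int : St_Int := by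
  intro m h hc hb
  have h1 : ∫ s in (0 : ℝ)..1, h s ≤ 1 := by
    have h2 : ∫ s in (0 : ℝ)..1, h s ≤ ∫ _s in (0 : ℝ)..1, (1 : ℝ) := by
      refine integral_mono_on zero_le_one (hc.intervalIntegrable _ _)
        intervalIntegrable_const fun s hs => ?_
      have h3 := hb s hs
      have h4 : ((1 - s) ^ 2 + s ^ 2) ^ m ≤ 1 := by
        apply pow_le_one₀ (by positivity)
        nlinarith [hs.1, hs.2]
      nlinarith [sq_nonneg (h s - 1)]
    simpa using h2
  unfold psi
  split_ifs with hm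
  · exact h1
  · refine le_min h1 ?_
    have hm0 : (0 : ℝ) < m := by
      have := Nat.pos_of_ne_zero hm
      exact_mod_cast this
    refine le_trans ?_ (Int_all m hm0)
    refine integral_mono_on zero_le_one (hc.intervalIntegrable _ _)
      ((Int_cont m).intervalIntegrable _ _) fun s hs => ?_
    have h3 := hb s hs
    have h4 : ((1 - s) ^ 2 + s ^ 2) ^ m ≤ (IntF m s) ^ 2 := by
      have h5 : (1 - s) ^ 2 + s ^ 2 ≤ Real.exp (-(2 * (s * (1 - s)))) := by
        have := Real.add_one_le_exp (-(2 * (s * (1 - s))))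
        nlinarith
      have h6 : ((1 - s) ^ 2 + s ^ 2) ^ m ≤ Real.exp (-(2 * (s * (1 - s)))) ^ m :=
        pow_le_pow_left₀ (by positivity) h5 m
      have h7 : Real.exp (-(2 * (s * (1 - s)))) ^ m = (IntF m s) ^ 2 := by
        unfold IntF
        rw [← Real.exp_nat_mul, ← Real.exp_nat_mul]
        congr 1
        push_cast
        ring
      exact h6.trans (le_of_eq h7)
    have h8 : 0 ≤ IntF m s := (Real.exp_pos _).le
    exact (le_abs_self _).trans (abs_le_of_sq_le_sq (h3.trans h4) h8)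

end Pool.Agent.PWR
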