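import Pool.Agent.PWR.St

/-! Module Kil. -/

set_option autoImplicit false

namespace Pool.Agent.PWR

open Equiv Pool.Agent.PW
open scoped Classical

theorem thm_Kil : St_Kil := by
  intro g n K hKF hR hgen f hf h0 hfin
  have hg := good_of_finite hR hf hfin
  have hN : K.normalCore.Normal := K.normalCore_normal
  obtain ⟨L, hL, hLN⟩ := exists_exp hN hg.fin
  have hone : f 1 = 0 := by
    have := hf.add 1 1
    rw [mul_one] at this
    linarith
  have hpow : ∀ (x : K) (m : ℕ), f (x ^ m) = m * f x := by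
    intro x m
    induction m with
    | zero => simp [hone]
    | succ m ih =>
      rw [pow_succ, hf.add, ih]
      push_cast
      ring
  have hinv : ∀ x : K, f x⁻¹ = -f x := by
    intro x
    have := hf.add x x⁻¹
    rw [mul_inv_cancel, hone] at this
    linarith
  have hsp : ∀ x (hx : x ∈ K), SimplePower x → f ⟨x, hx⟩ = 0 := by
    rintro x hx ⟨φ, hφ, h, m, hc⟩
    rw [isConj_iff] at hc
    obtain ⟨w, hw⟩ := hc
    have hxL : x ^ L = w * φ (gb ⟨0, h⟩) ^ (m * L) * w⁻¹ := by
      rw [← hw, pow_mul, conj_pow]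
    have h1 : x ^ L ∈ K.normalCore := hLN x
    have h2 : φ (gb ⟨0, h⟩) ^ (m * L) ∈ K.normalCore := by
      have := hN.conj_mem _ h1 w⁻¹
      rw [hxL, inv_inv] at this
      have e : w⁻¹ * (w * φ (gb ⟨0, h⟩) ^ (m * L) * w⁻¹) * w = φ (gb ⟨0, h⟩) ^ (m * L) := by
        group
      rwa [e] at this
    have h3 := hg.kill_b' (z := ⟨0, h⟩) rfl hφ h2 w
    rw [← hxL, ext0_mem (K.normalCore_le h1)] at h3
    have h4 : (⟨x ^ L, K.normalCore_le h1⟩ : K) = ⟨x, hx⟩ ^ L := rfl
    rw [h4, hpow] at h3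
    have h5 : (L : ℚ) ≠ 0 := by exact_mod_cast hL.ne'
    rcases mul_eq_zero.mp h3 with h6 | h6
    · exact absurd h6 h5
    · exact h6
  apply h0
  funext x
  have key : ∀ y ∈ Subgroup.closure {x | x ∈ K ∧ SimplePower x}, ∀ hy : y ∈ K, f ⟨y, hy⟩ = 0 := by
    intro y hy
    induction hy using Subgroup.closure_induction with
    | mem y hy => exact fun hyK => hsp y hyK hy.2
    | one => exact fun _ => hone
    | mul y z hy1 hz1 hy hz =>
      intro hyz
      have hyK : y ∈ K := (Subgroup.closure_le K).2 (fun _ h => h.1) hy1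
      have hzK : z ∈ K := (Subgroup.closure_le K).2 (fun _ h => h.1) hz1
      have := hf.add ⟨y, hyK⟩ ⟨z, hzK⟩
      rw [hy hyK, hz hzK, add_zero] at this
      exact this
    | inv y hy1 hy =>
      intro hyi
      have hyK : y ∈ K := (Subgroup.closure_le K).2 (fun _ h => h.1) hy1
      have := hinv ⟨y, hyK⟩
      rw [hy hyK, neg_zero] at this
      exact this
  exact key x (hgen x.2) x.2

end Pool.Agent.PWR
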