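import Pool.Agent.PWR.St

/-!
# PWR, MOM: second moment of the number of fixed points of `π⁻¹ U π V`
-/

set_option autoImplicit false

namespace Pool.Agent.PWR

open Equiv Pool.Agent.PW
open scoped Classical

theorem Mom_ext {α : Type} [Fintype α] {k : ℕ} (a c : Fin k ↪ α) :
    ∃ σ : Perm α, ∀ t, σ (a t) = c t := by
  have h := (Equiv.Perm.isMultiplyPretransitive α k).exists_smul_eq a c
  obtain ⟨σ, hσ⟩ := h
  refine ⟨σ, fun t => ?_⟩
  rw [← hσ]
  rfl

/-- the number of permutations with prescribed values at `k` points. -/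
theorem Mom_fib {α : Type} [Fintype α] [DecidableEq α] {k : ℕ} (a : Fin k ↪ α) (b : Fin k → α) :
    (Fintype.card α).descFactorial k *
      (Finset.univ.filter fun π : Perm α => ∀ t, π (a t) = b t).card ≤
    (Fintype.card α).factorial := by
  by_cases hne : (Finset.univ.filter fun π : Perm α => ∀ t, π (a t) = b t).Nonempty
  · obtain ⟨π0, h0⟩ := hne
    rw [Finset.mem_filter] at h0
    choose σ hσ using fun c : Fin k ↪ α => Mom_ext a c
    have e1 : (Fintype.card α).descFactorial k = (Finset.univ : Finset (Fin k ↪ α)).card := by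
      rw [Finset.card_univ, Fintype.card_embedding_eq, Fintype.card_fin]
    rw [e1, ← Finset.card_product, ← Fintype.card_perm, ← Finset.card_univ]
    apply Finset.card_le_card_of_injOn (fun p : (Fin k ↪ α) × Perm α => σ p.1 * (π0⁻¹ * p.2))
    · intro p _
      exact Finset.mem_coe.2 (Finset.mem_univ _)
    · have key : ∀ p ∈ ((Finset.univ : Finset (Fin k ↪ α)) ×ˢ
          (Finset.univ.filter fun π : Perm α => ∀ t, π (a t) = b t)), ∀ t,
          (σ p.1 * (π0⁻¹ * p.2)) (a t) = p.1 t := by
        intro p hp t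
        rw [Finset.mem_product, Finset.mem_filter] at hp
        have e : (π0⁻¹ : Perm α) (π0 (a t)) = a t := Equiv.symm_apply_apply π0 _
        rw [Perm.mul_apply, Perm.mul_apply, hp.2.2 t, ← h0.2 t, e, hσ]
      intro p hp q hq hpq
      have hpq' : σ p.1 * (π0⁻¹ * p.2) = σ q.1 * (π0⁻¹ * q.2) := hpq
      have h1 : p.1 = q.1 := by
        apply DFunLike.ext
        intro t
        rw [← key p (Finset.mem_coe.1 hp) t, ← key q (Finset.mem_coe.1 hq) t, hpq']
      rw [h1] at hpq'
      exact Prod.ext h1 (mul_left_cancel (mul_left_cancel hpq'))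
  · rw [Finset.not_nonempty_iff_eq_empty] at hne
    rw [hne, Finset.card_empty, mul_zero]
    exact Nat.zero_le _

theorem Mom_cnt {α β : Type} [Fintype α] [DecidableEq α] {k : ℕ} (a : Fin k ↪ α)
    (S : Finset β) (b : β → Fin k → α) (Q : Finset (Perm α))
    (hQ : ∀ π ∈ Q, ∃ s ∈ S, ∀ t, π (a t) = b s t) :
    (Fintype.card α).descFactorial k * Q.card ≤ S.card * (Fintype.card α).factorial := by
  have h1 : Q ⊆ S.biUnion fun s => Finset.univ.filter fun π : Perm α => ∀ t, π (a t) = b s t := by
    intro π hπ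
    obtain ⟨s, hs, h⟩ := hQ π hπ
    exact Finset.mem_biUnion.2 ⟨s, hs, Finset.mem_filter.2 ⟨Finset.mem_univ _, h⟩⟩
  have h2 := le_trans (Finset.card_le_card h1) Finset.card_biUnion_le
  calc (Fintype.card α).descFactorial k * Q.card ≤ (Fintype.card α).descFactorial k *
        ∑ s ∈ S, (Finset.univ.filter fun π : Perm α => ∀ t, π (a t) = b s t).card :=
        Nat.mul_le_mul_left _ h2
    _ = ∑ s ∈ S, (Fintype.card α).descFactorial k *
        (Finset.univ.filter fun π : Perm α => ∀ t, π (a t) = b s t).card := Finset.mul_sum _ _ _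
    _ ≤ ∑ s ∈ S, (Fintype.card α).factorial := Finset.sum_le_sum fun s _ => Mom_fib a (b s)
    _ = S.card * (Fintype.card α).factorial := by rw [Finset.sum_const, smul_eq_mul]

section

variable {α : Type} [Fintype α] [DecidableEq α] (U V : Perm α)

/-- fixed points from fixed points of `V`. -/
noncomputable def MomA (π : Perm α) : Finset α :=
  Finset.univ.filter fun i => V i = i ∧ U (π (V i)) = π i

/-- the other fixed points. -/
noncomputable def MomB (π : Perm α) : Finset α :=
  Finset.univ.filter fun i => V i ≠ i ∧ U (π (V i)) = π i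

theorem Mom_split (π : Perm α) : fx (π⁻¹ * U * π * V) =
    ((MomA U V π).card : ℝ) + ((MomB U V π).card : ℝ) := by
  unfold fx MomA MomB
  rw [← Nat.cast_add]
  congr 1
  rw [← Finset.card_union_of_disjoint]
  · congr 1
    ext i
    rw [Finset.mem_union, Finset.mem_filter, Finset.mem_filter, Finset.mem_filter]
    have h1 : (π⁻¹ * U * π * V) i = i ↔ U (π (V i)) = π i := by
      rw [Perm.mul_apply, Perm.mul_apply, Perm.mul_apply, Perm.inv_eq_iff_eq]
    rw [h1]
    have := Finset.mem_univ i
    tauto
  · rw [Finset.disjoint_filter]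
    intro i _ h1 h2
    exact h2.1 h1.1

/-- the fixed points. -/
noncomputable def MomF (x : Perm α) : Finset α := Finset.univ.filter fun i => x i = i

theorem Mom_A1 (i : α) (hi : V i = i) : Fintype.card α *
    (Finset.univ.filter fun π : Perm α => U (π (V i)) = π i).card ≤
    (MomF U).card * (Fintype.card α).factorial := by
  have h := Mom_cnt (k := 1) ⟨fun _ => i, fun a b _ => Subsingleton.elim a b⟩ (MomF U)
    (fun s _ => s) (Finset.univ.filter fun π : Perm α => U (π (V i)) = π i) (by
      intro π hπ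
      rw [Finset.mem_filter, hi] at hπ
      exact ⟨π i, Finset.mem_filter.2 ⟨Finset.mem_univ _, hπ.2⟩, fun t => rfl⟩)
  rwa [Nat.descFactorial_one] at h

theorem Mom_B1 (i : α) (hi : V i ≠ i) : Fintype.card α *
    (Finset.univ.filter fun π : Perm α => U (π (V i)) = π i).card ≤
    2 * (Fintype.card α).factorial := by
  have hinj : Function.Injective ![i, V i] := by
    intro s t h
    fin_cases s <;> fin_cases t
    · rfl
    · exact absurd (show i = V i from h) (Ne.symm hi)
    · exact absurd (show V i = i from h) hi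
    · rfl
  have h := Mom_cnt (k := 2) ⟨![i, V i], hinj⟩ (Finset.univ : Finset α)
    (fun s => ![U s, s]) (Finset.univ.filter fun π : Perm α => U (π (V i)) = π i) (by
      intro π hπ
      rw [Finset.mem_filter] at hπ
      refine ⟨π (V i), Finset.mem_univ _, fun t => ?_⟩
      fin_cases t
      · exact hπ.2.symm
      · rfl)
  have hd : 2 ≤ Fintype.card α := Fintype.one_lt_card_iff.2 ⟨V i, i, hi⟩
  rw [Finset.card_univ, Nat.descFactorial_succ, Nat.descFactorial_one] at h
  set N := (Finset.univ.filter fun π : Perm α => U (π (V i)) = π i).card with hN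
  set d := Fintype.card α with hd'
  have h2 : d * ((d - 1) * N) ≤ d * d.factorial := by
    calc d * ((d - 1) * N) = (d - 1) * d * N := by ring
      _ ≤ _ := h
  have h3 : (d - 1) * N ≤ d.factorial := Nat.le_of_mul_le_mul_left h2 (by omega)
  calc d * N ≤ (2 * (d - 1)) * N := Nat.mul_le_mul_right _ (by omega)
    _ = 2 * ((d - 1) * N) := by ring
    _ ≤ 2 * d.factorial := Nat.mul_le_mul_left _ h3

theorem Mom_B2 (i j : α) (hi : V i ≠ i) (hj : V j ≠ j) (hij : j ≠ i) (h1 : j ≠ V i)
    (h2 : V j ≠ i) : Fintype.card α ^ 2 *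
    (Finset.univ.filter fun π : Perm α => U (π (V i)) = π i ∧ U (π (V j)) = π j).card ≤
    11 * (Fintype.card α).factorial := by
  have hVV : V i ≠ V j := fun h => hij (V.injective h).symm
  have hinj : Function.Injective ![i, V i, j, V j] := by
    intro s t h
    fin_cases s <;> fin_cases t <;> first | rfl | (exfalso; simp at h; tauto)
  have h := Mom_cnt (k := 4) ⟨![i, V i, j, V j], hinj⟩ (Finset.univ : Finset (α × α))
    (fun s => ![U s.1, s.1, U s.2, s.2])
    (Finset.univ.filter fun π : Perm α => U (π (V i)) = π i ∧ U (π (V j)) = π j) (by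
      intro π hπ
      rw [Finset.mem_filter] at hπ
      refine ⟨(π (V i), π (V j)), Finset.mem_univ _, fun t => ?_⟩
      fin_cases t
      · exact hπ.2.1.symm
      · rfl
      · exact hπ.2.2.symm
      · rfl)
  have hd : 4 ≤ Fintype.card α := by
    have := Fintype.card_le_of_injective _ hinj
    rwa [Fintype.card_fin] at this
  rw [Finset.card_univ, Fintype.card_prod] at h
  set N := (Finset.univ.filter fun π : Perm α => U (π (V i)) = π i ∧ U (π (V j)) = π j).card
    with hN
  set d := Fintype.card α with hd'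
  have e1 : d.descFactorial 4 = (d - 3) * ((d - 2) * ((d - 1) * d)) := by
    rw [Nat.descFactorial_succ, Nat.descFactorial_succ, Nat.descFactorial_succ,
      Nat.descFactorial_one]
  have e2 : d ^ 4 ≤ 11 * d.descFactorial 4 := by
    rw [e1]
    obtain ⟨k, hk⟩ := Nat.exists_eq_add_of_le hd
    rw [hk]
    have e3 : 4 + k - 3 = k + 1 := by omega
    have e4 : 4 + k - 2 = k + 2 := by omega
    have e5 : 4 + k - 1 = k + 3 := by omega
    rw [e3, e4, e5]
    nlinarith [Nat.zero_le k, Nat.zero_le (k ^ 2), Nat.zero_le (k ^ 3), Nat.zero_le (k ^ 4)]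
  have h3 : d ^ 2 * (d ^ 2 * N) ≤ d ^ 2 * (11 * d.factorial) := by
    calc d ^ 2 * (d ^ 2 * N) = d ^ 4 * N := by ring
      _ ≤ (11 * d.descFactorial 4) * N := Nat.mul_le_mul_right _ e2
      _ = 11 * (d.descFactorial 4 * N) := by ring
      _ ≤ 11 * (d * d * d.factorial) := Nat.mul_le_mul_left _ h
      _ = d ^ 2 * (11 * d.factorial) := by ring
  exact Nat.le_of_mul_le_mul_left h3 (by positivity)

theorem Mom_pair (i j : α) : Fintype.card α ^ 2 *
    (Finset.univ.filter fun π : Perm α => i ∈ MomB U V π ∧ j ∈ MomB U V π).card ≤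
    11 * (Fintype.card α).factorial + 2 * Fintype.card α * (Fintype.card α).factorial *
      ((if j = i then 1 else 0) + (if j = V i then 1 else 0) + (if V j = i then 1 else 0)) := by
  have hmem : ∀ (π : Perm α) (i : α), i ∈ MomB U V π ↔ (V i ≠ i ∧ U (π (V i)) = π i) := by
    intro π i
    unfold MomB
    rw [Finset.mem_filter]
    exact ⟨fun h => h.2, fun h => ⟨Finset.mem_univ _, h⟩⟩
  by_cases hi : V i = i
  · have : (Finset.univ.filter fun π : Perm α => i ∈ MomB U V π ∧ j ∈ MomB U V π) = ∅ := by
      rw [Finset.filter_eq_empty_iff]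
      intro π _ h
      exact ((hmem π i).1 h.1).1 hi
    rw [this, Finset.card_empty, mul_zero]
    exact Nat.zero_le _
  by_cases hj : V j = j
  · have : (Finset.univ.filter fun π : Perm α => i ∈ MomB U V π ∧ j ∈ MomB U V π) = ∅ := by
      rw [Finset.filter_eq_empty_iff]
      intro π _ h
      exact ((hmem π j).1 h.2).1 hj
    rw [this, Finset.card_empty, mul_zero]
    exact Nat.zero_le _
  by_cases hc : j = i ∨ j = V i ∨ V j = i
  · have h1 : 1 ≤ (if j = i then 1 else 0) + (if j = V i then 1 else 0) +
        (if V j = i then 1 else 0) := by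
      rcases hc with h | h | h
      · rw [if_pos h]; omega
      · rw [if_pos h]; omega
      · rw [if_pos h]; omega
    have h2 : (Finset.univ.filter fun π : Perm α => i ∈ MomB U V π ∧ j ∈ MomB U V π).card ≤
        (Finset.univ.filter fun π : Perm α => U (π (V i)) = π i).card := by
      apply Finset.card_le_card
      intro π hπ
      rw [Finset.mem_filter] at hπ ⊢
      exact ⟨hπ.1, ((hmem π i).1 hπ.2.1).2⟩
    calc Fintype.card α ^ 2 *
        (Finset.univ.filter fun π : Perm α => i ∈ MomB U V π ∧ j ∈ MomB U V π).card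
        ≤ Fintype.card α ^ 2 * (Finset.univ.filter fun π : Perm α => U (π (V i)) = π i).card :=
          Nat.mul_le_mul_left _ h2
      _ = Fintype.card α * (Fintype.card α *
          (Finset.univ.filter fun π : Perm α => U (π (V i)) = π i).card) := by ring
      _ ≤ Fintype.card α * (2 * (Fintype.card α).factorial) :=
          Nat.mul_le_mul_left _ (Mom_B1 U V i hi)
      _ = 2 * Fintype.card α * (Fintype.card α).factorial * 1 := by ring
      _ ≤ _ := le_trans (Nat.mul_le_mul_left _ h1) (Nat.le_add_left _ _)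
  · push Not at hc
    have h2 : (Finset.univ.filter fun π : Perm α => i ∈ MomB U V π ∧ j ∈ MomB U V π).card ≤
        (Finset.univ.filter fun π : Perm α => U (π (V i)) = π i ∧ U (π (V j)) = π j).card := by
      apply Finset.card_le_card
      intro π hπ
      rw [Finset.mem_filter] at hπ ⊢
      exact ⟨hπ.1, ((hmem π i).1 hπ.2.1).2, ((hmem π j).1 hπ.2.2).2⟩
    exact le_trans (Nat.mul_le_mul_left _ h2)
      (le_trans (Mom_B2 U V i j hi hj hc.1 hc.2.1 hc.2.2) (Nat.le_add_right _ _))

theorem Mom_sumB : ∑ π : Perm α, (MomB U V π).card ^ 2 ≤ 17 * (Fintype.card α).factorial := by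
  by_cases hd : Fintype.card α = 0
  · have : IsEmpty α := Fintype.card_eq_zero_iff.1 hd
    have h1 : ∀ π : Perm α, (MomB U V π).card ^ 2 = 0 := by
      intro π
      rw [Finset.eq_empty_of_isEmpty (MomB U V π), Finset.card_empty]
      rfl
    rw [Finset.sum_eq_zero fun π _ => h1 π]
    exact Nat.zero_le _
  have e1 : ∑ π : Perm α, (MomB U V π).card ^ 2 = ∑ p : α × α,
      (Finset.univ.filter fun π : Perm α => p.1 ∈ MomB U V π ∧ p.2 ∈ MomB U V π).card := by
    have h := Finset.sum_card_bipartiteAbove_eq_sum_card_bipartiteBelow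
      (s := (Finset.univ : Finset (Perm α))) (t := (Finset.univ : Finset (α × α)))
      (fun π p => p.1 ∈ MomB U V π ∧ p.2 ∈ MomB U V π)
    refine Eq.trans ?_ h
    apply Finset.sum_congr rfl
    intro π _
    rw [sq, ← Finset.card_product]
    congr 1
    ext p
    unfold Finset.bipartiteAbove
    rw [Finset.mem_product, Finset.mem_filter]
    exact ⟨fun h => ⟨Finset.mem_univ _, h⟩, fun h => h.2⟩
  have e2 : Fintype.card α ^ 2 * ∑ π : Perm α, (MomB U V π).card ^ 2 ≤
      Fintype.card α ^ 2 * (17 * (Fintype.card α).factorial) := by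
    rw [e1, Finset.mul_sum]
    refine le_trans (Finset.sum_le_sum fun p _ => Mom_pair U V p.1 p.2) ?_
    rw [Finset.sum_add_distrib, Finset.sum_const, ← Finset.mul_sum, Finset.card_univ,
      Fintype.card_prod, Finset.sum_add_distrib, Finset.sum_add_distrib]
    have f1 : ∑ p : α × α, (if p.2 = p.1 then 1 else 0) = Fintype.card α := by
      rw [Fintype.sum_prod_type]
      simp
    have f2 : ∑ p : α × α, (if p.2 = V p.1 then 1 else 0) = Fintype.card α := by
      rw [Fintype.sum_prod_type]
      simp
    have f3 : ∑ p : α × α, (if V p.2 = p.1 then 1 else 0) = Fintype.card α := by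
      rw [Fintype.sum_prod_type_right]
      simp
    rw [f1, f2, f3, smul_eq_mul]
    apply le_of_eq
    ring
  exact Nat.le_of_mul_le_mul_left e2 (by positivity)

theorem Mom_sumA : ∑ π : Perm α, (MomA U V π).card ^ 2 ≤
    (MomF U).card * (MomF V).card * (Fintype.card α).factorial := by
  by_cases hd : Fintype.card α = 0
  · have : IsEmpty α := Fintype.card_eq_zero_iff.1 hd
    have h1 : ∀ π : Perm α, (MomA U V π).card ^ 2 = 0 := by
      intro π
      rw [Finset.eq_empty_of_isEmpty (MomA U V π), Finset.card_empty]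
      rfl
    rw [Finset.sum_eq_zero fun π _ => h1 π]
    exact Nat.zero_le _
  have e0 : ∀ π : Perm α, (MomA U V π).card ^ 2 ≤ (MomF V).card * (MomA U V π).card := by
    intro π
    rw [sq]
    apply Nat.mul_le_mul_right
    apply Finset.card_le_card
    intro i hi
    unfold MomA at hi
    unfold MomF
    rw [Finset.mem_filter] at hi ⊢
    exact ⟨hi.1, hi.2.1⟩
  have e1 : ∑ π : Perm α, (MomA U V π).card = ∑ i ∈ MomF V,
      (Finset.univ.filter fun π : Perm α => U (π (V i)) = π i).card := by
    have h := Finset.sum_card_bipartiteAbove_eq_sum_card_bipartiteBelow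
      (s := (Finset.univ : Finset (Perm α))) (t := MomF V) (fun π i => U (π (V i)) = π i)
    refine Eq.trans ?_ h
    apply Finset.sum_congr rfl
    intro π _
    congr 1
    ext i
    unfold Finset.bipartiteAbove MomA MomF
    rw [Finset.mem_filter, Finset.mem_filter, Finset.mem_filter]
    tauto
  have e2 : Fintype.card α * ∑ π : Perm α, (MomA U V π).card ≤
      (MomF V).card * ((MomF U).card * (Fintype.card α).factorial) := by
    rw [e1, Finset.mul_sum]
    refine le_trans (Finset.sum_le_sum (g := fun _ => (MomF U).card * (Fintype.card α).factorial)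
      fun i hi => ?_) ?_
    · unfold MomF at hi
      rw [Finset.mem_filter] at hi
      exact Mom_A1 U V i hi.2
    · rw [Finset.sum_const, smul_eq_mul]
  have e3 : (MomF V).card ≤ Fintype.card α := Finset.card_le_univ _
  have e4 : Fintype.card α * ∑ π : Perm α, (MomA U V π).card ^ 2 ≤
      Fintype.card α * ((MomF U).card * (MomF V).card * (Fintype.card α).factorial) := by
    calc Fintype.card α * ∑ π : Perm α, (MomA U V π).card ^ 2
        ≤ Fintype.card α * ∑ π : Perm α, (MomF V).card * (MomA U V π).card :=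
          Nat.mul_le_mul_left _ (Finset.sum_le_sum fun π _ => e0 π)
      _ = (MomF V).card * (Fintype.card α * ∑ π : Perm α, (MomA U V π).card) := by
          rw [← Finset.mul_sum]; ring
      _ ≤ (MomF V).card * ((MomF V).card * ((MomF U).card * (Fintype.card α).factorial)) :=
          Nat.mul_le_mul_left _ e2
      _ ≤ Fintype.card α * ((MomF V).card * ((MomF U).card * (Fintype.card α).factorial)) :=
          Nat.mul_le_mul_right _ e3
      _ = _ := by ring
  exact Nat.le_of_mul_le_mul_left e4 (by omega)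

end

/-- **MOM.** -/
theorem thm_Mom : St_Mom := by
  refine ⟨34, by norm_num, ?_⟩
  intro α _ _ U V
  have hA : (∑ π : Perm α, ((MomA U V π).card : ℝ) ^ 2) ≤
      fx U * fx V * ((Fintype.card α).factorial : ℝ) := by
    have h := Mom_sumA U V
    have h2 : ((∑ π : Perm α, (MomA U V π).card ^ 2 : ℕ) : ℝ) ≤
      (((MomF U).card * (MomF V).card * (Fintype.card α).factorial : ℕ) : ℝ) :=
      Nat.cast_le.2 h
    push_cast at h2
    exact h2
  have hB : (∑ π : Perm α, ((MomB U V π).card : ℝ) ^ 2) ≤
      17 * ((Fintype.card α).factorial : ℝ) := by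
    have h := Mom_sumB U V
    have h2 : ((∑ π : Perm α, (MomB U V π).card ^ 2 : ℕ) : ℝ) ≤
      ((17 * (Fintype.card α).factorial : ℕ) : ℝ) := Nat.cast_le.2 h
    push_cast at h2
    exact h2
  have h1 : (∑ π : Perm α, fx (π⁻¹ * U * π * V) ^ 2) ≤
      ∑ π : Perm α, (2 * ((MomA U V π).card : ℝ) ^ 2 + 2 * ((MomB U V π).card : ℝ) ^ 2) := by
    apply Finset.sum_le_sum
    intro π _
    rw [Mom_split]
    nlinarith [sq_nonneg (((MomA U V π).card : ℝ) - ((MomB U V π).card : ℝ))]
  rw [Finset.sum_add_distrib, ← Finset.mul_sum, ← Finset.mul_sum] at h1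
  have hfU : 0 ≤ fx U := Nat.cast_nonneg _
  have hfV : 0 ≤ fx V := Nat.cast_nonneg _
  have hd : (0 : ℝ) ≤ ((Fintype.card α).factorial : ℝ) := Nat.cast_nonneg _
  have hUV : 0 ≤ fx U * fx V * ((Fintype.card α).factorial : ℝ) :=
    mul_nonneg (mul_nonneg hfU hfV) hd
  nlinarith

end Pool.Agent.PWR
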