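import Pool.Agent.PWR.NnnAux

/-! Module Nnn. -/

set_option autoImplicit false

namespace Pool.Agent.PWR

open Equiv Pool.Agent.PW
open scoped Classical

/-- The case `t = s`. -/
theorem Nnn_same (hUpp : St_Upp) (hPsi : St_Psi) {β : Type} [Fintype β]
    [DecidableEq β] [Nonempty β] (Z : Perm (Option β)) :
    (∑ e : Perm β, fl e * nr none (optionCongr e * Z)) ≤
      if Z none = none then ((Fintype.card β - 1).factorial : ℝ) * psi (Z.support.card - 8)
        else 0 := by
  split_ifs with h
  · have hd := Nnn_dec Z
    rw [h, swap_self] at hd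
    have hd' : Z = optionCongr (removeNone Z) := hd
    generalize removeNone Z = w at hd'
    subst hd'
    have h1 : (∑ e : Perm β, fl e * nr none (optionCongr e * optionCongr w)) = ff w := by
      refine Finset.sum_congr rfl fun e _ => ?_
      rw [← Rec_mul, Nnn_nr_opt]
    rw [h1]
    exact Nnn_ff_le hUpp hPsi w (by rw [Nnn_supp_opt]; omega)
  · refine le_of_eq (Finset.sum_eq_zero fun e _ => ?_)
    rw [Nnn_nr_ne, mul_zero]
    rw [Perm.mul_apply]
    intro h1
    apply h
    exact (optionCongr e : Perm (Option β)).injective (h1.trans rfl)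

/-- The case `t ≠ s`. -/
theorem Nnn_diff (hPsi : St_Psi) (hVal : St_Val) {β : Type} [Fintype β]
    [DecidableEq β] (Z : Perm (Option β)) (t : β) (h2 : 2 ≤ Fintype.card β) :
    (∑ e : Perm β, fl e * nr (some t) (optionCongr e * Z)) ≤
      ((Fintype.card β - 2).factorial : ℝ) * psi (Z.support.card - 8) := by
  have hpos : 0 ≤ ((Fintype.card β - 2).factorial : ℝ) * psi (Z.support.card - 8) :=
    mul_nonneg (Nat.cast_nonneg _) (hPsi.2.1 _).le
  cases hr : Z (some t) with
  | none =>
    refine le_trans (le_of_eq (Finset.sum_eq_zero fun e _ => ?_)) hpos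
    rw [Nnn_nr_ne, mul_zero]
    rw [Perm.mul_apply, hr]
    exact Option.some_ne_none t ∘ Eq.symm
  | some r =>
    -- the permutation `Z σ`
    have hZ' : (Z * swap none (some t)) none = some r := by
      rw [Perm.mul_apply, swap_apply_left, hr]
    have hdec := Nnn_dec (Z * swap none (some t))
    rw [hZ'] at hdec
    generalize removeNone (Z * swap none (some t)) = w at hdec
    have hZ : Z = swap none (some r) * optionCongr w * swap none (some t) := by
      rw [← hdec, mul_assoc, swap_mul_self, mul_one]
    have hterm : ∀ e : Perm β, nr (some t) (optionCongr e * Z) =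
        if e r = t then fl (e * w) else 0 := by
      intro e
      have h3 : swap none (some t) * (optionCongr e * Z) * (swap none (some t))⁻¹ =
          swap none (some t) * swap none (some (e r)) * optionCongr (e * w) := by
        have h4 : (optionCongr e * swap none (some r) : Perm (Option β)) =
            swap none (some (e r)) * optionCongr e := by
          rw [mul_swap_eq_swap_mul]
          rfl
        calc swap none (some t) * (optionCongr e * Z) * (swap none (some t))⁻¹ =
            swap none (some t) * (optionCongr e * swap none (some r)) * optionCongr w *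
              (swap none (some t) * (swap none (some t))⁻¹) := by
                rw [hZ]
                simp only [mul_assoc]
          _ = _ := by
                rw [h4, mul_inv_cancel, mul_one, Rec_mul]
                simp only [mul_assoc]
      have h5 := Nnn_nr_conj (swap none (some t)) (some t) (optionCongr e * Z)
      rw [swap_apply_right, h3] at h5
      rw [← h5]
      split_ifs with her
      · rw [her, swap_mul_self, one_mul, Nnn_nr_opt]
      · apply Nnn_nr_ne
        rw [Perm.mul_apply, Perm.mul_apply]
        change swap none (some t) (swap none (some (e r)) none) ≠ none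
        rw [swap_apply_left, swap_apply_of_ne_of_ne (by simp) (by simpa using her)]
        simp
    have hsum : (∑ e : Perm β, fl e * nr (some t) (optionCongr e * Z)) =
        ∑ e : Perm β, if e r = t then fl e * fl (e * w) else 0 := by
      refine Finset.sum_congr rfl fun e _ => ?_
      rw [hterm]
      split_ifs <;> simp
    rw [hsum]
    refine (hVal β w r t h2).trans (mul_le_mul_of_nonneg_left (hPsi.1 ?_) (Nat.cast_nonneg _))
    have h6 := Nnn_supp_mul (swap none (some r) * optionCongr w) (swap none (some t))
    have h7 := Nnn_supp_mul (swap none (some r)) (optionCongr w)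
    have h8 := Nnn_supp_swap none (some t)
    have h9 := Nnn_supp_swap none (some r)
    rw [← hZ] at h6
    rw [Nnn_supp_opt] at h7
    omega

theorem Nnn_pair (hUpp : St_Upp) (hPsi : St_Psi) (hVal : St_Val) {α : Type} [Fintype α]
    [DecidableEq α] (z : Perm α) (s t : α) (h3 : 3 ≤ Fintype.card α) :
    (∑ x : Perm α, nr s x * nr t (x * z)) ≤
      (if s = t then if z s = s then
        ((Fintype.card α - 2).factorial : ℝ) * psi (z.support.card - 8) else 0 else 0) +
      ((Fintype.card α - 3).factorial : ℝ) * psi (z.support.card - 8) := by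
  set e : α ≃ Option {b // b ≠ s} := (optionSubtypeNe s).symm with he
  have hes : e s = none := optionSubtypeNe_symm_self s
  have hes' : e.symm none = s := by rw [← hes, symm_apply_apply]
  have hcard : Fintype.card α = Fintype.card {b // b ≠ s} + 1 := by
    rw [Fintype.card_congr e, Fintype.card_option]
  have hne : Nonempty {b // b ≠ s} := by
    obtain ⟨j, hj⟩ := Fintype.exists_ne_of_one_lt_card (by omega) s
    exact ⟨⟨j, hj⟩⟩
  have h4 : (∑ x : Perm α, nr s x * nr t (x * z)) =
      ∑ w : Perm {b // b ≠ s}, fl w * nr (e t) (optionCongr w * e.permCongr z) := by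
    rw [← Nnn_sum_near (fun y => nr (e t) (y * e.permCongr z)), ← (e.permCongr).sum_comp]
    refine Finset.sum_congr rfl fun x _ => ?_
    rw [← permCongr_mul, Nnn_tr_nr]
    congr 1
    rw [← hes, Nnn_tr_nr]
  have hpos : 0 ≤ ((Fintype.card α - 3).factorial : ℝ) * psi (z.support.card - 8) :=
    mul_nonneg (Nat.cast_nonneg _) (hPsi.2.1 _).le
  rw [h4]
  by_cases hst : s = t
  · subst hst
    rw [if_pos rfl, hes]
    have h5 := Nnn_same hUpp hPsi (e.permCongr z)
    rw [Nnn_tr_supp] at h5
    have h6 : (e.permCongr z) none = none ↔ z s = s := by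
      rw [permCongr_apply, hes', ← hes]
      exact e.injective.eq_iff
    have h7 : Fintype.card α - 2 = Fintype.card {b // b ≠ s} - 1 := by omega
    rw [h7]
    by_cases h8 : z s = s
    · rw [if_pos (h6.2 h8)] at h5
      rw [if_pos h8]
      linarith
    · rw [if_neg (fun h => h8 (h6.1 h))] at h5
      rw [if_neg h8]
      linarith
  · rw [if_neg hst, zero_add]
    have het : e t = some ⟨t, Ne.symm hst⟩ := optionSubtypeNe_symm_of_ne (Ne.symm hst)
    rw [het]
    have h5 := Nnn_diff hPsi hVal (e.permCongr z) ⟨t, Ne.symm hst⟩ (by omega)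
    rw [Nnn_tr_supp] at h5
    have h7 : Fintype.card α - 3 = Fintype.card {b // b ≠ s} - 2 := by omega
    rw [h7]
    exact h5

theorem thm_Nnn (_hOpt : St_Opt) (hUpp : St_Upp) (hPsi : St_Psi) (hVal : St_Val) : St_Nnn := by
  intro α _ _ z h3
  have h1 : nn z = ∑ s : α, ∑ t : α, ∑ x : Perm α, nr s x * nr t (x * z) := by
    unfold nn nrs
    have e1 : ∀ x : Perm α, (∑ s, nr s x) * ∑ t, nr t (x * z) =
        ∑ s : α, ∑ t : α, nr s x * nr t (x * z) := fun x => Finset.sum_mul_sum _ _ _ _
    rw [Finset.sum_congr rfl fun x _ => e1 x, Finset.sum_comm]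
    exact Finset.sum_congr rfl fun s _ => Finset.sum_comm
  have hfix : (((Finset.univ : Finset α).filter fun s => z s = s).card : ℝ) =
      (Fintype.card α : ℝ) - z.support.card := by
    have h4 := Finset.card_filter_add_card_filter_not (s := (Finset.univ : Finset α))
      (fun s => z s = s)
    have h5 : ((Finset.univ : Finset α).filter fun s => ¬ z s = s) = z.support := by
      ext i
      rw [Finset.mem_filter, Perm.mem_support]
      exact ⟨fun h => h.2, fun h => ⟨Finset.mem_univ _, h⟩⟩
    rw [h5, Finset.card_univ] at h4
    rw [← h4]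
    push_cast
    ring
  set K := psi (z.support.card - 8) with hK
  rw [h1]
  calc (∑ s : α, ∑ t : α, ∑ x : Perm α, nr s x * nr t (x * z)) ≤
      ∑ s : α, ∑ t : α, ((if s = t then if z s = s then
        ((Fintype.card α - 2).factorial : ℝ) * K else 0 else 0) +
        ((Fintype.card α - 3).factorial : ℝ) * K) :=
        Finset.sum_le_sum fun s _ => Finset.sum_le_sum fun t _ =>
          Nnn_pair hUpp hPsi hVal z s t h3
    _ = (∑ s : α, if z s = s then ((Fintype.card α - 2).factorial : ℝ) * K else 0) +
        (Fintype.card α : ℝ) ^ 2 * (((Fintype.card α - 3).factorial : ℝ) * K) := by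
        simp only [Finset.sum_add_distrib, Finset.sum_ite_eq, Finset.mem_univ, if_true,
          Finset.sum_const, Finset.card_univ, nsmul_eq_mul]
        ring
    _ = _ := by
        rw [← Finset.sum_filter, Finset.sum_const, nsmul_eq_mul, hfix]
        ring

end Pool.Agent.PWR
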