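import Pool.Agent.PWR.St

/-! Module Rec. -/

set_option autoImplicit false

namespace Pool.Agent.PWR

open Equiv Pool.Agent.PW
open scoped Classical

theorem Rec_sum {α : Type} [Fintype α] [DecidableEq α] (f : Perm (Option α) → ℝ) :
    ∑ x, f x = ∑ i : Option α, ∑ e : Perm α, f (swap none i * optionCongr e) := by
  rw [← (Perm.decomposeOption (α := α)).symm.sum_comp, Fintype.sum_prod_type]
  rfl

theorem Rec_mul {α : Type} (e w : Perm α) :
    optionCongr (e * w) = (optionCongr e * optionCongr w : Perm (Option α)) := by
  ext1 x
  cases x <;> rfl

theorem Rec_full_conj {α : Type} (c x : Perm α) (hx : Full x) : Full (c * x * c⁻¹) := by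
  intro i j
  have := (hx (c⁻¹ i) (c⁻¹ j)).conj (g := c)
  rwa [← Perm.mul_apply, ← Perm.mul_apply, mul_inv_cancel, Perm.one_apply, Perm.one_apply] at this

theorem Rec_fl_conj {α : Type} (c x : Perm α) : fl (c * x * c⁻¹) = fl x := by
  unfold fl
  by_cases hx : Full x
  · rw [if_pos hx, if_pos (Rec_full_conj c x hx)]
  · rw [if_neg hx, if_neg]
    intro h
    apply hx
    have := Rec_full_conj c⁻¹ _ h
    have e : c⁻¹ * (c * x * c⁻¹) * c⁻¹⁻¹ = x := by group
    rwa [e] at this

theorem Rec_fl_some (hOpt : St_Opt) {α : Type} [DecidableEq α] [Nonempty α] (t : α) (e : Perm α) :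
    fl (swap none (some t) * optionCongr e) = fl e := by
  unfold fl
  have h := hOpt α (some t) e
  by_cases hx : Full e
  · rw [if_pos hx, if_pos (h.2 ⟨by simp, hx⟩)]
  · rw [if_neg hx, if_neg]
    intro h2
    exact hx (h.1 h2).2

theorem Rec_fl_none (hOpt : St_Opt) {α : Type} [DecidableEq α] [Nonempty α] (e : Perm α) :
    fl (optionCongr e) = 0 := by
  unfold fl
  have h := hOpt α none e
  rw [swap_self] at h
  rw [if_neg]
  intro h2
  exact (h.1 h2).1 rfl

theorem Rec_apply_none {α : Type} [DecidableEq α] (t : Option α) (e : Perm α) :
    (swap none t * optionCongr e) none = t := by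
  rw [Perm.mul_apply, optionCongr_apply, Option.map_none, swap_apply_left]

theorem Rec_swap {α : Type} [DecidableEq α] {q t : α} (h : t ≠ q) :
    (swap none (some q) * swap none (some t) : Perm (Option α)) =
      swap none (some t) * optionCongr (swap q t) := by
  have hs : (optionCongr (swap q t) : Perm (Option α)) = swap (some q) (some t) := optionCongr_swap q t
  rw [hs]
  have h2 := swap_mul_swap_mul_swap (x := (some q : Option α)) (y := some t) (z := none)
    (by simpa using h.symm) (by simp)
  ext1 x
  rw [Perm.mul_apply, Perm.mul_apply]
  by_cases hx0 : x = none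
  · subst hx0
    rw [swap_apply_left, swap_apply_of_ne_of_ne (x := some t) (by simp) (by simpa using h),
      swap_apply_of_ne_of_ne (x := (none : Option α)) (by simp) (by simp), swap_apply_left]
  by_cases hxt : x = some t
  · subst hxt
    rw [swap_apply_right, swap_apply_left, swap_apply_right,
      swap_apply_of_ne_of_ne (x := some q) (by simp) (by simpa using h.symm)]
  by_cases hxq : x = some q
  · subst hxq
    rw [swap_apply_of_ne_of_ne (x := some q) (by simp) (by simpa using h.symm), swap_apply_right,
      swap_apply_left, swap_apply_right]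
  rw [swap_apply_of_ne_of_ne hx0 hxt, swap_apply_of_ne_of_ne hx0 hxq,
    swap_apply_of_ne_of_ne hxq hxt, swap_apply_of_ne_of_ne hx0 hxt]

theorem Rec_fl_z (hOpt : St_Opt) {α : Type} [DecidableEq α] [Nonempty α] (q t : α) (e w : Perm α) :
    fl (swap none (some t) * optionCongr e * (optionCongr w * swap none (some q))) =
      if t = q then 0 else fl (e * (w * swap q t)) := by
  rw [← Rec_fl_conj (swap none (some q))]
  have e1 : swap none (some q) * (swap none (some t) * optionCongr e *
      (optionCongr w * swap none (some q))) * (swap none (some q))⁻¹ =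
      (swap none (some q) * swap none (some t)) * optionCongr (e * w) := by
    rw [Rec_mul]
    group
  rw [e1]
  split_ifs with h
  · rw [h, swap_mul_self, one_mul]
    exact Rec_fl_none hOpt _
  · rw [Rec_swap h, mul_assoc, ← Rec_mul, Rec_fl_some hOpt, ← Rec_fl_conj (swap q t)]
    congr 1
    rw [← mul_assoc, swap_mul_self, one_mul, swap_inv, mul_assoc]

theorem thm_Rec (hOpt : St_Opt) : St_Rec := by
  intro α _ _ _ w
  have h1 : ∀ t : α, (∑ x : Perm (Option α),
      if x none = some t then fl x * fl (x * optionCongr w) else 0) = ff w := by
    intro t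
    rw [Rec_sum, Finset.sum_eq_single (some t)]
    · unfold ff
      refine Finset.sum_congr rfl fun e _ => ?_
      rw [Rec_apply_none, if_pos rfl, mul_assoc, ← Rec_mul, Rec_fl_some hOpt, Rec_fl_some hOpt]
    · intro i _ hi
      refine Finset.sum_eq_zero fun e _ => ?_
      rw [Rec_apply_none, if_neg hi]
    · intro h
      exact absurd (Finset.mem_univ _) h
  have h2 : ∀ q t : α, (∑ x : Perm (Option α), if x none = some t then
      fl x * fl (x * (optionCongr w * swap none (some q))) else 0) =
      if t = q then 0 else ff (w * swap q t) := by
    intro q t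
    rw [Rec_sum, Finset.sum_eq_single (some t)]
    · have e1 : ∀ e : Perm α, (if (swap none (some t) * optionCongr e) none = some t then
          fl (swap none (some t) * optionCongr e) *
            fl (swap none (some t) * optionCongr e * (optionCongr w * swap none (some q))) else 0) =
          fl e * if t = q then 0 else fl (e * (w * swap q t)) := by
        intro e
        rw [Rec_apply_none, if_pos rfl, Rec_fl_some hOpt, Rec_fl_z hOpt]
      rw [Finset.sum_congr rfl fun e _ => e1 e]
      split_ifs with h
      · simp
      · rfl
    · intro i _ hi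
      refine Finset.sum_eq_zero fun e _ => ?_
      rw [Rec_apply_none, if_neg hi]
    · intro h
      exact absurd (Finset.mem_univ _) h
  have h3 : ∀ z : Perm (Option α), ff z = ∑ t : α, ∑ x : Perm (Option α),
      if x none = some t then fl x * fl (x * z) else 0 := by
    intro z
    rw [Finset.sum_comm]
    unfold ff
    refine Finset.sum_congr rfl fun x _ => ?_
    cases hx : x none with
    | none =>
      have h0 : fl x = 0 := by
        have : x = optionCongr (removeNone x) := by
          have h4 := (Perm.decomposeOption (α := α)).symm_apply_apply x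
          rw [← h4]
          have h5 : Perm.decomposeOption x = (x none, removeNone x) := rfl
          rw [h5, hx]
          show swap none none * optionCongr (removeNone x) = _
          rw [swap_self]
          rfl
        rw [this]
        exact Rec_fl_none hOpt _
      rw [h0]
      simp
    | some a =>
      rw [Finset.sum_eq_single a]
      · rw [if_pos rfl]
      · intro b _ hb
        rw [if_neg]
        simpa using hb.symm
      · intro h
        exact absurd (Finset.mem_univ _) h
  refine ⟨h1, h2, ?_, fun q => ?_⟩
  · rw [h3, Finset.sum_congr rfl fun t _ => h1 t, Finset.sum_const, Finset.card_univ, nsmul_eq_mul]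
  · rw [h3, Finset.sum_congr rfl fun t _ => h2 q t,
      ← Finset.add_sum_erase Finset.univ _ (Finset.mem_univ q), if_pos rfl, zero_add]
    refine Finset.sum_congr rfl fun t ht => ?_
    rw [if_neg (Finset.ne_of_mem_erase ht)]

end Pool.Agent.PWR
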