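import Pool.Agent.PWR.Opt
import Pool.Agent.PWR.Rec

/-! Auxiliary lemmas for the modules Val, Fnn, Nnn: transport and supports. -/

set_option autoImplicit false

namespace Pool.Agent.PWR

open Equiv Pool.Agent.PW
open scoped Classical

/-! ### Transport -/

theorem Nnn_tr_same {α β : Type} (e : α ≃ β) (x : Perm α) {i j : α} (h : x.SameCycle i j) :
    (e.permCongr x).SameCycle (e i) (e j) := by
  obtain ⟨k, hk⟩ := h
  refine ⟨k, ?_⟩
  have h1 : (e.permCongr x) ^ k = e.permCongr (x ^ k) := (map_zpow e.permCongrHom x k).symm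
  rw [h1, permCongr_apply, symm_apply_apply, hk]

theorem Nnn_tr_symm {α β : Type} (e : α ≃ β) (x : Perm α) :
    e.symm.permCongr (e.permCongr x) = x := by
  ext1 i
  rw [permCongr_apply, permCongr_apply, symm_symm, symm_apply_apply, symm_apply_apply]

theorem Nnn_tr_full {α β : Type} (e : α ≃ β) (x : Perm α) : Full (e.permCongr x) ↔ Full x := by
  constructor
  · intro h i j
    have h1 := Nnn_tr_same e.symm _ (h (e i) (e j))
    rwa [Nnn_tr_symm, symm_apply_apply, symm_apply_apply] at h1
  · intro h i j
    have h1 := Nnn_tr_same e _ (h (e.symm i) (e.symm j))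
    rwa [apply_symm_apply, apply_symm_apply] at h1

theorem Nnn_tr_near1 {α β : Type} (e : α ≃ β) (s : α) (x : Perm α) (h : Near s x) :
    Near (e s) (e.permCongr x) := by
  refine ⟨by rw [permCongr_apply, symm_apply_apply, h.1], fun i j hi hj => ?_⟩
  have h1 := Nnn_tr_same e _ (h.2 (e.symm i) (e.symm j)
    (fun h2 => hi (by rw [← h2, apply_symm_apply])) (fun h2 => hj (by rw [← h2, apply_symm_apply])))
  rwa [apply_symm_apply, apply_symm_apply] at h1

theorem Nnn_tr_near {α β : Type} (e : α ≃ β) (s : α) (x : Perm α) :
    Near (e s) (e.permCongr x) ↔ Near s x := by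
  refine ⟨fun h => ?_, Nnn_tr_near1 e s x⟩
  have h1 := Nnn_tr_near1 e.symm _ _ h
  rwa [Nnn_tr_symm, symm_apply_apply] at h1

theorem Nnn_tr_fl {α β : Type} (e : α ≃ β) (x : Perm α) : fl (e.permCongr x) = fl x := by
  unfold fl
  exact if_congr (Nnn_tr_full e x) rfl rfl

theorem Nnn_tr_nr {α β : Type} (e : α ≃ β) (s : α) (x : Perm α) :
    nr (e s) (e.permCongr x) = nr s x := by
  unfold nr
  exact if_congr (Nnn_tr_near e s x) rfl rfl

theorem Nnn_tr_supp {α β : Type} [Fintype α] [DecidableEq α] [Fintype β] [DecidableEq β]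
    (e : α ≃ β) (x : Perm α) : (e.permCongr x).support.card = x.support.card := by
  have h : (e.permCongr x).support = x.support.map e.toEmbedding := by
    ext b
    rw [Finset.mem_map_equiv, Perm.mem_support, Perm.mem_support, permCongr_apply]
    exact not_congr (apply_eq_iff_eq_symm_apply e)
  rw [h, Finset.card_map]

/-! ### Supports -/

theorem Nnn_supp_opt {β : Type} [Fintype β] [DecidableEq β] (w : Perm β) :
    (Perm.support (optionCongr w : Perm (Option β))).card = w.support.card := by
  have h : Perm.support (optionCongr w : Perm (Option β)) =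
      w.support.map Function.Embedding.some := by
    ext b
    cases b with
    | none => simp
    | some b => simp
  rw [h, Finset.card_map]

theorem Nnn_supp_swap {α : Type} [Fintype α] [DecidableEq α] (a b : α) :
    (swap a b).support.card ≤ 2 := by
  by_cases h : a = b
  · rw [h, swap_self]
    have : Perm.support (Equiv.refl α : Perm α) = ∅ := Perm.support_one
    rw [this]
    simp
  · rw [Perm.card_support_swap h]

theorem Nnn_supp_mul {α : Type} [Fintype α] [DecidableEq α] (a b : Perm α) :
    (a * b).support.card ≤ a.support.card + b.support.card :=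
  (Finset.card_le_card (Perm.support_mul_le a b)).trans (Finset.card_union_le _ _)

theorem Nnn_supp_mul' {α : Type} [Fintype α] [DecidableEq α] (a b : Perm α) :
    a.support.card ≤ (a * b).support.card + b.support.card := by
  have h := Nnn_supp_mul (a * b) b⁻¹
  rwa [mul_inv_cancel_right, Perm.support_inv] at h

/-! ### Decompositions -/

theorem Nnn_opt_inv {β : Type} (w : Perm β) :
    (optionCongr w⁻¹ : Perm (Option β)) = (optionCongr w)⁻¹ := by
  refine eq_inv_of_mul_eq_one_left ?_
  rw [← Rec_mul, inv_mul_cancel]
  ext1 x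
  cases x <;> rfl

theorem Nnn_dec {β : Type} [DecidableEq β] (Z : Perm (Option β)) :
    Z = swap none (Z none) * optionCongr (removeNone Z) :=
  ((Perm.decomposeOption (α := β)).symm_apply_apply Z).symm

theorem Nnn_dec' {β : Type} [DecidableEq β] (Z : Perm (Option β)) : ∃ w : Perm β,
    Z = optionCongr w ∨ ∃ q, Z = optionCongr w * swap none (some q) := by
  have h := Nnn_dec Z⁻¹
  have h2 : Z = optionCongr (removeNone Z⁻¹)⁻¹ * swap none (Z⁻¹ none) := by
    have h3 := congrArg (fun x : Perm (Option β) => x⁻¹) h
    simp only [inv_inv, mul_inv_rev, swap_inv] at h3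
    rw [Nnn_opt_inv]
    exact h3
  refine ⟨(removeNone Z⁻¹)⁻¹, ?_⟩
  cases hq : Z⁻¹ none with
  | none =>
    left
    rw [hq, swap_self] at h2
    exact h2
  | some q =>
    right
    rw [hq] at h2
    exact ⟨q, h2⟩

theorem Nnn_near_opt {β : Type} (w : Perm β) :
    Near none (optionCongr w : Perm (Option β)) ↔ Full w := by
  constructor
  · intro h a b
    exact Opt_gen (optionCongr w) w (fun y => y.getD a) (fun y => by
      cases y with
      | none => exact Perm.SameCycle.refl _ _
      | some c => exact Perm.sameCycle_apply_right.2 (Perm.SameCycle.refl _ _))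
      (h.2 (some a) (some b) (by simp) (by simp))
  · intro h
    refine ⟨rfl, fun i j hi hj => ?_⟩
    cases i with
    | none => exact absurd rfl hi
    | some a =>
      cases j with
      | none => exact absurd rfl hj
      | some b =>
        exact Opt_gen w (optionCongr w : Perm (Option β)) some (fun y =>
          Perm.sameCycle_apply_right.2 (Perm.SameCycle.refl _ (some y))) (h a b)

theorem Nnn_nr_opt {β : Type} (w : Perm β) :
    nr none (optionCongr w : Perm (Option β)) = fl w := by
  unfold nr fl
  exact if_congr (Nnn_near_opt w) rfl rfl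

theorem Nnn_nr_ne {α : Type} {s : α} {x : Perm α} (h : x s ≠ s) : nr s x = 0 := by
  unfold nr
  exact if_neg fun h1 => h h1.1

theorem Nnn_nr_conj {α : Type} (c : Perm α) (s : α) (x : Perm α) :
    nr (c s) (c * x * c⁻¹) = nr s x := by
  have h := Nnn_tr_nr c s x
  rw [← h]
  congr 1

/-- Sum over the permutations which fix `none`. -/
theorem Nnn_sum_near {β : Type} [Fintype β] [DecidableEq β] (f : Perm (Option β) → ℝ) :
    (∑ x : Perm (Option β), nr none x * f x) = ∑ e : Perm β, fl e * f (optionCongr e) := by
  rw [Rec_sum, Finset.sum_eq_single none]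
  · refine Finset.sum_congr rfl fun e _ => ?_
    rw [swap_self]
    change nr none (optionCongr e) * f (optionCongr e) = _
    rw [Nnn_nr_opt]
  · intro i _ hi
    refine Finset.sum_eq_zero fun e _ => ?_
    rw [Nnn_nr_ne, zero_mul]
    rw [Rec_apply_none]
    exact hi
  · intro h
    exact absurd (Finset.mem_univ _) h

/-! ### Bounds -/

theorem Nnn_ff_le (hUpp : St_Upp) (hPsi : St_Psi) {β : Type} [Fintype β] [DecidableEq β]
    [Nonempty β] (w : Perm β) {k : ℕ} (hk : k ≤ w.support.card) :
    ff w ≤ ((Fintype.card β - 1).factorial : ℝ) * psi k :=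
  (hUpp β w).trans (mul_le_mul_of_nonneg_left (hPsi.1 hk) (Nat.cast_nonneg _))

end Pool.Agent.PWR
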