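import Pool.Agent.PWR.St

/-! Module Opt. -/

set_option autoImplicit false

namespace Pool.Agent.PWR

open Equiv Pool.Agent.PW
open scoped Classical

theorem Opt_gen {β γ : Type} (x : Perm β) (e : Perm γ) (π : β → γ)
    (h : ∀ y, e.SameCycle (π y) (π (x y))) {y y' : β} (hy : x.SameCycle y y') :
    e.SameCycle (π y) (π y') := by
  have hnat : ∀ (k : ℕ) (y : β), e.SameCycle (π y) (π ((x ^ k) y)) := by
    intro k
    induction k with
    | zero =>
      intro y
      rw [pow_zero, Perm.one_apply]
    | succ k ih =>
      intro y
      rw [pow_succ', Perm.mul_apply]
      exact (ih y).trans (h _)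
  obtain ⟨k, hk⟩ := hy
  obtain ⟨m, rfl | rfl⟩ := k.eq_nat_or_neg
  · rw [zpow_natCast] at hk
    rw [← hk]
    exact hnat m y
  · have : (x ^ m) y' = y := by
      rw [← hk, ← Perm.mul_apply, zpow_neg, zpow_natCast, mul_inv_cancel, Perm.one_apply]
    rw [← this]
    exact (hnat m y').symm

theorem Opt_some {α : Type} [DecidableEq α] (t : α) (e : Perm α) (a : α) :
    (swap none (some t) * optionCongr e) (some a) = if e a = t then none else some (e a) := by
  rw [Perm.mul_apply, optionCongr_apply, Option.map_some]
  split_ifs with h
  · rw [h, swap_apply_right]
  · rw [swap_apply_of_ne_of_ne (by simp) (by simpa using h)]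

theorem Opt_none {α : Type} [DecidableEq α] (t : Option α) (e : Perm α) :
    (swap none t * optionCongr e) none = t := by
  rw [Perm.mul_apply, optionCongr_apply, Option.map_none, swap_apply_left]

theorem thm_Opt : St_Opt := by
  intro α _ _ i e
  cases i with
  | none =>
    constructor
    · intro h
      exfalso
      obtain ⟨a⟩ := ‹Nonempty α›
      obtain ⟨k, hk⟩ := h none (some a)
      have h1 := Opt_none none e
      rw [Perm.zpow_apply_eq_self_of_apply_eq_self h1] at hk
      exact absurd hk (by simp)
    · intro h
      exact absurd rfl h.1
  | some t =>
    constructor
    · intro h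
      refine ⟨by simp, fun a b => ?_⟩
      refine Opt_gen (swap none (some t) * optionCongr e) e (fun y => y.getD t) ?_
        (h (some a) (some b))
      intro y
      cases y with
      | none =>
        rw [Opt_none]
        exact Perm.SameCycle.refl _ _
      | some a =>
        rw [Opt_some]
        split_ifs with h1
        · show e.SameCycle a t
          rw [← h1]
          exact Perm.sameCycle_apply_right.2 (Perm.SameCycle.refl _ _)
        · show e.SameCycle a (e a)
          exact Perm.sameCycle_apply_right.2 (Perm.SameCycle.refl _ _)
    · rintro ⟨-, h⟩
      have hx : ∀ y, (swap none (some t) * optionCongr e).SameCycle y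
          ((swap none (some t) * optionCongr e) y) := fun y =>
        Perm.sameCycle_apply_right.2 (Perm.SameCycle.refl _ _)
      have h0 : (swap none (some t) * optionCongr e).SameCycle none (some t) := by
        have := hx none
        rwa [Opt_none] at this
      have hs : ∀ a b, (swap none (some t) * optionCongr e).SameCycle (some a) (some b) := by
        intro a b
        refine Opt_gen e (swap none (some t) * optionCongr e) some ?_ (h a b)
        intro a
        have h2 := hx (some a)
        rw [Opt_some] at h2
        split_ifs at h2 with h3
        · rw [h3]
          exact h2.trans h0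
        · exact h2
      have hn : ∀ a, (swap none (some t) * optionCongr e).SameCycle none (some a) := fun a =>
        h0.trans (hs t a)
      intro i j
      cases i with
      | none =>
        cases j with
        | none => exact Perm.SameCycle.refl _ _
        | some b => exact hn b
      | some a =>
        cases j with
        | none => exact (hn a).symm
        | some b => exact hs a b

end Pool.Agent.PWR
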