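import Pool.Agent.PWR.St

/-! Module Orb: the average number of cycles of a permutation. -/

set_option autoImplicit false

namespace Pool.Agent.PWR

open Equiv Pool.Agent.PW
open scoped Classical

theorem Orb_gen {β γ : Type} (x : Perm β) (e : Perm γ) (π : β → γ)
    (h : ∀ y, e.SameCycle (π y) (π (x y))) {y y' : β} (hy : x.SameCycle y y') :
    e.SameCycle (π y) (π y') := by
  have hnat : ∀ (k : ℕ) (y : β), e.SameCycle (π y) (π ((x ^ k) y)) := by
    intro k
    induction k with
    | zero =>
      intro y
      rw [pow_zero, Perm.one_apply]
    | succ k ih =>
      intro y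
      rw [pow_succ', Perm.mul_apply]
      exact (ih y).trans (h _)
  obtain ⟨k, hk⟩ := hy
  obtain ⟨m, rfl | rfl⟩ := k.eq_nat_or_neg
  · rw [zpow_natCast] at hk
    rw [← hk]
    exact hnat m y
  · have : (x ^ m) y' = y := by
      rw [← hk, ← Perm.mul_apply, zpow_neg, zpow_natCast, mul_inv_cancel, Perm.one_apply]
    rw [← this]
    exact (hnat m y').symm

theorem Orb_self {β : Type} (x : Perm β) (y : β) : x.SameCycle y (x y) :=
  Perm.sameCycle_apply_right.2 (Perm.SameCycle.refl _ _)

/-- The number of cycles, fixed points included. -/
noncomputable def Orb_c {α : Type} (u : Perm α) : ℕ := Nat.card (Quotient (Perm.SameCycle.setoid u))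

theorem Orb_congr {α β : Type} (e : α ≃ β) (u : Perm α) : Orb_c (e.permCongr u) = Orb_c u := by
  unfold Orb_c
  refine (Nat.card_congr (Quotient.congr e ?_)).symm
  intro a b
  show u.SameCycle a b ↔ (e.permCongr u).SameCycle (e a) (e b)
  constructor
  · intro h
    refine Orb_gen u (e.permCongr u) e ?_ h
    intro y
    have h1 : e (u y) = (e.permCongr u) (e y) := by
      rw [Equiv.permCongr_apply, Equiv.symm_apply_apply]
    rw [h1]
    exact Orb_self _ _
  · intro h
    have h2 := Orb_gen (e.permCongr u) u e.symm (fun y => by
      have h1 : e.symm ((e.permCongr u) y) = u (e.symm y) := by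
        rw [Equiv.permCongr_apply, Equiv.symm_apply_apply]
      rw [h1]
      exact Orb_self _ _) h
    rwa [Equiv.symm_apply_apply, Equiv.symm_apply_apply] at h2

theorem Orb_none {α : Type} [DecidableEq α] (e : Perm α) :
    Nat.card (Quotient (Perm.SameCycle.setoid (swap none none * optionCongr e))) =
      Nat.card (Option (Quotient (Perm.SameCycle.setoid e))) := by
  have hx0 : (swap none none * optionCongr e : Perm (Option α)) none = none := by
    rw [swap_self, Perm.mul_apply, optionCongr_apply, Option.map_none]
    rfl
  have hx1 : ∀ a, (swap none none * optionCongr e : Perm (Option α)) (some a) = some (e a) := by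
    intro a
    rw [swap_self, Perm.mul_apply, optionCongr_apply, Option.map_some]
    rfl
  have hs : ∀ a b, e.SameCycle a b → (swap none none * optionCongr e).SameCycle (some a) (some b) := by
    intro a b h
    refine Orb_gen e (swap none none * optionCongr e) some ?_ h
    intro y
    rw [← hx1 y]
    exact Orb_self _ _
  symm
  refine Nat.card_eq_of_bijective (fun q : Option (Quotient (Perm.SameCycle.setoid e)) =>
    match q with
    | none => Quotient.mk (Perm.SameCycle.setoid (swap none none * optionCongr e)) none
    | some r => Quotient.liftOn r (fun a =>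
        Quotient.mk (Perm.SameCycle.setoid (swap none none * optionCongr e)) (some a))
        (fun a b h => Quotient.sound (hs a b h))) ⟨?_, ?_⟩
  · intro q r h
    have hn : ∀ a : α, ¬ (swap none none * optionCongr e).SameCycle none (some a) := by
      rintro a ⟨k, hk⟩
      rw [Perm.zpow_apply_eq_self_of_apply_eq_self hx0] at hk
      exact absurd hk (by simp)
    cases q with
    | none =>
      cases r with
      | none => rfl
      | some r =>
        exfalso
        induction r using Quotient.inductionOn with
        | h a => exact hn a (Quotient.exact h)
    | some q =>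
      cases r with
      | none =>
        exfalso
        induction q using Quotient.inductionOn with
        | h a => exact hn a (Quotient.exact h).symm
      | some r =>
        induction q using Quotient.inductionOn with
        | h a =>
          induction r using Quotient.inductionOn with
          | h b =>
            have h1 : (swap none none * optionCongr e).SameCycle (some a) (some b) :=
              Quotient.exact h
            have h2 := Orb_gen (swap none none * optionCongr e) e (fun y => y.getD a) (by
              intro y
              cases y with
              | none =>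
                rw [hx0]
              | some c =>
                rw [hx1]
                exact Orb_self e c) h1
            exact congrArg some (Quotient.sound h2)
  · intro q
    induction q using Quotient.inductionOn with
    | h y =>
      cases y with
      | none => exact ⟨none, rfl⟩
      | some a => exact ⟨some (Quotient.mk _ a), rfl⟩

theorem Orb_some {α : Type} [DecidableEq α] (t : α) (e : Perm α) :
    Nat.card (Quotient (Perm.SameCycle.setoid (swap none (some t) * optionCongr e))) =
      Nat.card (Quotient (Perm.SameCycle.setoid e)) := by
  have hx0 : (swap none (some t) * optionCongr e) none = some t := by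
    rw [Perm.mul_apply, optionCongr_apply, Option.map_none, swap_apply_left]
  have hx1 : ∀ a, (swap none (some t) * optionCongr e) (some a) =
      if e a = t then none else some (e a) := by
    intro a
    rw [Perm.mul_apply, optionCongr_apply, Option.map_some]
    split_ifs with h
    · rw [h, swap_apply_right]
    · rw [swap_apply_of_ne_of_ne (by simp) (by simpa using h)]
  have h0 : (swap none (some t) * optionCongr e).SameCycle none (some t) := by
    have h1 := Orb_self (swap none (some t) * optionCongr e) none
    rwa [hx0] at h1
  have hs : ∀ a b, e.SameCycle a b →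
      (swap none (some t) * optionCongr e).SameCycle (some a) (some b) := by
    intro a b h
    refine Orb_gen e (swap none (some t) * optionCongr e) some ?_ h
    intro y
    have h2 := Orb_self (swap none (some t) * optionCongr e) (some y)
    rw [hx1] at h2
    split_ifs at h2 with h3
    · rw [h3]
      exact h2.trans h0
    · exact h2
  symm
  refine Nat.card_eq_of_bijective (fun r : Quotient (Perm.SameCycle.setoid e) =>
    Quotient.liftOn r (fun a =>
        Quotient.mk (Perm.SameCycle.setoid (swap none (some t) * optionCongr e)) (some a))
        (fun a b h => Quotient.sound (hs a b h))) ⟨?_, ?_⟩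
  · intro q r h
    induction q using Quotient.inductionOn with
    | h a =>
      induction r using Quotient.inductionOn with
      | h b =>
        have h1 : (swap none (some t) * optionCongr e).SameCycle (some a) (some b) :=
          Quotient.exact h
        have h2 := Orb_gen (swap none (some t) * optionCongr e) e (fun y => y.getD t) (by
          intro y
          cases y with
          | none =>
            rw [hx0]
            exact Perm.SameCycle.refl _ _
          | some c =>
            rw [hx1]
            split_ifs with h3
            · show e.SameCycle c t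
              rw [← h3]
              exact Orb_self e c
            · exact Orb_self e c) h1
        exact Quotient.sound h2
  · intro q
    induction q using Quotient.inductionOn with
    | h y =>
      cases y with
      | none => exact ⟨Quotient.mk _ t, Quotient.sound h0.symm⟩
      | some a => exact ⟨Quotient.mk _ a, rfl⟩

theorem Orb_option {α : Type} [Finite α] [DecidableEq α] (i : Option α) (e : Perm α) :
    Orb_c (swap none i * optionCongr e) = Orb_c e + if i = none then 1 else 0 := by
  unfold Orb_c
  cases i with
  | none => rw [Orb_none, Finite.card_option, if_pos rfl]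
  | some t => rw [Orb_some, if_neg (by simp), add_zero]

/-- The sum of the numbers of cycles. -/
theorem Orb_sum (α : Type) [Finite α] : ∀ (_ : Fintype α) (_ : DecidableEq α),
    (∑ u : Perm α, (Orb_c u : ℝ)) = ((Fintype.card α).factorial : ℝ) *
      ((harmonic (Fintype.card α) : ℚ) : ℝ) := by
  refine Finite.induction_empty_option (P := fun α => ∀ (_ : Fintype α) (_ : DecidableEq α),
    (∑ u : Perm α, (Orb_c u : ℝ)) = ((Fintype.card α).factorial : ℝ) *
      ((harmonic (Fintype.card α) : ℚ) : ℝ)) ?_ ?_ ?_ α
  · intro α β e h _ _
    let iα : Fintype α := Fintype.ofEquiv β e.symm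
    have h1 := h iα (fun a b => Classical.propDecidable (a = b))
    have h2 : Fintype.card α = Fintype.card β := Fintype.card_congr e
    rw [← h2, ← h1, ← Equiv.sum_comp e.permCongr]
    refine Finset.sum_congr rfl ?_
    intro u _
    rw [Orb_congr]
  · intro _ _
    have h1 : ∀ u : Perm PEmpty.{1}, Orb_c u = 0 := by
      intro u
      unfold Orb_c
      have h2 : IsEmpty (Quotient (Perm.SameCycle.setoid u)) := by
        refine ⟨fun q => ?_⟩
        induction q using Quotient.inductionOn with
        | h y => exact y.elim
      exact Nat.card_of_isEmpty
    have h3 : Fintype.card PEmpty.{1} = 0 := Fintype.card_eq_zero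
    rw [h3, harmonic_zero, Rat.cast_zero, mul_zero]
    apply Finset.sum_eq_zero
    intro u _
    rw [h1, Nat.cast_zero]
  · intro α _ h _ _
    have h1 := h inferInstance (Classical.decEq α)
    have h2 : Fintype.card (Option α) = Fintype.card α + 1 := by
      rw [← Nat.card_eq_fintype_card, ← Nat.card_eq_fintype_card, Finite.card_option]
    have h3 : (∑ u : Perm (Option α), (Orb_c u : ℝ)) =
        ∑ p : Option α × Perm α, ((Orb_c p.2 : ℝ) + if p.1 = none then 1 else 0) := by
      rw [← Equiv.sum_comp (Perm.decomposeOption (α := α)).symm]
      refine Finset.sum_congr rfl ?_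
      intro p _
      rw [Perm.decomposeOption_symm_apply, Orb_option]
      push_cast
      rfl
    have h6 : ∀ x : Option α, (∑ _y : Perm α, if x = none then (1 : ℝ) else 0) =
        ((Fintype.card α).factorial : ℝ) * (if x = none then (1 : ℝ) else 0) := by
      intro x
      rw [Finset.sum_const, nsmul_eq_mul, Finset.card_univ, Fintype.card_perm]
    have h4 : (∑ x : Option α, ((Fintype.card α).factorial : ℝ) * (if x = none then (1 : ℝ) else 0)) =
        ((Fintype.card α).factorial : ℝ) := by
      rw [← Finset.mul_sum, Finset.sum_ite_eq', if_pos (Finset.mem_univ _), mul_one]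
    rw [h3, Finset.sum_add_distrib, Fintype.sum_prod_type, Fintype.sum_prod_type]
    simp only [h6]
    rw [h4, Finset.sum_const, nsmul_eq_mul, Finset.card_univ, h1, h2, harmonic_succ,
      Nat.factorial_succ]
    push_cast
    have h5 : ((Fintype.card α : ℝ) + 1) ≠ 0 := by positivity
    field_simp

/-- Burnside. -/
theorem Orb_avf {α : Type} [Fintype α] [DecidableEq α] (u : Perm α) : avf u = (Orb_c u : ℝ) := by
  have h1 := MulAction.sum_card_fixedBy_eq_card_orbits_mul_card_group (Subgroup.zpowers u) α
  have h2 : Fintype.card (Quotient (MulAction.orbitRel (Subgroup.zpowers u) α)) = Orb_c u := by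
    unfold Orb_c
    rw [← Nat.card_eq_fintype_card]
    refine Nat.card_congr (Quotient.congr (Equiv.refl α) ?_)
    intro a b
    show (MulAction.orbitRel (Subgroup.zpowers u) α) a b ↔ u.SameCycle a b
    rw [MulAction.orbitRel_apply]
    constructor
    · rintro ⟨⟨g, k, rfl⟩, hg⟩
      exact Perm.SameCycle.symm ⟨k, hg⟩
    · intro h
      obtain ⟨k, hk⟩ := h.symm
      exact ⟨⟨u ^ k, k, rfl⟩, hk⟩
  have h3 : (zp u).card = Fintype.card (Subgroup.zpowers u) := by
    unfold zp
    rw [← Fintype.card_coe]
    apply Fintype.card_congr
    exact Equiv.subtypeEquivRight (fun x => by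
      rw [Finset.mem_filter]
      exact ⟨fun h => h.2, fun h => ⟨Finset.mem_univ _, h⟩⟩)
  have h4 : (∑ h ∈ zp u, fx h) = ((∑ a : Subgroup.zpowers u,
      Fintype.card (MulAction.fixedBy α a) : ℕ) : ℝ) := by
    rw [Nat.cast_sum]
    unfold zp
    rw [Finset.sum_subtype (p := fun h => h ∈ Subgroup.zpowers u) _ (fun x => by
      rw [Finset.mem_filter]
      exact ⟨fun h => h.2, fun h => ⟨Finset.mem_univ _, h⟩⟩)]
    refine Finset.sum_congr rfl ?_
    intro a _
    unfold fx
    congr 1
    rw [← Fintype.card_coe]
    apply Fintype.card_congr
    exact Equiv.subtypeEquivRight (fun x => by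
      rw [Finset.mem_filter]
      exact ⟨fun h => h.2, fun h => ⟨Finset.mem_univ _, h⟩⟩)
  have h5 : (0 : ℝ) < (Fintype.card (Subgroup.zpowers u) : ℝ) := by
    exact_mod_cast Fintype.card_pos
  unfold avf
  rw [h3, h4, h1, h2, Nat.cast_mul, mul_div_assoc, div_self h5.ne', mul_one]

theorem thm_Orb : St_Orb := by
  intro α _ _ _
  have h1 : (∑ u : Perm α, avf u) = ∑ u : Perm α, (Orb_c u : ℝ) :=
    Finset.sum_congr rfl (fun u _ => Orb_avf u)
  rw [h1, Orb_sum α inferInstance inferInstance]
  exact mul_le_mul_of_nonneg_left (harmonic_le_one_add_log _) (Nat.cast_nonneg _)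

end Pool.Agent.PWR
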