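import Pool.Agent.PWR.St

/-! Module Par. -/

set_option autoImplicit false

namespace Pool.Agent.PWR

open Equiv Pool.Agent.PW
open scoped Classical

private theorem Par_aux {α : Type} [Fintype α] [DecidableEq α] (x : Perm α) (S : Finset α)
    (hfix : ∀ i, i ∉ S → x i = i) (hcyc : ∀ i ∈ S, ∀ j ∈ S, x.SameCycle i j) (hS : 1 ≤ S.card) :
    (Perm.sign x : ℤ) = -(-1) ^ S.card := by
  rcases Nat.lt_or_ge 1 S.card with h2 | h2
  · have hmove : ∀ i ∈ S, x i ≠ i := by
      intro i hi hx
      obtain ⟨j, hj, hij⟩ := (Finset.one_lt_card.1 h2)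
      obtain ⟨k, hk, hne⟩ : ∃ k ∈ S, k ≠ i := by
        by_cases hji : j = i
        · obtain ⟨l, hl, hne⟩ := hij
          exact ⟨l, hl, fun h => hne (hji.trans h.symm)⟩
        · exact ⟨j, hj, hji⟩
      obtain ⟨n, hn⟩ := hcyc i hi k hk
      rw [Perm.zpow_apply_eq_self_of_apply_eq_self hx] at hn
      exact hne hn.symm
    have hsupp : x.support = S := by
      ext i
      rw [Perm.mem_support]
      constructor
      · intro h
        by_contra hi
        exact h (hfix i hi)
      · exact hmove i
    obtain ⟨a, ha⟩ := Finset.card_pos.1 (Nat.lt_of_lt_of_le Nat.zero_lt_one hS)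
    have hx : x.IsCycle := by
      refine ⟨a, hmove a ha, fun y hy => hcyc a ha y ?_⟩
      by_contra hyS
      exact hy (hfix y hyS)
    rw [hx.sign, hsupp]
    push_cast
    rfl
  · have h1 : S.card = 1 := le_antisymm h2 hS
    obtain ⟨a, ha⟩ := Finset.card_eq_one.1 h1
    have hx : x = 1 := by
      ext i
      rw [Perm.one_apply]
      by_cases hi : i ∈ S
      · by_contra hne
        have h3 : x i ∉ S := by
          rw [ha, Finset.mem_singleton] at hi ⊢
          rw [hi] at hne ⊢
          exact hne
        exact hne (x.injective (hfix _ h3))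
      · exact hfix i hi
    rw [hx, h1]
    simp

theorem thm_Par : St_Par := by
  intro α _ _ x
  constructor
  · intro h1 hx
    exact Par_aux x Finset.univ (fun i hi => absurd (Finset.mem_univ i) hi)
      (fun i _ j _ => hx i j) h1
  · intro h2 s hx
    have hc : (Finset.univ.erase s).card = Fintype.card α - 1 := by
      rw [Finset.card_erase_of_mem (Finset.mem_univ s), Finset.card_univ]
    have h3 := Par_aux x (Finset.univ.erase s)
      (fun i hi => by
        have : i = s := by
          by_contra h
          exact hi (Finset.mem_erase.2 ⟨h, Finset.mem_univ i⟩)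
        rw [this]
        exact hx.1)
      (fun i hi j hj => hx.2 i j (Finset.ne_of_mem_erase hi) (Finset.ne_of_mem_erase hj))
      (by omega)
    rw [h3, hc]
    obtain ⟨k, hk⟩ : ∃ k, Fintype.card α = k + 1 := ⟨Fintype.card α - 1, by omega⟩
    rw [hk, Nat.add_sub_cancel, pow_succ]
    ring

end Pool.Agent.PWR
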