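import Pool.Agent.PWR.St

/-! Module Psi. -/

set_option autoImplicit false

namespace Pool.Agent.PWR

open Equiv Pool.Agent.PW
open scoped Classical

theorem Psi_pos (m : ℕ) : 0 < psi m := by
  unfold psi
  split_ifs with h
  · exact one_pos
  · have hm : (0 : ℝ) < m := by exact_mod_cast Nat.pos_of_ne_zero h
    exact lt_min one_pos (by positivity)

theorem Psi_le_one (m : ℕ) : psi m ≤ 1 := by
  unfold psi
  split_ifs with h
  · exact le_rfl
  · exact min_le_left _ _

theorem Psi_anti : Antitone psi := by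
  intro a b hab
  by_cases ha : a = 0
  · subst ha
    have : psi 0 = 1 := if_pos rfl
    rw [this]
    exact Psi_le_one b
  · have hb : b ≠ 0 := by omega
    unfold psi
    rw [if_neg ha, if_neg hb]
    have ha' : (0 : ℝ) < a := by exact_mod_cast Nat.pos_of_ne_zero ha
    have hab' : (a : ℝ) ≤ b := by exact_mod_cast hab
    have hb' : (0 : ℝ) < b := ha'.trans_le hab'
    apply min_le_min le_rfl
    have h1 : (2 : ℝ) / b ≤ 2 / a := div_le_div_of_nonneg_left (by norm_num) ha' hab'
    have h2 : (50 : ℝ) / (b : ℝ) ^ 2 ≤ 50 / (a : ℝ) ^ 2 :=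
      div_le_div_of_nonneg_left (by norm_num) (by positivity) (by gcongr)
    exact add_le_add h1 h2

theorem thm_Psi : St_Psi := by
  refine ⟨Psi_anti, Psi_pos, Psi_le_one, fun m hm => ?_⟩
  unfold psi
  rw [if_neg (by omega)]
  exact min_le_right _ _

end Pool.Agent.PWR
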