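import Pool.Agent.PWR.St

/-! Module Scc. -/

set_option autoImplicit false

namespace Pool.Agent.PWR

open Equiv Pool.Agent.PW
open scoped Classical

variable {g n : ℕ}

theorem Scc_conj {x y : F g n} (hx : Scc x) (h : IsConj x y) : Scc y := by
  obtain ⟨φ, hφ, h0, hc⟩ := hx
  exact ⟨φ, hφ, h0, hc.trans h⟩

theorem Scc_map {x : F g n} (hx : Scc x) {ψ : MulAut (F g n)} (hψ : ψ ∈ MCG g n) : Scc (ψ x) := by
  obtain ⟨φ, hφ, h0, hc⟩ := hx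
  refine ⟨ψ * φ, (MCG g n).mul_mem hψ hφ, h0, ?_⟩
  exact MonoidHom.map_isConj ψ.toMonoidHom hc

theorem Scc_b (h : 0 < g) : Scc (gb ⟨0, h⟩ : F g n) :=
  ⟨1, (MCG g n).one_mem, h, IsConj.refl _⟩

theorem Scc_e1_mid (h : 0 < g) (k : ℤ) (j : ℕ) :
    e1h ⟨0, h⟩ k (mid g n 0 j) = mid g n 0 j := by
  apply seg_congr (ψ := MonoidHom.id _)
  intro i hi _
  have hne : i ≠ ⟨0, h⟩ := by
    rintro rfl
    simp at hi
  exact ⟨e1h_a _ _ _, e1h_b' hne _⟩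

theorem Scc_e2_mid (h : 0 < g) (k : ℤ) (j : ℕ) :
    e2h ⟨0, h⟩ k (mid g n 0 j) = mid g n 0 j := by
  apply seg_congr (ψ := MonoidHom.id _)
  intro i hi _
  have hne : i ≠ ⟨0, h⟩ := by
    rintro rfl
    simp at hi
  exact ⟨e2h_a' hne _, e2h_b _ _ _⟩

theorem Scc_e1_seg (h : 0 < g) (k : ℤ) (j : ℕ) :
    e1h ⟨0, h⟩ k (seg g n (0 + 1) j) = seg g n (0 + 1) j := by
  apply seg_congr (ψ := MonoidHom.id _)
  intro i hi _
  have hne : i ≠ ⟨0, h⟩ := by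
    rintro rfl
    simp at hi
  exact ⟨e1h_a _ _ _, e1h_b' hne _⟩

theorem Scc_e2_seg (h : 0 < g) (k : ℤ) (j : ℕ) :
    e2h ⟨0, h⟩ k (seg g n (0 + 1) j) = seg g n (0 + 1) j := by
  apply seg_congr (ψ := MonoidHom.id _)
  intro i hi _
  have hne : i ≠ ⟨0, h⟩ := by
    rintro rfl
    simp at hi
  exact ⟨e2h_a' hne _, e2h_b _ _ _⟩

theorem Scc_e1_midc (h : 0 < g) (k : ℤ) (j : ℕ) :
    e1h ⟨0, h⟩ k (midc g n 0 j) = midc g n 0 j := by
  have h2 : e1h ⟨0, h⟩ k (cseg g n 0 j) = cseg g n 0 j :=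
    cseg_congr (ψ := MonoidHom.id _) fun i _ _ => e1h_c _ _ _
  unfold midc
  rw [map_mul, Scc_e1_seg, h2]

theorem Scc_e2_midc (h : 0 < g) (k : ℤ) (j : ℕ) :
    e2h ⟨0, h⟩ k (midc g n 0 j) = midc g n 0 j := by
  have h2 : e2h ⟨0, h⟩ k (cseg g n 0 j) = cseg g n 0 j :=
    cseg_congr (ψ := MonoidHom.id _) fun i _ _ => e2h_c _ _ _
  unfold midc
  rw [map_mul, Scc_e2_seg, h2]

theorem Scc_e1_cm (h : 0 < g) (k : ℤ) :
    e1h (n := n) ⟨0, h⟩ k (cm (ga ⟨0, h⟩) (gb ⟨0, h⟩)) = cm (ga ⟨0, h⟩) (gb ⟨0, h⟩) := by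
  rw [map_cm, e1h_b, e1h_a]
  unfold cm
  group

theorem Scc_e2_cm (h : 0 < g) (k : ℤ) :
    e2h (n := n) ⟨0, h⟩ k (cm (ga ⟨0, h⟩) (gb ⟨0, h⟩)) = cm (ga ⟨0, h⟩) (gb ⟨0, h⟩) := by
  rw [map_cm, e2h_b, e2h_a]
  unfold cm
  group

theorem Scc_e1_YY (h : 0 < g) (k : ℤ) {y : F g n} (hy : y ∈ YY g n h) : e1 ⟨0, h⟩ k y = y := by
  rw [e1_apply]
  rcases hy with ⟨j, l, hj, rfl⟩ | ⟨j, rfl⟩
  · have hne : j ≠ ⟨0, h⟩ := by
      rintro rfl
      simp at hj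
    simp only [map_mul, map_inv, map_zpow, Scc_e1_cm, Scc_e1_mid, e1h_a, e1h_b' hne]
  · simp only [map_mul, map_inv, Scc_e1_cm, Scc_e1_midc, e1h_c]

theorem Scc_e2_YY (h : 0 < g) (k : ℤ) {y : F g n} (hy : y ∈ YY g n h) : e2 ⟨0, h⟩ k y = y := by
  rw [e2_apply]
  rcases hy with ⟨j, l, hj, rfl⟩ | ⟨j, rfl⟩
  · have hne : j ≠ ⟨0, h⟩ := by
      rintro rfl
      simp at hj
    simp only [map_mul, map_inv, map_zpow, Scc_e2_cm, Scc_e2_mid, e2h_b, e2h_a' hne]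
  · simp only [map_mul, map_inv, Scc_e2_cm, Scc_e2_midc, e2h_c]

/-- The last part. -/
theorem Scc_last (h : 0 < g) {y : F g n} (hy : y ∈ YY g n h) :
    ∃ φ ∈ MCG g n, φ (ga ⟨0, h⟩) = ga ⟨0, h⟩ ∧
    φ (gb ⟨0, h⟩) = gb ⟨0, h⟩ * (ga ⟨0, h⟩)⁻¹ * (gb ⟨0, h⟩)⁻¹ *
      ((cm (ga ⟨0, h⟩) (gb ⟨0, h⟩))⁻¹ * y) * gb ⟨0, h⟩ := by
  rcases hy with ⟨j, l, hj, rfl⟩ | ⟨j, rfl⟩
  · have hlt : ((⟨0, h⟩ : Fin g) : ℕ) < j := hj
    have hne : (⟨0, h⟩ : Fin g) ≠ j := by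
      rintro rfl
      simp at hj
    refine ⟨e2 j l * psh ⟨0, h⟩ j hlt 1, (MCG g n).mul_mem (e2_mem _ _) (psh_mem _ _), ?_, ?_⟩
    · rw [MulAut.mul_apply, psh_apply, ph_ai hlt, e2_apply, e2h_a' hne]
    · rw [MulAut.mul_apply, psh_apply, ph_bi, e2_apply, zpow_one]
      have hm : e2h j l (mid g n 0 j) = mid g n 0 j := by
        apply seg_congr (ψ := MonoidHom.id _)
        intro i hi hi2
        have hne : i ≠ j := by
          rintro rfl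
          omega
        exact ⟨e2h_a' hne _, e2h_b _ _ _⟩
      have hm' : e2h j l (mid g n ((⟨0, h⟩ : Fin g) : ℕ) j) = mid g n 0 j := hm
      unfold pw sw
      simp only [map_mul, map_inv, hm', e2h_b, e2h_a' hne, e2h_a]
      group
  · refine ⟨qsh ⟨0, h⟩ j 1, qsh_mem _, ?_, ?_⟩
    · rw [qsh_apply, qh_a]
    · rw [qsh_apply, qh_bi, zpow_one]
      unfold qw sc
      have : midc g n ((⟨0, h⟩ : Fin g) : ℕ) j = midc g n 0 j := rfl
      rw [this]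
      group

theorem Scc_word {G : Type} [Group G] (a b y : G) (k : ℤ) :
    IsConj (b * a ^ (k + 1) * a⁻¹ * (b * a ^ (k + 1))⁻¹ * ((cm a b)⁻¹ * y) * (b * a ^ (k + 1)))
      (y * b * a ^ k) := by
  rw [isConj_iff]
  refine ⟨a, ?_⟩
  unfold cm
  group

theorem Scc_mem (h : 0 < g) {y : F g n} (hy : y ∈ YY g n h) (k : ℤ) :
    Scc (y * gb ⟨0, h⟩ * ga ⟨0, h⟩ ^ k) := by
  obtain ⟨φ, hφ, ha, hb⟩ := Scc_last h hy
  have h1 : Scc (e1 ⟨0, h⟩ (k + 1) (φ (gb ⟨0, h⟩))) := Scc_map (Scc_map (Scc_b h) hφ) (e1_mem _ _)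
  refine Scc_conj h1 ?_
  rw [hb]
  simp only [map_mul, map_inv, Scc_e1_YY h _ hy]
  rw [e1_apply, e1_apply, e1_apply, e1h_a, e1h_b, Scc_e1_cm]
  exact Scc_word _ _ _ _

theorem thm_Scc : St_Scc := by
  intro g n h
  refine ⟨fun k => ?_, ⟨?_, fun φ hφ => ?_⟩, fun y hy k => Scc_mem h hy k, fun y hy k => ?_, ?_,
    fun y hy => Scc_last h hy⟩
  · have := Scc_map (Scc_b (n := n) h) (e1_mem ⟨0, h⟩ k)
    rwa [e1_apply, e1h_b] at this
  · have := Scc_map (Scc_map (Scc_b (n := n) h) (e1_mem ⟨0, h⟩ 1)) (e2_mem ⟨0, h⟩ (-1))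
    refine Scc_conj this ?_
    rw [e1_apply, e1h_b, e2_apply, map_mul, map_zpow, e2h_a, e2h_b, isConj_iff]
    refine ⟨(gb ⟨0, h⟩)⁻¹, ?_⟩
    group
  · refine ⟨φ * (e1 ⟨0, h⟩ (-1) * e2 ⟨0, h⟩ 1), (MCG g n).mul_mem hφ
      ((MCG g n).mul_mem (e1_mem _ _) (e2_mem _ _)), ?_⟩
    rw [MulAut.mul_apply, MulAut.mul_apply, e2_apply, e2h_a, e1_apply, map_mul, map_zpow, e1h_a,
      e1h_b, isConj_iff]
    refine ⟨(φ (ga ⟨0, h⟩))⁻¹, ?_⟩
    simp only [map_mul, map_zpow]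
    group
  · have h1 : Scc (y * gb ⟨0, h⟩ : F g n) := by
      have := Scc_mem h hy 0
      rwa [zpow_zero, mul_one] at this
    have h2 := Scc_map (Scc_map (Scc_map h1 (e1_mem ⟨0, h⟩ 1)) (e2_mem ⟨0, h⟩ 1))
      (e1_mem ⟨0, h⟩ k)
    refine Scc_conj h2 ?_
    simp only [map_mul, Scc_e1_YY h _ hy, Scc_e2_YY h _ hy]
    have s1 : e1 (n := n) ⟨0, h⟩ 1 (gb ⟨0, h⟩) = gb ⟨0, h⟩ * ga ⟨0, h⟩ := by
      rw [e1_apply, e1h_b, zpow_one]
    have s2 : e2 (n := n) ⟨0, h⟩ 1 (gb ⟨0, h⟩ * ga ⟨0, h⟩) =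
        gb ⟨0, h⟩ * (ga ⟨0, h⟩ * gb ⟨0, h⟩) := by
      rw [e2_apply, map_mul, e2h_a, e2h_b, zpow_one]
    have s3 : e1 (n := n) ⟨0, h⟩ k (gb ⟨0, h⟩ * (ga ⟨0, h⟩ * gb ⟨0, h⟩)) =
        gb ⟨0, h⟩ * ga ⟨0, h⟩ ^ k * (ga ⟨0, h⟩ * (gb ⟨0, h⟩ * ga ⟨0, h⟩ ^ k)) := by
      rw [e1_apply, map_mul, map_mul, e1h_a, e1h_b]
    rw [s1, s2, s3, isConj_iff]
    refine ⟨gb ⟨0, h⟩ * ga ⟨0, h⟩ ^ k, ?_⟩
    group
  · set E := Subgroup.closure ({ga ⟨0, h⟩, gb ⟨0, h⟩} ∪ YY g n h) with hE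
    have ha0 : (ga ⟨0, h⟩ : F g n) ∈ E := Subgroup.subset_closure (Or.inl (Or.inl rfl))
    have hb0 : (gb ⟨0, h⟩ : F g n) ∈ E := Subgroup.subset_closure (Or.inl (Or.inr rfl))
    have hd0 : cm (ga ⟨0, h⟩) (gb ⟨0, h⟩) ∈ E := by
      unfold cm
      exact E.mul_mem (E.mul_mem (E.mul_mem ha0 hb0) (E.inv_mem ha0)) (E.inv_mem hb0)
    have hab : ∀ m : ℕ, ∀ i : Fin g, (i : ℕ) ≤ m → ga i ∈ E ∧ gb i ∈ E := by
      intro m
      induction m with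
      | zero =>
        intro i hi
        have : i = ⟨0, h⟩ := by
          apply Fin.ext
          simp only
          omega
        rw [this]
        exact ⟨ha0, hb0⟩
      | succ m ih =>
        intro i hi
        rcases Nat.lt_or_ge i (m + 1) with hlt | hge
        · exact ih i (by omega)
        · have hm : mid g n 0 i ∈ E := by
            apply seg_mem
            intro l _ h2
            exact ih l (by omega)
          have key : ∀ k : ℤ, cm (ga ⟨0, h⟩) (gb ⟨0, h⟩) * mid g n 0 i * ga i * gb i ^ k *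
              (mid g n 0 i)⁻¹ ∈ E := fun k =>
            Subgroup.subset_closure (Or.inr (Or.inl ⟨i, k, by omega, rfl⟩))
          have key2 : ∀ k : ℤ, ga i * gb i ^ k ∈ E := by
            intro k
            have h3 := E.mul_mem (E.mul_mem (E.inv_mem (E.mul_mem hd0 hm)) (key k)) hm
            have e : (cm (ga ⟨0, h⟩) (gb ⟨0, h⟩) * mid g n 0 i)⁻¹ *
                (cm (ga ⟨0, h⟩) (gb ⟨0, h⟩) * mid g n 0 i * ga i * gb i ^ k *
                (mid g n 0 i)⁻¹) * mid g n 0 i = ga i * gb i ^ k := by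
              group
            rwa [e] at h3
          have hai : ga i ∈ E := by
            have := key2 0
            rwa [zpow_zero, mul_one] at this
          refine ⟨hai, ?_⟩
          have := E.mul_mem (E.inv_mem hai) (key2 1)
          rwa [zpow_one, inv_mul_cancel_left] at this
    have ha : ∀ i : Fin g, ga i ∈ E := fun i => (hab i i le_rfl).1
    have hb : ∀ i : Fin g, gb i ∈ E := fun i => (hab i i le_rfl).2
    have hc : ∀ m : ℕ, ∀ i : Fin n, (i : ℕ) < m → gc i ∈ E := by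
      intro m
      induction m with
      | zero =>
        intro i hi
        exact absurd hi (Nat.not_lt_zero _)
      | succ m ih =>
        intro i hi
        have hm : midc g n 0 i ∈ E := by
          unfold midc
          refine E.mul_mem (seg_mem fun l _ _ => ⟨ha l, hb l⟩) (cseg_mem fun l _ hl => ?_)
          exact ih l (by omega)
        have key : cm (ga ⟨0, h⟩) (gb ⟨0, h⟩) * midc g n 0 i * gc i * (midc g n 0 i)⁻¹ ∈ E :=
          Subgroup.subset_closure (Or.inr (Or.inr ⟨i, rfl⟩))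
        have h3 := E.mul_mem (E.mul_mem (E.inv_mem (E.mul_mem hd0 hm)) key) hm
        have e : (cm (ga ⟨0, h⟩) (gb ⟨0, h⟩) * midc g n 0 i)⁻¹ *
            (cm (ga ⟨0, h⟩) (gb ⟨0, h⟩) * midc g n 0 i * gc i * (midc g n 0 i)⁻¹) *
            midc g n 0 i = gc i := by
          group
        rwa [e] at h3
    exact eq_top_of_gens ha hb fun j => hc n j j.2

end Pool.Agent.PWR
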