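import Pool.Agent.PWR.St

/-!
# PWR, SEC: the second moment method
-/

set_option autoImplicit false

namespace Pool.Agent.PWR

open Equiv Pool.Agent.PW
open scoped Classical

theorem Sec_cheb {β : Type} (s Z : Finset β) (A : β → ℝ) (μ : ℝ) (hZs : Z ⊆ s)
    (hZ : ∀ v ∈ Z, A v = 0) :
    (Z.card : ℝ) * μ ^ 2 ≤ ∑ v ∈ s, A v ^ 2 - 2 * μ * ∑ v ∈ s, A v + (s.card : ℝ) * μ ^ 2 := by
  have h1 : (Z.card : ℝ) * μ ^ 2 = ∑ v ∈ Z, (A v - μ) ^ 2 := by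
    rw [← nsmul_eq_mul, ← Finset.sum_const]
    apply Finset.sum_congr rfl
    intro v hv
    rw [hZ v hv]
    ring
  have h2 : ∑ v ∈ Z, (A v - μ) ^ 2 ≤ ∑ v ∈ s, (A v - μ) ^ 2 :=
    Finset.sum_le_sum_of_subset_of_nonneg hZs fun v _ _ => sq_nonneg _
  have h3 : ∑ v ∈ s, (A v - μ) ^ 2 =
      ∑ v ∈ s, A v ^ 2 - 2 * μ * ∑ v ∈ s, A v + (s.card : ℝ) * μ ^ 2 := by
    rw [← nsmul_eq_mul (s.card), ← Finset.sum_const, Finset.mul_sum, ← Finset.sum_sub_distrib,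
      ← Finset.sum_add_distrib]
    apply Finset.sum_congr rfl
    intro v _
    ring
  linarith

section

variable {α : Type} [Fintype α] [DecidableEq α]

theorem Sec_mem (u h : Perm α) : h ∈ zp u ↔ h ∈ Subgroup.zpowers u := by
  unfold zp
  rw [Finset.mem_filter]
  exact ⟨fun h => h.2, fun h => ⟨Finset.mem_univ _, h⟩⟩

theorem Sec_pos (u : Perm α) : (0 : ℝ) < ((zp u).card : ℝ) := by
  rw [Nat.cast_pos, Finset.card_pos]
  exact ⟨1, (Sec_mem u 1).2 (Subgroup.one_mem _)⟩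

theorem Sec_pow (u : Perm α) : (∑ h ∈ zp u, ∑ k ∈ zp u, fx (h⁻¹ * k)) =
    ((zp u).card : ℝ) ^ 2 * avf u := by
  have h1 : ∀ h ∈ zp u, ∑ k ∈ zp u, fx (h⁻¹ * k) = ∑ k ∈ zp u, fx k := by
    intro h hh
    have hh' := (Sec_mem u h).1 hh
    refine Finset.sum_nbij' (fun k => h⁻¹ * k) (fun k => h * k) ?_ ?_ ?_ ?_ ?_
    · intro k hk
      exact (Sec_mem u _).2 (Subgroup.mul_mem _ (Subgroup.inv_mem _ hh') ((Sec_mem u k).1 hk))
    · intro k hk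
      exact (Sec_mem u _).2 (Subgroup.mul_mem _ hh' ((Sec_mem u k).1 hk))
    · intro k _
      exact mul_inv_cancel_left h k
    · intro k _
      exact inv_mul_cancel_left h k
    · intro k _
      rfl
  rw [Finset.sum_congr rfl h1, Finset.sum_const, nsmul_eq_mul]
  unfold avf
  have := Sec_pos u
  field_simp

theorem Sec_pp (a b : Perm α) : (∑ p ∈ zp a ×ˢ zp b, ∑ q ∈ zp a ×ˢ zp b,
    fx (p.1⁻¹ * q.1) * fx (p.2⁻¹ * q.2)) =
    (((zp a).card : ℝ) ^ 2 * avf a) * (((zp b).card : ℝ) ^ 2 * avf b) := by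
  rw [← Sec_pow a, ← Sec_pow b, Finset.sum_mul_sum, Finset.sum_product]
  apply Finset.sum_congr rfl
  intro h _
  apply Finset.sum_congr rfl
  intro h' _
  rw [Finset.sum_mul_sum, Finset.sum_product]

theorem Sec_sum (f : Perm α × Perm α × Perm α × Perm α → ℝ) :
    ∑ v, f v = ∑ a0, ∑ b1, ∑ b0, ∑ a1, f (a0, b0, a1, b1) := by
  rw [Fintype.sum_prod_type]
  apply Finset.sum_congr rfl
  intro a0 _
  rw [Fintype.sum_prod_type]
  refine Eq.trans ?_ Finset.sum_comm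
  apply Finset.sum_congr rfl
  intro b0 _
  rw [Fintype.sum_prod_type]
  exact Finset.sum_comm

/-- the average. -/
noncomputable def SecA (v : Perm α × Perm α × Perm α × Perm α) : ℝ :=
  (∑ p ∈ zp v.1 ×ˢ zp v.2.2.2, gg (curve v.1 v.2.1 v.2.2.1 p.1 p.2)) /
    (((zp v.1).card : ℝ) * ((zp v.2.2.2).card : ℝ))

theorem Sec_a1 (a0 b0 h h' : Perm α) : ∑ a1 : Perm α, gg (curve a0 b0 a1 h h') =
    ∑ x : Perm α, gg x := by
  have h1 := Equiv.sum_comp ((Equiv.mulLeft (a0 * b0 * a0⁻¹ * b0⁻¹)).trans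
    (Equiv.mulRight (h' * b0 * h))) (fun x : Perm α => gg x)
  rw [← h1]
  apply Finset.sum_congr rfl
  intro a1 _
  unfold curve
  rw [Equiv.trans_apply, Equiv.coe_mulLeft, Equiv.coe_mulRight]
  simp only [mul_assoc]

theorem Sec_a2 (C1 : ℝ) (h1 : ∀ z : Perm α,
    (∑ x : Perm α, gg x * gg (x * z)) ≤
    ((Fintype.card α).factorial : ℝ) * (4 / (Fintype.card α : ℝ) ^ 2) *
      (1 + C1 * (1 + fx z ^ 2) / Fintype.card α)) (a0 b0 h h' k k' : Perm α) :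
    ∑ a1 : Perm α, gg (curve a0 b0 a1 h h') * gg (curve a0 b0 a1 k k') ≤
    ((Fintype.card α).factorial : ℝ) * (4 / (Fintype.card α : ℝ) ^ 2) *
      (1 + C1 * (1 + fx ((b0 * h)⁻¹ * (h'⁻¹ * k') * (b0 * h) * (h⁻¹ * k)) ^ 2) /
        Fintype.card α) := by
  refine le_trans (le_of_eq ?_) (h1 _)
  have h2 := Equiv.sum_comp ((Equiv.mulLeft (a0 * b0 * a0⁻¹ * b0⁻¹)).trans
    (Equiv.mulRight (h' * b0 * h))) (fun x : Perm α => gg x *
      gg (x * ((b0 * h)⁻¹ * (h'⁻¹ * k') * (b0 * h) * (h⁻¹ * k))))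
  rw [← h2]
  apply Finset.sum_congr rfl
  intro a1 _
  unfold curve
  rw [Equiv.trans_apply, Equiv.coe_mulLeft, Equiv.coe_mulRight]
  have e1 : a0 * b0 * a0⁻¹ * b0⁻¹ * a1 * h' * b0 * h =
      a0 * b0 * a0⁻¹ * b0⁻¹ * a1 * (h' * b0 * h) := by group
  have e2 : a0 * b0 * a0⁻¹ * b0⁻¹ * a1 * k' * b0 * k =
      a0 * b0 * a0⁻¹ * b0⁻¹ * a1 * (h' * b0 * h) *
        ((b0 * h)⁻¹ * (h'⁻¹ * k') * (b0 * h) * (h⁻¹ * k)) := by group
  rw [e1, e2]

theorem Sec_b0 (C1 C2 : ℝ) (hC1 : 0 < C1) (hd : 2 ≤ Fintype.card α) (h1 : ∀ z : Perm α,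
    (∑ x : Perm α, gg x * gg (x * z)) ≤
    ((Fintype.card α).factorial : ℝ) * (4 / (Fintype.card α : ℝ) ^ 2) *
      (1 + C1 * (1 + fx z ^ 2) / Fintype.card α))
    (h2 : ∀ U V : Perm α, (∑ π : Perm α, fx (π⁻¹ * U * π * V) ^ 2) ≤
    ((Fintype.card α).factorial : ℝ) * C2 * (1 + fx U * fx V)) (a0 h h' k k' : Perm α) :
    ∑ b0 : Perm α, ∑ a1 : Perm α, gg (curve a0 b0 a1 h h') * gg (curve a0 b0 a1 k k') ≤
    ((Fintype.card α).factorial : ℝ) ^ 2 * (4 / (Fintype.card α : ℝ) ^ 2) *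
      (1 + C1 * (1 + C2 + C2 * (fx (h⁻¹ * k) * fx (h'⁻¹ * k'))) / Fintype.card α) := by
  have hd1 : (2 : ℝ) ≤ (Fintype.card α : ℝ) := by exact_mod_cast hd
  set d : ℝ := (Fintype.card α : ℝ) with hd'
  have hd0 : 0 < d := by linarith
  set F : ℝ := ((Fintype.card α).factorial : ℝ) with hF
  have hF0 : 0 ≤ F := Nat.cast_nonneg _
  have e1 : ∑ b0 : Perm α, fx ((b0 * h)⁻¹ * (h'⁻¹ * k') * (b0 * h) * (h⁻¹ * k)) ^ 2 =
      ∑ π : Perm α, fx (π⁻¹ * (h'⁻¹ * k') * π * (h⁻¹ * k)) ^ 2 :=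
    Equiv.sum_comp (Equiv.mulRight h)
      (fun π : Perm α => fx (π⁻¹ * (h'⁻¹ * k') * π * (h⁻¹ * k)) ^ 2)
  have e2 := h2 (h'⁻¹ * k') (h⁻¹ * k)
  rw [← e1] at e2
  have e3 : (∑ _b0 : Perm α, (1 : ℝ)) = F := by
    rw [Finset.sum_const, Finset.card_univ, Fintype.card_perm, nsmul_eq_mul, mul_one]
  calc ∑ b0 : Perm α, ∑ a1 : Perm α, gg (curve a0 b0 a1 h h') * gg (curve a0 b0 a1 k k')
      ≤ ∑ b0 : Perm α, F * (4 / d ^ 2) *
        (1 + C1 * (1 + fx ((b0 * h)⁻¹ * (h'⁻¹ * k') * (b0 * h) * (h⁻¹ * k)) ^ 2) / d) :=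
        Finset.sum_le_sum fun b0 _ => Sec_a2 C1 h1 a0 b0 h h' k k'
    _ = F * (4 / d ^ 2) * (F + C1 / d * (F +
        ∑ b0 : Perm α, fx ((b0 * h)⁻¹ * (h'⁻¹ * k') * (b0 * h) * (h⁻¹ * k)) ^ 2)) := by
        rw [← Finset.mul_sum, Finset.sum_add_distrib]
        congr 1
        rw [e3]
        congr 1
        have : ∀ b0 : Perm α,
            C1 * (1 + fx ((b0 * h)⁻¹ * (h'⁻¹ * k') * (b0 * h) * (h⁻¹ * k)) ^ 2) / d =
            C1 / d * (1 + fx ((b0 * h)⁻¹ * (h'⁻¹ * k') * (b0 * h) * (h⁻¹ * k)) ^ 2) := by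
          intro b0
          ring
        rw [Finset.sum_congr rfl fun b0 _ => this b0, ← Finset.mul_sum, Finset.sum_add_distrib, e3]
    _ ≤ F * (4 / d ^ 2) * (F + C1 / d * (F +
        F * C2 * (1 + fx (h'⁻¹ * k') * fx (h⁻¹ * k)))) := by
        apply mul_le_mul_of_nonneg_left _ (by positivity)
        have : C1 / d * (F +
            ∑ b0 : Perm α, fx ((b0 * h)⁻¹ * (h'⁻¹ * k') * (b0 * h) * (h⁻¹ * k)) ^ 2) ≤
            C1 / d * (F + F * C2 * (1 + fx (h'⁻¹ * k') * fx (h⁻¹ * k))) :=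
          mul_le_mul_of_nonneg_left (by linarith) (by positivity)
        linarith
    _ = _ := by ring

/-- the first moment. -/
theorem Sec_m1 : ∑ v : Perm α × Perm α × Perm α × Perm α, SecA v =
    ((Fintype.card α).factorial : ℝ) ^ 3 * ∑ x : Perm α, gg x := by
  rw [Sec_sum]
  have e1 : ∀ a0 b1 b0 : Perm α, ∑ a1 : Perm α, SecA (a0, b0, a1, b1) = ∑ x : Perm α, gg x := by
    intro a0 b1 b0
    unfold SecA
    change ∑ a1 : Perm α, (∑ p ∈ zp a0 ×ˢ zp b1, gg (curve a0 b0 a1 p.1 p.2)) /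
      (((zp a0).card : ℝ) * ((zp b1).card : ℝ)) = _
    rw [← Finset.sum_div, Finset.sum_comm]
    have e2 : ∀ p ∈ zp a0 ×ˢ zp b1, ∑ a1 : Perm α, gg (curve a0 b0 a1 p.1 p.2) =
        ∑ x : Perm α, gg x := fun p _ => Sec_a1 a0 b0 p.1 p.2
    rw [Finset.sum_congr rfl e2, Finset.sum_const, Finset.card_product, nsmul_eq_mul,
      Nat.cast_mul]
    have h1 := Sec_pos a0
    have h2 := Sec_pos b1
    field_simp
  have e3 : ∀ a0 : Perm α, ∑ b1 : Perm α, ∑ b0 : Perm α, ∑ a1 : Perm α,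
      SecA (a0, b0, a1, b1) = ((Fintype.card α).factorial : ℝ) ^ 2 * ∑ x : Perm α, gg x := by
    intro a0
    rw [Finset.sum_congr rfl fun b1 _ => Finset.sum_congr rfl fun b0 _ => e1 a0 b1 b0,
      Finset.sum_const, Finset.sum_const, Finset.card_univ, Fintype.card_perm, nsmul_eq_mul,
      nsmul_eq_mul]
    ring
  rw [Finset.sum_congr rfl fun a0 _ => e3 a0, Finset.sum_const, Finset.card_univ,
    Fintype.card_perm, nsmul_eq_mul]
  ring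

/-- the second moment, for fixed `a0`, `b1`. -/
theorem Sec_m2 (C1 C2 : ℝ) (hC1 : 0 < C1) (hd : 2 ≤ Fintype.card α)
    (h1 : ∀ z : Perm α,
    (∑ x : Perm α, gg x * gg (x * z)) ≤
    ((Fintype.card α).factorial : ℝ) * (4 / (Fintype.card α : ℝ) ^ 2) *
      (1 + C1 * (1 + fx z ^ 2) / Fintype.card α))
    (h2 : ∀ U V : Perm α, (∑ π : Perm α, fx (π⁻¹ * U * π * V) ^ 2) ≤
    ((Fintype.card α).factorial : ℝ) * C2 * (1 + fx U * fx V)) (a0 b1 : Perm α) :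
    ∑ b0 : Perm α, ∑ a1 : Perm α, SecA (a0, b0, a1, b1) ^ 2 ≤
    ((Fintype.card α).factorial : ℝ) ^ 2 * (4 / (Fintype.card α : ℝ) ^ 2) *
      (1 + C1 * (1 + C2 + C2 * (avf a0 * avf b1)) / Fintype.card α) := by
  have hd1 : (2 : ℝ) ≤ (Fintype.card α : ℝ) := by exact_mod_cast hd
  set d : ℝ := (Fintype.card α : ℝ) with hd'
  have hd0 : 0 < d := by linarith
  set F : ℝ := ((Fintype.card α).factorial : ℝ) with hF
  have hn := Sec_pos a0
  have hn' := Sec_pos b1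
  set n : ℝ := ((zp a0).card : ℝ) with hnn
  set n' : ℝ := ((zp b1).card : ℝ) with hnn'
  have e0 : ∀ b0 a1 : Perm α, SecA (a0, b0, a1, b1) ^ 2 =
      (∑ p ∈ zp a0 ×ˢ zp b1, ∑ q ∈ zp a0 ×ˢ zp b1,
        gg (curve a0 b0 a1 p.1 p.2) * gg (curve a0 b0 a1 q.1 q.2)) / (n ^ 2 * n' ^ 2) := by
    intro b0 a1
    unfold SecA
    change ((∑ p ∈ zp a0 ×ˢ zp b1, gg (curve a0 b0 a1 p.1 p.2)) / (n * n')) ^ 2 = _
    rw [div_pow, sq (∑ p ∈ zp a0 ×ˢ zp b1, gg (curve a0 b0 a1 p.1 p.2)), Finset.sum_mul_sum,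
      mul_pow]
  have e1 : ∑ b0 : Perm α, ∑ a1 : Perm α, SecA (a0, b0, a1, b1) ^ 2 =
      (∑ p ∈ zp a0 ×ˢ zp b1, ∑ q ∈ zp a0 ×ˢ zp b1, ∑ b0 : Perm α, ∑ a1 : Perm α,
        gg (curve a0 b0 a1 p.1 p.2) * gg (curve a0 b0 a1 q.1 q.2)) / (n ^ 2 * n' ^ 2) := by
    rw [Finset.sum_congr rfl fun b0 _ => Finset.sum_congr rfl fun a1 _ => e0 b0 a1]
    rw [Finset.sum_congr rfl fun b0 _ => (Finset.sum_div Finset.univ (fun a1 =>
      (∑ p ∈ zp a0 ×ˢ zp b1, ∑ q ∈ zp a0 ×ˢ zp b1,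
        gg (curve a0 b0 a1 p.1 p.2) * gg (curve a0 b0 a1 q.1 q.2))) (n ^ 2 * n' ^ 2)).symm,
      ← Finset.sum_div]
    congr 1
    rw [Finset.sum_congr rfl fun b0 _ => Finset.sum_comm]
    rw [Finset.sum_comm]
    apply Finset.sum_congr rfl
    intro p _
    rw [Finset.sum_congr rfl fun b0 _ => Finset.sum_comm]
    rw [Finset.sum_comm]
  rw [e1, div_le_iff₀ (by positivity)]
  have e2 : (∑ p ∈ zp a0 ×ˢ zp b1, ∑ q ∈ zp a0 ×ˢ zp b1, ∑ b0 : Perm α, ∑ a1 : Perm α,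
        gg (curve a0 b0 a1 p.1 p.2) * gg (curve a0 b0 a1 q.1 q.2)) ≤
      ∑ p ∈ zp a0 ×ˢ zp b1, ∑ q ∈ zp a0 ×ˢ zp b1, F ^ 2 * (4 / d ^ 2) *
      (1 + C1 * (1 + C2 + C2 * (fx (p.1⁻¹ * q.1) * fx (p.2⁻¹ * q.2))) / d) :=
    Finset.sum_le_sum fun p _ => Finset.sum_le_sum fun q _ =>
      Sec_b0 C1 C2 hC1 hd h1 h2 a0 p.1 p.2 q.1 q.2
  refine le_trans e2 (le_of_eq ?_)
  have e3 : ∀ p q : Perm α × Perm α, F ^ 2 * (4 / d ^ 2) *
      (1 + C1 * (1 + C2 + C2 * (fx (p.1⁻¹ * q.1) * fx (p.2⁻¹ * q.2))) / d) =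
      F ^ 2 * (4 / d ^ 2) * (1 + C1 * (1 + C2) / d) +
      F ^ 2 * (4 / d ^ 2) * (C1 * C2 / d) * (fx (p.1⁻¹ * q.1) * fx (p.2⁻¹ * q.2)) := by
    intro p q
    ring
  rw [Finset.sum_congr rfl fun p _ => Finset.sum_congr rfl fun q _ => e3 p q]
  have e4 : ∀ (a b : ℝ) (X : Perm α × Perm α → Perm α × Perm α → ℝ),
      ∑ p ∈ zp a0 ×ˢ zp b1, ∑ q ∈ zp a0 ×ˢ zp b1, (a + b * X p q) =
      a * (n * n') ^ 2 + b * ∑ p ∈ zp a0 ×ˢ zp b1, ∑ q ∈ zp a0 ×ˢ zp b1, X p q := by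
    intro a b X
    simp only [Finset.sum_add_distrib, ← Finset.mul_sum, Finset.sum_const, Finset.card_product,
      nsmul_eq_mul, Nat.cast_mul]
    ring
  rw [e4, Sec_pp a0 b1]
  ring

end

/-- **SEC.** -/
theorem thm_Sec (hCor : St_Cor) (hCnt : St_Cnt) (hOrb : St_Orb) (hMom : St_Mom) : St_Sec := by
  obtain ⟨C1, hC1, h1⟩ := hCor
  obtain ⟨C2, hC2, h2⟩ := hMom
  refine ⟨C1 * (3 + 11 * C2), by positivity, ?_⟩
  intro α _ _ hd
  have hne : Nonempty α := Fintype.card_pos_iff.1 (by omega)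
  have hd1 : (2 : ℝ) ≤ (Fintype.card α : ℝ) := by exact_mod_cast hd
  have hm1 := Sec_m1 (α := α)
  have hG := hCnt α hd
  have hO := hOrb α
  have hm2 : ∑ v : Perm α × Perm α × Perm α × Perm α, SecA v ^ 2 ≤
      ∑ a0 : Perm α, ∑ b1 : Perm α,
        ((Fintype.card α).factorial : ℝ) ^ 2 * (4 / (Fintype.card α : ℝ) ^ 2) *
      (1 + C1 * (1 + C2 + C2 * (avf a0 * avf b1)) / Fintype.card α) := by
    rw [Sec_sum (fun v => SecA v ^ 2)]
    exact Finset.sum_le_sum fun a0 _ => Finset.sum_le_sum fun b1 _ =>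
      Sec_m2 C1 C2 hC1 hd (h1 α hd) (h2 α) a0 b1
  set Z := ((Finset.univ : Finset (Perm α × Perm α × Perm α × Perm α)).filter fun v =>
    ∀ h ∈ Subgroup.zpowers v.1, ∀ h' ∈ Subgroup.zpowers v.2.2.2,
      gg (curve v.1 v.2.1 v.2.2.1 h h') = 0) with hZ
  have hZ0 : ∀ v ∈ Z, SecA v = 0 := by
    intro v hv
    rw [hZ, Finset.mem_filter] at hv
    unfold SecA
    rw [Finset.sum_eq_zero, zero_div]
    intro p hp
    rw [Finset.mem_product, Sec_mem, Sec_mem] at hp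
    exact hv.2 p.1 hp.1 p.2 hp.2
  set d : ℝ := (Fintype.card α : ℝ) with hd'
  have hd0 : 0 < d := by linarith
  have hF0 : (0 : ℝ) < ((Fintype.card α).factorial : ℝ) := by
    exact_mod_cast Nat.factorial_pos _
  set F : ℝ := ((Fintype.card α).factorial : ℝ) with hF
  set G : ℝ := ∑ x : Perm α, gg x with hGG
  set μ : ℝ := G / F with hμ
  have hcheb := Sec_cheb Finset.univ Z SecA μ (Finset.subset_univ _) hZ0
  have hcard : (((Finset.univ : Finset (Perm α × Perm α × Perm α × Perm α)).card : ℕ) : ℝ) =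
      F ^ 4 := by
    rw [Finset.card_univ, Fintype.card_prod, Fintype.card_prod, Fintype.card_prod,
      Fintype.card_perm]
    push_cast
    ring
  have hGμ : G = F * μ := by rw [hμ]; field_simp
  have hμ2 : 2 / d ≤ μ := by
    rw [hμ, le_div_iff₀ hF0, mul_comm]
    exact hG
  rw [hm1, hcard, hGμ] at hcheb
  -- the second moment
  set s : ℝ := ∑ u : Perm α, avf u with hs
  have hcP : (∑ _u : Perm α, (1 : ℝ)) = F := by
    rw [Finset.sum_const, Finset.card_univ, Fintype.card_perm, nsmul_eq_mul, mul_one]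
  have hcP2 : (∑ _u : Perm α, ∑ _v : Perm α, (1 : ℝ)) = F * F := by
    rw [hcP, Finset.sum_const, Finset.card_univ, Fintype.card_perm, nsmul_eq_mul]
  have e1 : ∑ a0 : Perm α, ∑ b1 : Perm α, F ^ 2 * (4 / d ^ 2) *
      (1 + C1 * (1 + C2 + C2 * (avf a0 * avf b1)) / d) =
      F ^ 2 * (4 / d ^ 2) * (F ^ 2 * (1 + C1 * (1 + C2) / d) + C1 * C2 / d * s ^ 2) := by
    have e2 : ∀ a0 b1 : Perm α, F ^ 2 * (4 / d ^ 2) *
      (1 + C1 * (1 + C2 + C2 * (avf a0 * avf b1)) / d) =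
      F ^ 2 * (4 / d ^ 2) * (1 + C1 * (1 + C2) / d) * (1 * 1) +
      F ^ 2 * (4 / d ^ 2) * (C1 * C2 / d) * (avf a0 * avf b1) := by
      intro a0 b1
      ring
    simp only [e2, Finset.sum_add_distrib, ← Finset.mul_sum]
    rw [hcP2, ← Finset.sum_mul, ← hs]
    ring
  rw [e1] at hm2
  have hlog : 0 < Real.log d := Real.log_pos (by linarith)
  have hlog2 : 0.69 ≤ Real.log d := by
    have h3 := Real.log_two_gt_d9
    have h4 : Real.log 2 ≤ Real.log d := Real.log_le_log (by norm_num) hd1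
    linarith
  have hs0 : 0 ≤ s := by
    apply Finset.sum_nonneg
    intro u _
    unfold avf
    apply div_nonneg _ (Nat.cast_nonneg _)
    exact Finset.sum_nonneg fun h _ => Nat.cast_nonneg _
  have hs2 : s ^ 2 ≤ F ^ 2 * (8 * Real.log d ^ 2) := by
    have h3 : s ^ 2 ≤ (F * (1 + Real.log d)) ^ 2 := pow_le_pow_left₀ hs0 hO 2
    have h4 : (1 + Real.log d) ^ 2 ≤ 8 * Real.log d ^ 2 := by nlinarith
    rw [mul_pow] at h3
    exact le_trans h3 (mul_le_mul_of_nonneg_left h4 (by positivity))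
  have e3 : F ^ 2 * (1 + C1 * (1 + C2) / d) + C1 * C2 / d * s ^ 2 ≤
      F ^ 2 * (1 + C1 * (3 + 11 * C2) * Real.log d ^ 2 / d) := by
    have h3 : C1 * C2 / d * s ^ 2 ≤ C1 * C2 / d * (F ^ 2 * (8 * Real.log d ^ 2)) :=
      mul_le_mul_of_nonneg_left hs2 (by positivity)
    have h4 : C1 * (1 + C2) / d ≤ C1 * (1 + C2) / d * (3 * Real.log d ^ 2) := by
      apply le_mul_of_one_le_right (by positivity)
      nlinarith
    have h5 : F ^ 2 * (C1 * (1 + C2) / d) ≤ F ^ 2 * (C1 * (1 + C2) / d * (3 * Real.log d ^ 2)) :=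
      mul_le_mul_of_nonneg_left h4 (by positivity)
    have e4 : F ^ 2 * (1 + C1 * (3 + 11 * C2) * Real.log d ^ 2 / d) =
        F ^ 2 + F ^ 2 * (C1 * (1 + C2) / d * (3 * Real.log d ^ 2)) +
          C1 * C2 / d * (F ^ 2 * (8 * Real.log d ^ 2)) := by ring
    rw [e4]
    linarith
  have e5 : F ^ 2 * (4 / d ^ 2) * (F ^ 2 * (1 + C1 * (1 + C2) / d) + C1 * C2 / d * s ^ 2) ≤
      (4 / d ^ 2) * (F ^ 4 * (1 + C1 * (3 + 11 * C2) * Real.log d ^ 2 / d)) := by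
    refine le_trans (mul_le_mul_of_nonneg_left e3 (by positivity)) (le_of_eq (by ring))
  have e6 : ((Z.card : ℝ) + F ^ 4) * (4 / d ^ 2) ≤
      (4 / d ^ 2) * (F ^ 4 * (1 + C1 * (3 + 11 * C2) * Real.log d ^ 2 / d)) := by
    have h3 : (4 / d ^ 2) ≤ μ ^ 2 := by
      have := pow_le_pow_left₀ (by positivity) hμ2 2
      rw [div_pow] at this
      calc (4 : ℝ) / d ^ 2 = 2 ^ 2 / d ^ 2 := by norm_num
        _ ≤ μ ^ 2 := this
    have h4 : ((Z.card : ℝ) + F ^ 4) * (4 / d ^ 2) ≤ ((Z.card : ℝ) + F ^ 4) * μ ^ 2 :=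
      mul_le_mul_of_nonneg_left h3 (add_nonneg (Nat.cast_nonneg _) (by positivity))
    have h5 : (Z.card : ℝ) * μ ^ 2 + F ^ 4 * μ ^ 2 ≤
        ∑ v : Perm α × Perm α × Perm α × Perm α, SecA v ^ 2 := by
      nlinarith
    linarith
  have e7 : (Z.card : ℝ) + F ^ 4 ≤
      F ^ 4 * (1 + C1 * (3 + 11 * C2) * Real.log d ^ 2 / d) := by
    rw [mul_comm (4 / d ^ 2)] at e6
    exact le_of_mul_le_mul_right e6 (by positivity)
  have e8 : C1 * (3 + 11 * C2) * Real.log d ^ 2 / d * F ^ 4 =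
      F ^ 4 * (1 + C1 * (3 + 11 * C2) * Real.log d ^ 2 / d) - F ^ 4 := by
    ring
  rw [e8]
  linarith

end Pool.Agent.PWR
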