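import Pool.Agent.PWR.Defs

/-!
Campaign PWR (problem MP_26af1b_gt): the property of Putman and Wieland for almost all covers.
Frozen statements.

Every module `Pool/Agent/PWR/<X>.lean` imports this file and proves `theorem thm_<X> : St_<X>`; the
hypotheses (other statements `St_<Y>`) named in the docstring may be used as arguments
(`theorem thm_<X> (hY : St_<Y>) : St_<X>`).  Own lemmas have names which start with the name of the module.
The docstrings contain the proofs.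

THEOREM.  For `g ≥ 2`, `n ≥ 1` all but a proportion `≤ C (log d)^2 / d` of the homomorphisms `ρ` from `F g n`
modulo `bdry` (the fundamental group of the surface of genus `g` without `n` points) to the symmetric
group `S_d` are `Fine`.

OUTLINE.  Part A: `#{x : x and x z are d-cycles} = (d-1)! ∫_0^1 det ((1-s) + s P_z) ds`, at most
`(d-1)! (2/m) (1 + O(1/m))` if `z` moves `m` points (Hadamard); the same for a fixed point and a
`(d-1)`-cycle (`Near`).  Part B: second moment for the permutations `curve a0 b0 a1 h h'`, `h` a power of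
`a0`, `h'` a power of `b1`.  Part C: if a nonseparating simple curve goes to a permutation `Full` or
`Near` then the fundamental group of the cover is generated by powers of such curves; classes with
finite orbit vanish on these (`Good.kill_b'` of `Pool.Agent.PW`).
-/

set_option autoImplicit false

namespace Pool.Agent.PWR

open Equiv Pool.Agent.PW
open scoped Classical

/-! ### Part A: full cycles -/

/-- **OPT.**  Terms: `x = swap none i * optionCongr e`; `x none = i`.  PROOF.  If `i = none` then `x` fixes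
`none` but there is another point.  Let `i = some t`.  `x (some a) = some (e a)` if `e a ≠ t`, and `= none` if
`e a = t`; `x none = some t`.  Let `π (some a) = a`, `π none = t`.  Then `π (x y) = e (π y)` or `π (x y) = π y`
(for `y = none`), so `x.SameCycle y y'` implies `e.SameCycle (π y) (π y')`.  Conversely `some (e a)` is
`x (some a)` or `x (x (some a))`, so `e.SameCycle a b` implies `x.SameCycle (some a) (some b)`, and
`x none = some t`. -/
def St_Opt : Prop := ∀ (α : Type) [DecidableEq α] [Nonempty α] (i : Option α) (e : Perm α),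
  Full (swap none i * optionCongr e) ↔ i ≠ none ∧ Full e

/-- **REC** (from `St_Opt`).  PROOF.  Every `x : Perm (Option α)` is `swap none i * optionCongr e` for unique `i`
(`= x none`) and `e` (`Equiv.Perm.decomposeOption`).  (1) `x * optionCongr w = swap none i * optionCongr (e * w)`;
for `i = some t` the summand is `fl e * fl (e * w)`.  (2) Let `σ = swap none (some q)`, `z = optionCongr w * σ`.
`x z` is conjugate to `σ x z σ = σ * swap none i * optionCongr (e * w)` with `i = some t`.  If `t = q` this is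
`optionCongr (e * w)`, not full (`St_Opt` with `i = none`).  If `t ≠ q`:
`swap none (some q) * swap none (some t) = swap none (some t) * swap (some q) (some t)`, so it is
`swap none (some t) * optionCongr (swap q t * e * w)`, full iff `swap q t * e * w` is, iff `e * w * swap q t` is
(conjugate).  `Full` is invariant under conjugation.  (3), (4): sum over `t`; `fl x = 0` if `x none = none`. -/
def St_Rec : Prop := ∀ (α : Type) [Fintype α] [DecidableEq α] [Nonempty α] (w : Perm α),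
  (∀ t : α, (∑ x : Perm (Option α),
    if x none = some t then fl x * fl (x * optionCongr w) else 0) = ff w) ∧
  (∀ q t : α, (∑ x : Perm (Option α), if x none = some t then
    fl x * fl (x * (optionCongr w * swap none (some q))) else 0) =
      if t = q then 0 else ff (w * swap q t)) ∧
  (ff (optionCongr w) = Fintype.card α * ff w) ∧
  ∀ q : α, ff (optionCongr w * swap none (some q)) = ∑ t ∈ Finset.univ.erase q, ff (w * swap q t)

/-- **DTO.**  PROOF.  `AM (optionCongr w) s` is block diagonal with the blocks `(1 - s) + s = 1` and `AM w s`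
(reindex `Option α` as `Unit ⊕ α`, `Matrix.det_fromBlocks_zero₂₁`). -/
def St_Dto : Prop := ∀ (α : Type) [Fintype α] [DecidableEq α] (w : Perm α) (s : ℝ),
  DD (optionCongr w) s = DD w s

/-- **DTI.**  Terms: `A = AM w s`, `B = A.adjugate`, `D = DD w s = det A`, `P = PM w`, `N = card α`, `A'_t = AM (w * swap q t) s`,
`Z = AM (optionCongr w * swap none (some q)) s`.  Let first `D ≠ 0`.
(a) The rows and the columns of `A` have sum 1.  So `∑_j B q j = D` and `∑_t B t k = D` for all `q`, `k`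
(`B * A = D`, `A 1 = 1`; `A * B = D`, `1 A = 1`).
(b) `A'_t = A + s (e_(w t) - e_(w q)) (e_q - e_t)^T`, so (`Matrix.det_add_replicateCol_mul_replicateRow`)
`det A'_t = D + s (B q (w t) - B q (w q) - B t (w t) + B t (w q))`, also for `t = q`.
(c) `V = ∑_t B t (w t) = trace (B P)`.  Sum of (b) over all `t`: `N D + s (2 D - N B q (w q) - V)`.
(d) `trace (B A) = N D`: `(1 - s) trace B + s V = N D`.  Jacobi (`Pool.Agent.RRC.DF.jacobi`): `s ↦ DD w s` has the
derivative `D' = trace (B (P - 1)) = V - trace B`.  So `V = N D + (1 - s) D'`.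
(e) `det Z = (1 - s) D - s B q (w q)`: in `Z` add the column `none` to the column `some q`: the matrix with the blocks
`1 - s`, `e_q^T`, `s e_(w q)`, `A` (`Matrix.det_fromBlocks₂₂`).
(f) `∑_{t ≠ q} det A'_t = N det Z - (s (1 - s) D)'`; both sides are polynomials in `s`, so this holds for all `s`
(or use that `D = 0` only for finitely many `s`, `D = 1` for `s = 0`).  Integrate. -/
def St_Dti : Prop := ∀ (α : Type) [Fintype α] [DecidableEq α] (w : Perm α) (q : α),
  (∫ s in (0 : ℝ)..1, ∑ t ∈ Finset.univ.erase q, DD (w * swap q t) s) =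
    Fintype.card α * ∫ s in (0 : ℝ)..1, DD (optionCongr w * swap none (some q)) s

/-- **FRM** (from `St_Rec`, `St_Dto`, `St_Dti`).  PROOF.  Induction on the cardinality: `ff` and `DD` are invariant under
bijections `α ≃ β` (`Equiv.permCongr`, `Matrix.det_submatrix_equiv_self`).  One point: both sides are `1`.  From `α`
(nonempty) to `Option α`: every `z` is `optionCongr w` (if `z none = none`) or `optionCongr w * swap none (some q)`;
use the last two parts of `St_Rec`, the induction hypothesis, `St_Dto`, `St_Dti`. -/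
def St_Frm : Prop := ∀ (α : Type) [Fintype α] [DecidableEq α] [Nonempty α] (z : Perm α),
  ff z = ((Fintype.card α - 1).factorial : ℝ) * ∫ s in (0 : ℝ)..1, DD z s

/-- **HAD.**  PROOF.  Hadamard's inequality `Pool.Agent.Tvv.had_rows` (`U.det ^ 2 ≤ ∏ a, ∑ c, (U a c) ^ 2`) for
the transposed matrix; the column `j` has the sum of squares `(1-s)^2 + s^2` if `z j ≠ j`, and `1` otherwise. -/
def St_Had : Prop := ∀ (α : Type) [Fintype α] [DecidableEq α] (z : Perm α) (s : ℝ),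
  (DD z s) ^ 2 ≤ ((1 - s) ^ 2 + s ^ 2) ^ z.support.card

/-- **INT.**  PROOF.  `|h| ≤ 1` on `[0,1]`, so the integral is `≤ 1`.  Let `m ≥ 1`.  `|h s| ≤ (1 - 2s(1-s))^(m/2) ≤
exp (- m s (1-s))`; by the symmetry `s ↦ 1 - s` of this bound the integral is at most twice the integral of
`exp (- m s (1-s))` over `[0, 1/2]`.  On `[0, 1/4]`: for `H s = - exp (- m s (1-s)) (1 + 4 s + 8/m) / m`,
`H' s = exp (..) ((1 - 2s)(1 + 4s + 8/m) - 4/m) ≥ exp (..)`, so the integral is `≤ H (1/4) - H 0 ≤ 1/m + 8/m^2`.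
On `[1/4, 1/2]`: `exp (..) ≤ exp (-3m/16) ≤ 2 (16/(3m))^2 ≤ 57/m^2`, the integral is `≤ 15/m^2`. -/
def St_Int : Prop := ∀ (m : ℕ) (h : ℝ → ℝ), Continuous h →
  (∀ s ∈ Set.Icc (0 : ℝ) 1, (h s) ^ 2 ≤ ((1 - s) ^ 2 + s ^ 2) ^ m) →
  ∫ s in (0 : ℝ)..1, h s ≤ psi m

/-- **PSI.**  PROOF.  Elementary. -/
def St_Psi : Prop := Antitone psi ∧ (∀ m, 0 < psi m) ∧ (∀ m, psi m ≤ 1) ∧
  ∀ m : ℕ, 1 ≤ m → psi m ≤ 2 / m + 50 / (m : ℝ) ^ 2

/-- **UPP** (from `St_Frm`, `St_Had`, `St_Int`).  PROOF.  `s ↦ DD z s` is continuous (a polynomial). -/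
def St_Upp : Prop := ∀ (α : Type) [Fintype α] [DecidableEq α] [Nonempty α] (z : Perm α),
  ff z ≤ ((Fintype.card α - 1).factorial : ℝ) * psi z.support.card

/-- **VAL** (from `St_Rec`, `St_Opt`, `St_Upp`, `St_Psi`).  PROOF.  If `t = r` every summand is `0` (`x` full fixes
nothing as there are two points).  Otherwise transport by a bijection `α ≃ Option β` which sends `r` to `none`, `t` to
`some t'` (`β` nonempty), and `z` to `Z : Perm (Option β)`.  If `Z none = none`, `Z = optionCongr w` and the sum is `ff w`,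
`w` moves as many points as `z`.  Otherwise `Z = optionCongr w * swap none (some q)` and the sum is `0` or
`ff (w * swap q t')`; `w` moves at least `m - 2` points, `w * swap q t'` at least `m - 4`.  `St_Upp`, `psi` antitone. -/
def St_Val : Prop := ∀ (α : Type) [Fintype α] [DecidableEq α] (z : Perm α) (r t : α),
  2 ≤ Fintype.card α → (∑ x : Perm α, if x r = t then fl x * fl (x * z) else 0) ≤
    ((Fintype.card α - 2).factorial : ℝ) * psi (z.support.card - 4)

/-- **FNN** (from `St_Opt`, `St_Upp`, `St_Psi`).  PROOF.  `fn z` is the sum over `t` of the numbers of `x` with `Full x`,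
`Near t (x z)`; we show that each is `≤ (d-2)! psi (m - 4)`.  Transport by `α ≃ Option β` with `t ↦ none` (`β` nonempty),
`z ↦ Z`.  `Near none y` iff `y = optionCongr e` with `Full e`.  Put `y = x Z`, `x = y Z⁻¹`.  If `Z none = none`, `x` fixes `none`,
the number is `0`.  Otherwise `Z⁻¹ = optionCongr w * swap none (some q)`, `x = optionCongr (e w) * swap none (some q)` is
conjugate to `swap none (some q) * optionCongr (e w)`, full iff `e w` is full; the number is `ff w`, `w` moves at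
least `m - 2` points.  `nf z = fn z⁻¹` (substitute `y = x z`). -/
def St_Fnn : Prop := ∀ (α : Type) [Fintype α] [DecidableEq α] (z : Perm α), 2 ≤ Fintype.card α →
  fn z ≤ Fintype.card α * ((Fintype.card α - 2).factorial : ℝ) * psi (z.support.card - 4) ∧
  nf z ≤ Fintype.card α * ((Fintype.card α - 2).factorial : ℝ) * psi (z.support.card - 4)

/-- **NNN** (from `St_Opt`, `St_Upp`, `St_Psi`, `St_Val`).  PROOF.  `nn z` is the sum over `s, t` of the numbers of `x` with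
`Near s x`, `Near t (x z)`.  Transport by `α ≃ Option β`, `s ↦ none`, `z ↦ Z`, so `x = optionCongr e`, `Full e`.
(1) `t = s`: then `Z none = none`, i.e. `z s = s` (`d - m` values of `s`), `Z = optionCongr w` and the number is
`ff w ≤ (d-2)! psi m`.  (2) `t ≠ s`, `t ↦ some t'`.  If `Z (some t') = none` then `x Z (some t') = none ≠ some t'`, the number
is `0`.  Let `Z (some t') = some r'`.  Put `σ = swap none (some t')`, `Z' = Z σ`, `w' = removeNone Z'` (so `w' a = b` if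
`Z' (some a) = some b`, and `w' a = r'` if `Z' (some a) = none`).  `Near t (x Z)` iff `Near none (σ x Z σ)`;
`σ x Z σ` fixes `none` iff `e r' = t'`, and then it is `optionCongr (e * w')` (check on `some a`).  So the number is
the sum of `St_Val` for `w'`, `r'`, `t'` on `β` (at least two points): `≤ (d-3)! psi (m' - 4)`, `m' ≥ m - 4` the number of
points moved by `w'`. -/
def St_Nnn : Prop := ∀ (α : Type) [Fintype α] [DecidableEq α] (z : Perm α), 3 ≤ Fintype.card α →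
  nn z ≤ (((Fintype.card α : ℝ) - z.support.card) * ((Fintype.card α - 2).factorial : ℝ) +
    (Fintype.card α : ℝ) ^ 2 * ((Fintype.card α - 3).factorial : ℝ)) * psi (z.support.card - 8)

/-- **PAR.**  PROOF.  `Full x`: `x` is a cycle (`Equiv.Perm.IsCycle`) with full support if there are at least two points,
`Equiv.Perm.IsCycle.sign`; one point: `x = 1`.  `Near s x`: a cycle whose support is the complement of `s`, or `x = 1` and
two points. -/
def St_Par : Prop := ∀ (α : Type) [Fintype α] [DecidableEq α] (x : Perm α),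
  (1 ≤ Fintype.card α → Full x → (Perm.sign x : ℤ) = -(-1) ^ Fintype.card α) ∧
  (2 ≤ Fintype.card α → ∀ s, Near s x → (Perm.sign x : ℤ) = (-1) ^ Fintype.card α)

/-- **COR** (from `St_Psi`, `St_Upp`, `St_Fnn`, `St_Nnn`, `St_Par`).  Terms: `d`, `m`, `f = fx z = d - m`.  PROOF.
The sum is `ff z + fn z + nf z + nn z`.  If `sign z = 1`: `fn z = nf z = 0` (`St_Par`); if `sign z = -1`: `ff z = nn z = 0`.
`d = 2`: `gg ≤ 3`, a large constant.  For `d ≥ 3`, `d^2 (d-3)! ≤ (d + 6) (d-2)!`.  So in both cases the sum is at most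
`(d-2)! psi (m - 8) (2 d + 5 + f)`.  If `f > d/2` or `d < 40` use `psi ≤ 1`, `1 ≤ 4 f^2/d^2` resp. a large constant:
the sum is `≤ 10 d (d-2)!`.  If `f ≤ d/2`, `d ≥ 40`: `m - 8 ≥ d/4`, `psi (m - 8) ≤ 2/(m-8) + 50/(m-8)^2 ≤
(2/d) (1 + 4 (f+8)/d) + 800/d^2`.  Then the sum divided by `d!` is `≤ (4/d^2) (1 + C (1 + f)/d)`; `f ≤ f^2`. -/
def St_Cor : Prop := ∃ C : ℝ, 0 < C ∧ ∀ (α : Type) [Fintype α] [DecidableEq α],
  2 ≤ Fintype.card α → ∀ z : Perm α, (∑ x : Perm α, gg x * gg (x * z)) ≤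
    ((Fintype.card α).factorial : ℝ) * (4 / (Fintype.card α : ℝ) ^ 2) *
      (1 + C * (1 + fx z ^ 2) / Fintype.card α)

/-- **CNT** (from `St_Opt`).  PROOF.  `∑ fl x = (d-1)!` (induction by `α ≃ Option β` and `St_Opt`, or
`Equiv.Perm` cycle counts), `∑ nr s x = (d-2)!` for every `s` (`Near none y` iff `y = optionCongr e`, `Full e`),
`d (d-2)! ≥ (d-1)!`. -/
def St_Cnt : Prop := ∀ (α : Type) [Fintype α] [DecidableEq α], 2 ≤ Fintype.card α →
  ((Fintype.card α).factorial : ℝ) * (2 / Fintype.card α) ≤ ∑ x : Perm α, gg x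

/-! ### Part B: the second moment -/

/-- **ORB.**  PROOF.  Burnside (`MulAction.sum_card_fixedBy_eq_card_orbits_mul_card_group` for the action of
`zpowers u` on `α`): `avf u` is the number `c u` of orbits of `u`.  `∑ u, c u = d! (1 + 1/2 + .. + 1/d)`: for
`u = swap none i * optionCongr e` on `Option α`, `c u = c e + 1` if `i = none` and `c u = c e` otherwise (same
argument as `St_Opt`); so the sum for `d + 1` is `(d+1)` times the sum for `d` plus `d!`.  The harmonic sum is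
`≤ 1 + log d` (`harmonic_le_one_add_log`). -/
def St_Orb : Prop := ∀ (α : Type) [Fintype α] [DecidableEq α] [Nonempty α],
  (∑ u : Perm α, avf u) ≤ ((Fintype.card α).factorial : ℝ) * (1 + Real.log (Fintype.card α))

/-- **MOM.**  PROOF.  `fx (π⁻¹ U π V) = X(π)`, the number of `i` with `π i = U (π (V i))`.  Let `d ≥ 5` (otherwise
`X^2 ≤ 16`).  `X = X_1 + X_2`, `X_1`: the `i` with `V i = i`, so `π i` is a fixed point of `U`; `X_2`: the others.
`∑_π X_1^2 / d! ≤ f_U f_V / d + f_V (f_V - 1) f_U (f_U - 1) / (d (d-1)) ≤ 3 f_U f_V` (`f_U, f_V ≤ d`).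
`∑_π X_2^2`: pairs `(i, j)` with `V i ≠ i`, `V j ≠ j`: the number of `π` with `π i = U (π (V i))` is `≤ d (d-2)!`
(choose `π (V i)`; then `π i` is given), and for four different points `i, V i, j, V j` the number of `π` with both
conditions is `≤ d (d-1) (d-4)!`; there are at most `3 d` other pairs (`j = i`, `j = V i`, `i = V j`).  So
`∑_π X_2^2 ≤ d^2 d (d-1) (d-4)! + 3 d d (d-2)! ≤ C d!`.  `X^2 ≤ 2 X_1^2 + 2 X_2^2`. -/
def St_Mom : Prop := ∃ C : ℝ, 0 < C ∧ ∀ (α : Type) [Fintype α] [DecidableEq α] (U V : Perm α),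
  (∑ π : Perm α, fx (π⁻¹ * U * π * V) ^ 2) ≤
    ((Fintype.card α).factorial : ℝ) * C * (1 + fx U * fx V)

/-- **SEC** (from `St_Cor`, `St_Cnt`, `St_Orb`, `St_Mom`).  Terms: `v = (a0, b0, a1, b1)`, `A v` the average of
`gg (curve a0 b0 a1 h h')` over `h ∈ zp a0`, `h' ∈ zp b1`; `A v = 0` for the `v` which we count.  PROOF.
(1) For fixed `a0, b0, b1, h, h'` the map `a1 ↦ curve a0 b0 a1 h h'` is a bijection; so `∑_v A v = (d!)^3 ∑_x gg x`,
`≥ (d!)^4 (2/d)`.  (2) `∑_v (A v)^2`: for `h, k ∈ zp a0`, `h', k' ∈ zp b1`,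
`curve a0 b0 a1 k k' = curve a0 b0 a1 h h' * z` with `z = (b0 h)⁻¹ (h'⁻¹ k') (b0 h) (h⁻¹ k)` (powers of `a0`
commute).  Sum over `a1`: `St_Cor`.  Then over `b0` (`π = b0 h`): `∑_π fx (π⁻¹ U π V)^2 ≤ d! C (1 + fx U fx V)`, `U = h'⁻¹ k'`,
`V = h⁻¹ k`.  The average over `h, k ∈ zp a0` of `fx (h⁻¹ k)` is `avf a0`, over `h', k' ∈ zp b1` it is `avf b1`;
sum over `a0`, `b1`: `St_Orb`.  Together `∑_v (A v)^2 ≤ (d!)^4 (4/d^2) (1 + C' (1 + (1 + log d)^2)/d)`.
(3) Chebyshev: the number of `v` with `A v = 0`, times `(mean)^2`, is at most `∑ (A v - mean)^2`; so it is at most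
`(d!)^4 (∑ (A v)^2 (d!)^4 / (∑ A v)^2 - 1)`.  `1 + (1 + log d)^2 ≤ 20 (log d)^2` for `d ≥ 2`. -/
def St_Sec : Prop := ∃ C : ℝ, 0 < C ∧ ∀ (α : Type) [Fintype α] [DecidableEq α],
  2 ≤ Fintype.card α →
  (((Finset.univ : Finset (Perm α × Perm α × Perm α × Perm α)).filter fun v =>
    ∀ h ∈ Subgroup.zpowers v.1, ∀ h' ∈ Subgroup.zpowers v.2.2.2,
      gg (curve v.1 v.2.1 v.2.2.1 h h') = 0).card : ℝ) ≤
    C * Real.log (Fintype.card α) ^ 2 / Fintype.card α * ((Fintype.card α).factorial : ℝ) ^ 4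

/-- **TRA.**  PROOF.  If the group is not transitive there is a set `S`, `∅ ≠ S ≠ univ`, with `a S = S`, `b S = S`; for
`|S| = j` there are `(j! (d-j)!)^2` such pairs.  The sum over `S` is
`∑_{0<j<d} C(d,j) (j! (d-j)!)^2 = (d!)^2 ∑_{0<j<d} 1 / C(d,j) ≤ (d!)^2 (2/d + (d-3) 2/(d (d-1)))` as
`C(d,j) ≥ d (d-1)/2` for `2 ≤ j ≤ d-2`. -/
def St_Tra : Prop := ∃ C : ℝ, 0 < C ∧ ∀ (α : Type) [Fintype α] [DecidableEq α],
  2 ≤ Fintype.card α →
  (((Finset.univ : Finset (Perm α × Perm α)).filter fun v =>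
    ¬ ∀ i j : α, ∃ x ∈ Subgroup.closure {v.1, v.2}, x i = j).card : ℝ) ≤
    C / Fintype.card α * ((Fintype.card α).factorial : ℝ) ^ 2

/-! ### Part C: curves and covers -/

/-- **SCC.**  Terms: `a = ga ⟨0, _⟩`, `b = gb ⟨0, _⟩`, `δ = cm a b = a b a⁻¹ b⁻¹`; automorphisms `e1`, `e2`, `psh`, `qsh` of
`Pool.Agent.PW.Autos`.  `Scc` is invariant under conjugation and under `MCG` (`MulAut` product = composition).  PROOF.
(1) `b ↦ b a^k` is `e1`.  (2) `e1 0 (-1) * e2 0 1` sends `a` to `a b a⁻¹`; so for all `φ ∈ MCG` `φ a` is `Scc` by (2a): the inverse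
statement `∃ ψ ∈ MCG, IsConj (ψ a) (φ b)`, `ψ = φ * (e1 0 (-1) * e2 0 1)`; and `a` itself is `Scc`: `e2 0 (-1) * e1 0 1` sends `b` to
`b a` and then to `b a b⁻¹`.  (3) `psh 0 j 1` sends `b` to `b a⁻¹ b⁻¹ s b`, `s = sw 0 j = mid a_j mid⁻¹`, conjugate to
`s b b a⁻¹ b⁻¹ = s b a⁻¹ δ`, conjugate to `δ s b a⁻¹`.  Apply `e2 j k` (it sends `s` to `mid a_j b_j^k mid⁻¹`, fixes `a`, `b`,
`mid`), then `e1 0 (k' + 1)` (`b a⁻¹ ↦ b a^k'`, fixes `δ`): `y b a^k'` is `Scc`, `y = δ mid a_j b_j^k mid⁻¹`.  In the same way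
with `qsh 0 j 1` for the marked points.  (4) `θ = e1 0 k * e2 0 1 * e1 0 1` fixes `y` and sends `b` to `b a^(k+1) b a^k`; so
`y b a^(k+1) b a^k` is `Scc`, it is conjugate to `b a^k y b a^(k+1)`.  (5) The subgroup contains `δ`; by induction on `j` it
contains `mid g n 0 j`, so `a_j` (`k = 0`) and `b_j` (`k = 1`), then `midc g n 0 j` and `c_j`.
(6) `φ = e2 j k * psh 0 j 1`, resp. `qsh 0 j 1`. -/
def St_Scc : Prop := ∀ (g n : ℕ) (h : 0 < g),
  (∀ k : ℤ, Scc (gb ⟨0, h⟩ * ga ⟨0, h⟩ ^ k : F g n)) ∧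
  (Scc (ga ⟨0, h⟩ : F g n) ∧ ∀ φ ∈ MCG g n, ∃ ψ ∈ MCG g n,
    IsConj (ψ (ga ⟨0, h⟩)) (φ (gb ⟨0, h⟩))) ∧
  (∀ y ∈ YY g n h, ∀ k : ℤ, Scc (y * gb ⟨0, h⟩ * ga ⟨0, h⟩ ^ k)) ∧
  (∀ y ∈ YY g n h, ∀ k : ℤ,
    Scc (gb ⟨0, h⟩ * ga ⟨0, h⟩ ^ k * y * gb ⟨0, h⟩ * ga ⟨0, h⟩ ^ (k + 1))) ∧
  (Subgroup.closure ({ga ⟨0, h⟩, gb ⟨0, h⟩} ∪ YY g n h) = ⊤) ∧
  (∀ y ∈ YY g n h, ∃ φ ∈ MCG g n, φ (ga ⟨0, h⟩) = ga ⟨0, h⟩ ∧
    φ (gb ⟨0, h⟩) = gb ⟨0, h⟩ * (ga ⟨0, h⟩)⁻¹ * (gb ⟨0, h⟩)⁻¹ *
      ((cm (ga ⟨0, h⟩) (gb ⟨0, h⟩))⁻¹ * y) * gb ⟨0, h⟩)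

/-- **CRD** (from `St_Scc`).  Terms: `q = ga ⟨0, h⟩`, `p = gb ⟨0, h⟩`, `H` the closure, `K = Stab ρ s`.  PROOF.  `H ≤ K` clear.
`ρ q` is full, so every sheet is `ρ (q^i) s` for some integer `i`.  Claim: for all `x : F g n` and all integers `i, j` with
`ρ x (ρ (q^i) s) = ρ (q^j) s`, `q^(-j) x q^i ∈ H`.  The claim for `x`, `x'` gives it for `x x'` (choose an intermediate `j`) and
for `x⁻¹`.  It holds for `x = q` (a power of `q` in `K`; `q` is `Scc`, negative powers are inverses), for `x = p`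
(`q^(-j) p q^i` is conjugate to `p q^(i-j)`, `Scc`), for `x = y p`, `y ∈ YY` (conjugate to `y p q^(i-j)`), so for `y`, so for all `x`
(`closure = ⊤`).  Take `x ∈ K`, `i = j = 0`. -/
def St_Crd : Prop := ∀ (g n : ℕ) (h : 0 < g) (X : Type) [Finite X] (ρ : F g n →* Perm X),
  Full (ρ (ga ⟨0, h⟩)) → ∀ s : X, Stab ρ s ≤ Subgroup.closure {x | x ∈ Stab ρ s ∧ SimplePower x}

/-- **CRN** (from `St_Scc`).  Terms as in `St_Crd`; write `x s` for `ρ x s`; `s_* = p s₀`, `K = Stab ρ s_*`, `H` the closure for `s_*`.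
`q` fixes `s₀`; every sheet `≠ s₀` is `q^i s_*`.  PROOF.  Claim: for all `x : F g n` and all `i, j`:
(CC) `x q^i s_* = q^j s_*` implies `q^(-j) x q^i ∈ H`; (C0) `x q^i s_* = s₀` implies `p x q^i ∈ H`;
(0C) `x s₀ = q^j s_*` implies `q^(-j) x p⁻¹ ∈ H`; (00) `x s₀ = s₀` implies `p x p⁻¹ ∈ H`.
(That is `τ_(x s)⁻¹ x τ_s ∈ H` for the transversal `q^i` for `q^i s_*`, `p⁻¹` for `s₀`.)  It passes to products and inverses.
`x = q`: (CC) power of `q`; (00) conjugate of `q`; the others do not occur.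
`x = p`: (CC) conjugate to `p q^(i-j)`.  (0C): `j` with `q^j s_* = s_*`: `q^(-j) ∈ H`.  (00) does not occur.
(C0): `p p q^i = (p q^i p⁻¹)⁻¹ (p q^i)^2`; `p q^i p⁻¹ ∈ K` is a conjugate of a power of `q` and `(p q^i)^2 ∈ K` is the square
of an `Scc`.
`x = y p`, `y ∈ YY`: (CC) conjugate to `y p q^(i-j)`.
(C0) `y p q^i s_* = s₀`: `p (y p) q^i = (p q^(i-1) p⁻¹)⁻¹ (p q^(i-1) y p q^i)`; the last factor is in `K` and `Scc`.
(00): `p (y p) p⁻¹` is conjugate to `y p`, `Scc`.
(0C) `y p s₀ = q^j s_*`, i.e. `y s_* = q^j s_*`; to show `q^(-j) (y p) p⁻¹ = q^(-j) y ∈ H`.  Let `c` be an integer with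
`p q^c s_* = s₀` (`p⁻¹ s₀ ≠ s₀`), `k = c - j`.  Then `p (p q^k y p q^(k+1)) p⁻¹ ∈ K` (`s_* → s₀ → s₀ → s_* → q^j s_* → q^c s_* → s₀ → s_*`) and is
conjugate to an `Scc`; it equals `(p p q^k y) (p q^(k+1) p⁻¹)`; so `p p q^k y ∈ H`; `p p q^c ∈ H` by (C0) for `p`; so
`q^(k-c) y = (p p q^c)⁻¹ (p p q^k y) ∈ H`, and `k - c = -j`. -/
def St_Crn : Prop := ∀ (g n : ℕ) (h : 0 < g) (X : Type) [Finite X] (ρ : F g n →* Perm X) (s₀ : X),
  Near s₀ (ρ (ga ⟨0, h⟩)) → ρ (gb ⟨0, h⟩) s₀ ≠ s₀ →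
  Stab ρ (ρ (gb ⟨0, h⟩) s₀) ≤
    Subgroup.closure {x | x ∈ Stab ρ (ρ (gb ⟨0, h⟩) s₀) ∧ SimplePower x}

/-- **CRI** (from `St_Scc`, `St_Crd`, `St_Crn`).  PROOF.  (1) The conclusion for one sheet implies it for all: `Stab ρ (w s) = w Stab ρ s w⁻¹`,
`SimplePower` is invariant under conjugation.  (2) The conclusion for `ρ ∘ ψ`, `ψ ∈ MCG`, implies it for `ρ`: `Stab (ρ ∘ ψ) s` is the
preimage of `Stab ρ s` under `ψ`, and `SimplePower x` iff `SimplePower (ψ x)`.  So we may assume `φ = 1`.  (3) Full: `St_Crd`.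
(4) Near `s₀`, `b = gb 0` moves `s₀`: `St_Crn`.  (5) Near `s₀`, `b` fixes `s₀`: by transitivity and `closure = ⊤` some `y ∈ YY` moves `s₀`.
Take `φ` of the last part of `St_Scc`: `φ a = a`, and `φ b = b a⁻¹ b⁻¹ (δ⁻¹ y) b` moves `s₀` as `a`, `b`, `δ` fix it.  Use (4) for
`ρ ∘ φ`, and (2). -/
def St_Cri : Prop := ∀ (g n : ℕ) (h : 0 < g) (X : Type) [Finite X] (ρ : F g n →* Perm X),
  (∀ s t : X, ∃ x, ρ x s = t) → (∃ φ ∈ MCG g n, Full (ρ (φ (ga ⟨0, h⟩))) ∨
    ∃ s₀, Near s₀ (ρ (φ (ga ⟨0, h⟩)))) →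
  ∀ s : X, Subgroup.closure {x | x ∈ Stab ρ s ∧ SimplePower x} = Stab ρ s

/-- **KIL.**  PROOF.  Suppose the orbit is finite; `good_of_finite` and `Good.kill_b'` (Pool.Agent.PW): the extension of `f` by `0`
vanishes at `w (φ b)^m w⁻¹` for `φ ∈ MCG`, `(φ b)^m` in the normal core.  If `x ∈ K` is a `SimplePower`, `x = w (φ b)^m w⁻¹`, take `L > 0` with
`x^L` in the normal core (`exists_exp`): `L f x = f (x^L) = 0`.  So `f` vanishes on generators of `K`, so `f = 0` (additive). -/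
def St_Kil : Prop := ∀ (g n : ℕ) (K : Subgroup (F g n)) [K.FiniteIndex], bdry g n ∈ K.normalCore →
  K ≤ Subgroup.closure {x | x ∈ K ∧ SimplePower x} →
  ∀ f : K → ℚ, IsClass K f → f ≠ 0 → (orbit K f).Infinite

/-- **CUR** (from `St_Scc`).  PROOF.  `mid g n 0 1 = 1`; the third part of `St_Scc` for `j = 1` gives `φ ∈ MCG` with `φ (gb 0)` conjugate to
the element; then the second part. -/
def St_Cur : Prop := ∀ (g n : ℕ) (h : 1 < g) (k l : ℤ), ∃ φ ∈ MCG g n,
  IsConj (φ (ga ⟨0, by omega⟩)) (cm (ga ⟨0, by omega⟩) (gb ⟨0, by omega⟩) * ga ⟨1, h⟩ * gb ⟨1, h⟩ ^ l *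
    gb ⟨0, by omega⟩ * ga ⟨0, by omega⟩ ^ k : F g n)

/-- **HOM.**  PROOF.  A homomorphism `ρ` with `ρ (bdry) = 1` is given by arbitrary images of the generators other than the last
`c_(n-1)`; the image of `c_(n-1)` is determined (`bdry` ends with it).  So the left side and the right side are
`#P (d!)^(2g + n - 5) (d!)^4` and `#P (d!)^(2g + n - 1)`. -/
def St_Hom : Prop := ∀ (g n : ℕ) (h : 1 < g), 1 ≤ n → ∀ (d : ℕ)
  (P : Perm (Fin d) × Perm (Fin d) × Perm (Fin d) × Perm (Fin d) → Prop),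
  Nat.card {ρ : F g n →* Perm (Fin d) // ρ (bdry g n) = 1 ∧
    P (ρ (ga ⟨0, by omega⟩), ρ (gb ⟨0, by omega⟩), ρ (ga ⟨1, h⟩), ρ (gb ⟨1, h⟩))} * (d.factorial) ^ 4 =
  ((Finset.univ : Finset (Perm (Fin d) × Perm (Fin d) × Perm (Fin d) × Perm (Fin d))).filter P).card *
    Nat.card {ρ : F g n →* Perm (Fin d) // ρ (bdry g n) = 1}

/-- **FIN** (from `St_Sec`, `St_Tra`, `St_Cri`, `St_Kil`, `St_Cur`, `St_Hom`).  PROOF.  Let `ρ (bdry) = 1`.  If the images of `a_0`, `b_0` generate a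
transitive group and some `curve (ρ a_0) (ρ b_0) (ρ a_1) h h'`, `h = ρ a_0^k`, `h' = ρ b_1^l`, has `gg ≠ 0` (so it is `Full` or `Near s₀`) then `ρ` is `Fine`:
`St_Cur`, `St_Cri` (`Full` and `Near` are invariant under conjugation), `St_Kil` (`Stab ρ s` has finite index and contains the kernel
of `ρ`).  Count with `St_Hom`, `St_Sec`, `St_Tra` (`1/d ≤ 3 (log d)^2/d`). -/
def St_Fin : Prop := ∃ C : ℝ, ∀ g n d : ℕ, 2 ≤ g → 1 ≤ n → 2 ≤ d →
  (Nat.card {ρ : F g n →* Perm (Fin d) // ρ (bdry g n) = 1 ∧ ¬ Fine ρ} : ℝ) ≤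
    C * Real.log d ^ 2 / d * Nat.card {ρ : F g n →* Perm (Fin d) // ρ (bdry g n) = 1}

end Pool.Agent.PWR
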