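import Pool.Agent.PWR.St

/-!
# PWR, module Tra: pairs of permutations which generate an intransitive group
-/

set_option autoImplicit false

namespace Pool.Agent.PWR

open Equiv Pool.Agent.PW
open scoped Classical

private theorem Tra_choose (d : ℕ) : ∀ j, 2 ≤ j → j + 2 ≤ d → d * (d - 1) ≤ 2 * d.choose j := by
  induction d with
  | zero =>
    intro j _ h
    omega
  | succ d ih =>
    intro j h1 h2
    have hd : 3 ≤ d := by omega
    obtain ⟨i, rfl⟩ : ∃ i, j = i + 1 := ⟨j - 1, by omega⟩
    rw [Nat.choose_succ_succ, Nat.add_sub_cancel]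
    have h2' : (d + 1) * d = 2 * (d + 1).choose 2 := by
      have h3 := Nat.triangle_succ d
      rw [Nat.choose_two_right, Nat.add_sub_cancel]
      have h4 : 2 ∣ (d + 1) * d := (Nat.even_mul_succ_self d).two_dvd.trans (by rw [mul_comm])
      omega
    rcases Nat.lt_or_ge i 2 with h3 | h3
    · have h4 : i = 1 := by omega
      subst h4
      rw [h2', Nat.choose_succ_succ d 1]
    · rcases Nat.lt_or_ge d (i + 3) with h5 | h5
      · have h6 : d = i + 2 := by omega
        have h7 : (d + 1).choose (i + 1) = (d + 1).choose 2 := by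
          rw [h6]
          exact Nat.choose_symm_of_eq_add (by omega)
        rw [h2', ← h7, Nat.choose_succ_succ]
      · have h6 := ih i h3 (by omega)
        have h7 := ih (i + 1) (by omega) (by omega)
        obtain ⟨e, rfl⟩ : ∃ e, d = e + 1 := ⟨d - 1, by omega⟩
        rw [Nat.add_sub_cancel] at h6 h7
        nlinarith

/-- the number of pairs which preserve a set of size `j` -/
private noncomputable def TraF (d j : ℕ) : ℝ :=
  if 0 < j ∧ j < d then ((j.factorial : ℝ) * ((d - j).factorial : ℝ)) ^ 2 else 0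

private theorem Tra_term (d j : ℕ) (hd : 2 ≤ d) : (d.choose j : ℝ) * TraF d j ≤
    (d.factorial : ℝ) ^ 2 * ((if j = 1 ∨ j = d - 1 then 1 / (d : ℝ) else 0) +
      (if 0 < j ∧ j < d then 2 / ((d : ℝ) * (d - 1)) else 0)) := by
  have hd' : (2 : ℝ) ≤ d := by exact_mod_cast hd
  have hf : (0 : ℝ) < (d.factorial : ℝ) := by exact_mod_cast Nat.factorial_pos d
  unfold TraF
  by_cases hj : 0 < j ∧ j < d
  · rw [if_pos hj, if_pos hj]
    have h1 : (d.choose j : ℝ) * (j.factorial : ℝ) * ((d - j).factorial : ℝ) = d.factorial := by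
      exact_mod_cast Nat.choose_mul_factorial_mul_factorial hj.2.le
    have hc : (0 : ℝ) < (d.choose j : ℝ) := by exact_mod_cast Nat.choose_pos hj.2.le
    have h2 : (d.choose j : ℝ) * ((j.factorial : ℝ) * ((d - j).factorial : ℝ)) ^ 2 =
        (d.factorial : ℝ) ^ 2 * (1 / (d.choose j : ℝ)) := by
      rw [← h1]
      field_simp
    rw [h2]
    refine mul_le_mul_of_nonneg_left ?_ (by positivity)
    have h4 : (0 : ℝ) < (d : ℝ) * (d - 1) := by nlinarith
    by_cases h3 : j = 1 ∨ j = d - 1
    · rw [if_pos h3]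
      have h5 : d.choose j = d := by
        rcases h3 with h3 | h3
        · rw [h3, Nat.choose_one_right]
        · rw [h3, Nat.choose_symm_of_eq_add (b := 1) (by omega), Nat.choose_one_right]
      rw [h5]
      have h6 : (0 : ℝ) ≤ 2 / ((d : ℝ) * (d - 1)) := by positivity
      linarith
    · rw [if_neg h3, zero_add]
      push Not at h3
      have h5 := Tra_choose d j (by omega) (by omega)
      have h6 : (d : ℝ) * (d - 1) ≤ 2 * (d.choose j : ℝ) := by
        have h7 : ((d * (d - 1) : ℕ) : ℝ) ≤ ((2 * d.choose j : ℕ) : ℝ) := by exact_mod_cast h5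
        push_cast [Nat.cast_sub (show 1 ≤ d by omega)] at h7
        exact h7
      rw [div_le_div_iff₀ hc h4]
      linarith
  · rw [if_neg hj, mul_zero]
    refine mul_nonneg (by positivity) (add_nonneg ?_ ?_)
    · split_ifs <;> positivity
    · rw [if_neg hj]

private theorem Tra_sum (d : ℕ) (hd : 2 ≤ d) :
    ∑ j ∈ Finset.range (d + 1), (d.choose j : ℝ) * TraF d j ≤ 4 / d * (d.factorial : ℝ) ^ 2 := by
  have hd' : (2 : ℝ) ≤ d := by exact_mod_cast hd
  refine (Finset.sum_le_sum fun j _ => Tra_term d j hd).trans ?_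
  rw [← Finset.mul_sum, Finset.sum_add_distrib, ← Finset.sum_filter, ← Finset.sum_filter,
    Finset.sum_const, Finset.sum_const, nsmul_eq_mul, nsmul_eq_mul]
  have h1 : (((Finset.range (d + 1)).filter fun j => j = 1 ∨ j = d - 1).card : ℝ) ≤ 2 := by
    have h2 : ((Finset.range (d + 1)).filter fun j => j = 1 ∨ j = d - 1) ⊆ {1, d - 1} := by
      intro j hj
      rw [Finset.mem_filter] at hj
      rw [Finset.mem_insert, Finset.mem_singleton]
      exact hj.2
    exact_mod_cast (Finset.card_le_card h2).trans Finset.card_le_two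
  have h3 : (((Finset.range (d + 1)).filter fun j => 0 < j ∧ j < d).card : ℝ) ≤ d - 1 := by
    have h4 : ((Finset.range (d + 1)).filter fun j => 0 < j ∧ j < d) ⊆ Finset.Ioo 0 d := by
      intro j hj
      rw [Finset.mem_filter] at hj
      rw [Finset.mem_Ioo]
      exact hj.2
    have h5 := Finset.card_le_card h4
    rw [Nat.card_Ioo] at h5
    have h6 : ((((Finset.range (d + 1)).filter fun j => 0 < j ∧ j < d).card : ℕ) : ℝ) ≤
        ((d - 0 - 1 : ℕ) : ℝ) := by exact_mod_cast h5
    rw [Nat.sub_zero, Nat.cast_sub (by omega : 1 ≤ d), Nat.cast_one] at h6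
    exact h6
  have h7 : (((Finset.range (d + 1)).filter fun j => j = 1 ∨ j = d - 1).card : ℝ) * (1 / (d : ℝ)) +
      (((Finset.range (d + 1)).filter fun j => 0 < j ∧ j < d).card : ℝ) *
        (2 / ((d : ℝ) * (d - 1))) ≤ 4 / d := by
    have h8 : (((Finset.range (d + 1)).filter fun j => j = 1 ∨ j = d - 1).card : ℝ) *
        (1 / (d : ℝ)) ≤ 2 * (1 / d) := mul_le_mul_of_nonneg_right h1 (by positivity)
    have h9 : (0 : ℝ) ≤ 2 / ((d : ℝ) * (d - 1)) :=
      div_nonneg (by norm_num) (mul_nonneg (by linarith) (by linarith))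
    have h10 : (((Finset.range (d + 1)).filter fun j => 0 < j ∧ j < d).card : ℝ) *
        (2 / ((d : ℝ) * (d - 1))) ≤ (d - 1) * (2 / ((d : ℝ) * (d - 1))) :=
      mul_le_mul_of_nonneg_right h3 h9
    have h11 : ((d : ℝ) - 1) * (2 / ((d : ℝ) * (d - 1))) = 2 / d := by
      have h12 : (d : ℝ) - 1 ≠ 0 := by
        intro h
        linarith
      have h13 : (d : ℝ) ≠ 0 := by
        intro h
        linarith
      field_simp
    have h12 : (2 : ℝ) * (1 / d) + 2 / d = 4 / d := by ring
    linarith
  calc (d.factorial : ℝ) ^ 2 * _ ≤ (d.factorial : ℝ) ^ 2 * (4 / d) :=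
        mul_le_mul_of_nonneg_left h7 (by positivity)
    _ = 4 / d * (d.factorial : ℝ) ^ 2 := mul_comm _ _

section count

variable {α : Type} [Fintype α]

/-- the permutations which preserve `S` -/
private noncomputable def TraA [DecidableEq α] (S : Finset α) : Finset (Perm α) :=
  Finset.univ.filter fun g => ∀ a, g a ∈ S ↔ a ∈ S

private theorem Tra_card [DecidableEq α] (S : Finset α) :
    (TraA S).card = S.card.factorial * (Fintype.card α - S.card).factorial := by
  have h1 := DomMulAct.stabilizer_card (fun a : α => (decide (a ∈ S) : Bool))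
  rw [Fintype.prod_bool] at h1
  have h2 : (TraA S).card = Fintype.card {g : Perm α //
      (fun a : α => (decide (a ∈ S) : Bool)) ∘ g = fun a : α => (decide (a ∈ S) : Bool)} := by
    rw [Fintype.card_subtype]
    unfold TraA
    congr 1
    ext g
    rw [Finset.mem_filter, Finset.mem_filter]
    refine and_congr_right fun _ => ?_
    rw [funext_iff]
    refine forall_congr' fun a => ?_
    rw [Function.comp_apply, decide_eq_decide]
  rw [h2, h1]
  congr 2
  · rw [Fintype.card_subtype]
    congr 1
    ext a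
    simp
  · rw [Fintype.card_subtype]
    have h3 : (Finset.univ.filter fun a : α => (decide (a ∈ S) : Bool) = false) = Sᶜ := by
      ext a
      simp
    rw [h3, Finset.card_compl]

private theorem Tra_cover [DecidableEq α] :
    ((Finset.univ : Finset (Perm α × Perm α)).filter fun v =>
      ¬ ∀ i j : α, ∃ x ∈ Subgroup.closure {v.1, v.2}, x i = j) ⊆
    ((Finset.univ : Finset α).powerset.filter fun S => 0 < S.card ∧ S.card < Fintype.card α).biUnion
      fun S => TraA S ×ˢ TraA S := by
  intro v hv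
  rw [Finset.mem_filter] at hv
  have h0 := hv.2
  push Not at h0
  obtain ⟨i, j, hij⟩ := h0
  set S : Finset α := Finset.univ.filter fun k => ∃ x ∈ Subgroup.closure {v.1, v.2}, x i = k with hS
  have hmem : ∀ k, k ∈ S ↔ ∃ x ∈ Subgroup.closure {v.1, v.2}, x i = k := by
    intro k
    rw [hS, Finset.mem_filter]
    exact and_iff_right (Finset.mem_univ k)
  have hstab : ∀ g ∈ Subgroup.closure {v.1, v.2}, ∀ a, g a ∈ S ↔ a ∈ S := by
    intro g hg a
    rw [hmem, hmem]
    constructor
    · rintro ⟨x, hx, hxa⟩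
      refine ⟨g⁻¹ * x, Subgroup.mul_mem _ (Subgroup.inv_mem _ hg) hx, ?_⟩
      rw [Perm.mul_apply, hxa]
      exact g.symm_apply_apply a
    · rintro ⟨x, hx, hxa⟩
      exact ⟨g * x, Subgroup.mul_mem _ hg hx, by rw [Perm.mul_apply, hxa]⟩
  have hA : ∀ g ∈ Subgroup.closure {v.1, v.2}, g ∈ TraA S := by
    intro g hg
    unfold TraA
    rw [Finset.mem_filter]
    exact ⟨Finset.mem_univ _, hstab g hg⟩
  rw [Finset.mem_biUnion]
  refine ⟨S, ?_, ?_⟩
  · rw [Finset.mem_filter, Finset.mem_powerset]
    refine ⟨Finset.subset_univ _, ?_, ?_⟩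
    · exact Finset.card_pos.mpr ⟨i, (hmem i).mpr ⟨1, Subgroup.one_mem _, rfl⟩⟩
    · refine Finset.card_lt_univ_of_notMem (x := j) ?_
      rw [hmem]
      rintro ⟨x, hx, hxj⟩
      exact hij x hx hxj
  · rw [Finset.mem_product]
    exact ⟨hA _ (Subgroup.subset_closure (Set.mem_insert _ _)),
      hA _ (Subgroup.subset_closure (Set.mem_insert_of_mem _ rfl))⟩

end count

theorem thm_Tra : St_Tra := by
  refine ⟨4, by norm_num, ?_⟩
  intro α _ _ hd
  have h1 := (Finset.card_le_card (Tra_cover (α := α))).trans Finset.card_biUnion_le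
  have h2 : ∀ S ∈ (Finset.univ : Finset α).powerset.filter
      (fun S => 0 < S.card ∧ S.card < Fintype.card α),
      (((TraA S ×ˢ TraA S).card : ℕ) : ℝ) = TraF (Fintype.card α) S.card := by
    intro S hS
    rw [Finset.mem_filter] at hS
    unfold TraF
    rw [if_pos hS.2, Finset.card_product, Tra_card]
    push_cast
    ring
  have h3 : ∑ S ∈ (Finset.univ : Finset α).powerset.filter
      (fun S => 0 < S.card ∧ S.card < Fintype.card α), (((TraA S ×ˢ TraA S).card : ℕ) : ℝ) ≤
      ∑ j ∈ Finset.range (Fintype.card α + 1),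
        ((Fintype.card α).choose j : ℝ) * TraF (Fintype.card α) j := by
    rw [Finset.sum_congr rfl h2]
    have h4 : ∑ S ∈ (Finset.univ : Finset α).powerset.filter
        (fun S => 0 < S.card ∧ S.card < Fintype.card α), TraF (Fintype.card α) S.card ≤
        ∑ S ∈ (Finset.univ : Finset α).powerset, TraF (Fintype.card α) S.card := by
      refine Finset.sum_le_sum_of_subset_of_nonneg (Finset.filter_subset _ _) fun S _ _ => ?_
      unfold TraF
      split_ifs <;> positivity
    refine h4.trans (le_of_eq ?_)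
    rw [Finset.sum_powerset, Finset.card_univ]
    refine Finset.sum_congr rfl fun j _ => ?_
    rw [Finset.sum_congr rfl fun S hS => by rw [(Finset.mem_powersetCard.mp hS).2],
      Finset.sum_const, Finset.card_powersetCard, Finset.card_univ, nsmul_eq_mul]
  have h5 : (((Finset.univ : Finset (Perm α × Perm α)).filter fun v =>
      ¬ ∀ i j : α, ∃ x ∈ Subgroup.closure {v.1, v.2}, x i = j).card : ℝ) ≤
      ∑ S ∈ (Finset.univ : Finset α).powerset.filter
        (fun S => 0 < S.card ∧ S.card < Fintype.card α), (((TraA S ×ˢ TraA S).card : ℕ) : ℝ) := by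
    exact_mod_cast h1
  exact h5.trans (h3.trans (Tra_sum _ hd))

end Pool.Agent.PWR
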