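import Pool.Agent.PWR.St

/-! Module Upp. -/

set_option autoImplicit false

namespace Pool.Agent.PWR

open Equiv Pool.Agent.PW

theorem thm_Upp (hFrm : St_Frm) (hHad : St_Had) (hInt : St_Int) : St_Upp := by
  intro α _ _ _ z
  rw [hFrm α z]
  refine mul_le_mul_of_nonneg_left ?_ (Nat.cast_nonneg _)
  refine hInt z.support.card (fun s => DD z s) ?_ fun s _ => hHad α z s
  unfold DD AM
  refine Continuous.matrix_det ?_
  fun_prop

end Pool.Agent.PWR
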