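import Pool.Agent.PWR.NnnAux

/-! Module Val. -/

set_option autoImplicit false

namespace Pool.Agent.PWR

open Equiv Pool.Agent.PW
open scoped Classical

theorem Val_opt (hRec : St_Rec) (hUpp : St_Upp) (hPsi : St_Psi) {β : Type} [Fintype β]
    [DecidableEq β] [Nonempty β] (Z : Perm (Option β)) (t : β) :
    (∑ x : Perm (Option β), if x none = some t then fl x * fl (x * Z) else 0) ≤
      ((Fintype.card β - 1).factorial : ℝ) * psi (Z.support.card - 4) := by
  obtain ⟨w, rfl | ⟨q, rfl⟩⟩ := Nnn_dec' Z
  · rw [(hRec β w).1 t]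
    exact Nnn_ff_le hUpp hPsi w (by rw [Nnn_supp_opt]; omega)
  · rw [(hRec β w).2.1 q t]
    split_ifs with h
    · exact mul_nonneg (Nat.cast_nonneg _) (hPsi.2.1 _).le
    · refine Nnn_ff_le hUpp hPsi _ ?_
      have h1 := Nnn_supp_mul (optionCongr w) (swap none (some q))
      have h2 := Nnn_supp_mul' w (swap q t)
      have h3 := Nnn_supp_swap q t
      have h4 := Nnn_supp_swap none (some q)
      rw [Nnn_supp_opt] at h1
      omega

theorem Val_fix {α : Type} [Fintype α] (h2 : 2 ≤ Fintype.card α) {x : Perm α} {r : α}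
    (h : x r = r) : fl x = 0 := by
  unfold fl
  rw [if_neg]
  intro hx
  obtain ⟨j, hj⟩ := Fintype.exists_ne_of_one_lt_card (by omega) r
  obtain ⟨k, hk⟩ := hx r j
  rw [Perm.zpow_apply_eq_self_of_apply_eq_self h] at hk
  exact hj hk.symm

theorem thm_Val (hRec : St_Rec) (_hOpt : St_Opt) (hUpp : St_Upp) (hPsi : St_Psi) : St_Val := by
  intro α _ _ z r t h2
  by_cases htr : t = r
  · have h0 : (∑ x : Perm α, if x r = t then fl x * fl (x * z) else 0) = 0 := by
      refine Finset.sum_eq_zero fun x _ => ?_
      split_ifs with hx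
      · rw [Val_fix h2 (hx.trans htr), zero_mul]
      · rfl
    rw [h0]
    exact mul_nonneg (Nat.cast_nonneg _) (hPsi.2.1 _).le
  · set e : α ≃ Option {b // b ≠ r} := (optionSubtypeNe r).symm with he
    have her : e r = none := optionSubtypeNe_symm_self r
    have het : e t = some ⟨t, htr⟩ := optionSubtypeNe_symm_of_ne htr
    have hcard : Fintype.card α = Fintype.card {b // b ≠ r} + 1 := by
      rw [Fintype.card_congr e, Fintype.card_option]
    have hne : Nonempty {b // b ≠ r} := ⟨⟨t, htr⟩⟩
    have h3 := Val_opt hRec hUpp hPsi (e.permCongr z) ⟨t, htr⟩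
    rw [Nnn_tr_supp, ← (e.permCongr).sum_comp] at h3
    have h4 : (∑ x : Perm α, if (e.permCongr x) none = some ⟨t, htr⟩ then
        fl (e.permCongr x) * fl (e.permCongr x * e.permCongr z) else 0) =
        ∑ x : Perm α, if x r = t then fl x * fl (x * z) else 0 := by
      refine Finset.sum_congr rfl fun x _ => ?_
      have h5 : e.symm none = r := by rw [← her, symm_apply_apply]
      refine if_congr ?_ ?_ rfl
      · rw [permCongr_apply, h5, ← het]
        exact e.injective.eq_iff
      · rw [← permCongr_mul, Nnn_tr_fl, Nnn_tr_fl]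
    rw [h4] at h3
    have h6 : Fintype.card α - 2 = Fintype.card {b // b ≠ r} - 1 := by omega
    rw [h6]
    exact h3

end Pool.Agent.PWR
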